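import Pool.Agent.Lib.MP_cb4a0f_co.Arc.Stmts

/-!
# MP_cb4a0f_co, arc carvings: existence of linked trees with good nodes
-/

open Classical

namespace RotWqo.Arc

universe u

namespace Abs22

open RotWqo.TL

variable {V : Type u}

lemma choose_X (F : Finset V → Prop) (B : Finset V) (hF : ∀ X, F X → X ⊆ B) (d : Finset V → ℕ)
    (X0 : Finset V) (cc : Finset V → ℕ) (h1 : F X0) : ∃ X, F X ∧ d X ≤ d X0 ∧
      (∀ Y, F Y → d X ≤ d Y) ∧ ∀ Y, F Y → d Y = d X → cc X ≤ cc Y := by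
  obtain ⟨X1, hX1, hmin1⟩ := Finset.exists_min_image (B.powerset.filter F) d
    ⟨X0, Finset.mem_filter.mpr ⟨Finset.mem_powerset.mpr (hF _ h1), h1⟩⟩
  obtain ⟨X, hX, hmin⟩ := Finset.exists_min_image
    ((B.powerset.filter F).filter (fun Y => d Y = d X1)) cc
    ⟨X1, Finset.mem_filter.mpr ⟨hX1, rfl⟩⟩
  obtain ⟨hX, hdX⟩ := Finset.mem_filter.mp hX
  obtain ⟨hXB, hFX⟩ := Finset.mem_filter.mp hX
  refine ⟨X, hFX, ?_, fun Y hY => ?_, fun Y hY hY3 => ?_⟩
  · rw [hdX]
    exact hmin1 X0 (Finset.mem_filter.mpr ⟨Finset.mem_powerset.mpr (hF _ h1), h1⟩)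
  · rw [hdX]
    exact hmin1 Y (Finset.mem_filter.mpr ⟨Finset.mem_powerset.mpr (hF _ hY), hY⟩)
  · exact hmin Y (Finset.mem_filter.mpr
      ⟨Finset.mem_filter.mpr ⟨Finset.mem_powerset.mpr (hF _ hY), hY⟩, hY3.trans hdX⟩)

/-- the hypothesis for fixed `A`, `B`, `X` -/
def Hyp (d : Finset V → ℕ) (Good : Finset V → Prop) (F : Finset V → Prop) (A B X : Finset V) :
    Prop :=
  Good X ∧
    (∀ S, Good S → A ⊆ S → S ⊆ B → F (S ∩ X) ∧ F (S ∪ X) ∧
      d (S ∩ X) + d (S ∪ X) ≤ d S + d X ∧ Good (S ∩ X) ∧ Good (S ∪ X)) ∧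
    (∀ S, Good S → S ⊆ B → Disjoint S A → (S ∩ X).Nonempty → (S \ X).Nonempty →
      Good (S ∩ X) ∧ Good (S \ X) ∧
      ((F (S ∪ X) ∧ d (S ∩ X) + d (S ∪ X) ≤ d S + d X) ∨ d (S ∩ X) < d S) ∧
      ((F (X \ S) ∧ d (S \ X) + d (X \ S) ≤ d S + d X) ∨ d (S \ X) < d S))

/-- Fact (1): both versions of a cut node off the path have smaller value. -/
lemma cut_lt (d : Finset V → ℕ) (Good F : Finset V → Prop)
    {b : Tree V} (hnd : b.leaves.Nodup) (hg : ∀ s, IsSub s b → Good s.set) {A X : Finset V}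
    (hH : Hyp d Good F A b.set X) (hmin : ∀ Y, F Y → d X ≤ d Y)
    (hcc : ∀ Y, F Y → d Y = d X →
      ((nodes b).filter (CutBy A X)).card ≤ ((nodes b).filter (CutBy A Y)).card)
    {s : Tree V} (hs : IsSub s b) (hc : CutBy A X s.set) :
    d (s.set ∩ X) < d s.set ∧ d (s.set \ X) < d s.set := by
  obtain ⟨hdis, hne1, hne2⟩ := hc
  have hlt : ∀ Y, F Y → (∀ t, IsSub t b → CutBy A Y t.set → CutBy A X t.set) →
      ¬ CutBy A Y s.set → d X < d Y := by
    intro Y hY hsubset hnot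
    refine lt_of_le_of_ne (hmin Y hY) fun heq => ?_
    have h1 := hcc Y hY heq.symm
    have h2 : (nodes b).filter (CutBy A Y) ⊂ (nodes b).filter (CutBy A X) := by
      rw [Finset.ssubset_iff_of_subset]
      · exact ⟨s.set, Finset.mem_filter.mpr ⟨mem_nodes.mpr ⟨s, hs, rfl⟩, hdis, hne1, hne2⟩,
          fun h => hnot (Finset.mem_filter.mp h).2⟩
      · intro S hS
        obtain ⟨h3, h4⟩ := Finset.mem_filter.mp hS
        obtain ⟨t, ht, rfl⟩ := mem_nodes.mp h3
        exact Finset.mem_filter.mpr ⟨h3, hsubset t ht h4⟩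
    have h3 := Finset.card_lt_card h2
    omega
  obtain ⟨-, -, hoff⟩ := hH
  obtain ⟨-, -, ho1, ho2⟩ := hoff s.set (hg s hs) (sub_set hs) hdis hne1 hne2
  constructor
  · rcases ho1 with ⟨hFu, h2⟩ | h2
    swap
    · exact h2
    have h1 : d X < d (s.set ∪ X) := by
      refine hlt _ hFu ?_ ?_
      · rintro t ht ⟨h3, ⟨v, hv⟩, ⟨w, hw⟩⟩
        rw [Finset.mem_inter, Finset.mem_union] at hv
        rw [Finset.mem_sdiff, Finset.mem_union] at hw
        push Not at hw
        refine ⟨h3, ?_, ⟨w, Finset.mem_sdiff.mpr ⟨hw.1, hw.2.2⟩⟩⟩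
        rcases laminar hnd ht hs with h | h | h
        · rcases hv.2 with hv2 | hv2
          · exact absurd hv2 (Finset.disjoint_left.mp h hv.1)
          · exact ⟨v, Finset.mem_inter.mpr ⟨hv.1, hv2⟩⟩
        · exact absurd (h hw.1) hw.2.1
        · exact hne1.mono (Finset.inter_subset_inter_right h)
      · rintro ⟨_, _, ⟨w, hw⟩⟩
        rw [Finset.mem_sdiff, Finset.mem_union] at hw
        exact hw.2 (Or.inl hw.1)
    omega
  · rcases ho2 with ⟨hFu, h2⟩ | h2
    swap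
    · exact h2
    have h1 : d X < d (X \ s.set) := by
      refine hlt _ hFu ?_ ?_
      · rintro t ht ⟨h3, ⟨v, hv⟩, ⟨w, hw⟩⟩
        rw [Finset.mem_inter, Finset.mem_sdiff] at hv
        rw [Finset.mem_sdiff, Finset.mem_sdiff] at hw
        refine ⟨h3, ⟨v, Finset.mem_inter.mpr ⟨hv.1, hv.2.1⟩⟩, ?_⟩
        rcases laminar hnd ht hs with h | h | h
        · refine ⟨w, Finset.mem_sdiff.mpr ⟨hw.1, fun hwX => hw.2 ⟨hwX, ?_⟩⟩⟩
          exact fun hws => Finset.disjoint_left.mp h hw.1 hws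
        · exact absurd (h hv.1) hv.2.2
        · exact hne2.mono (Finset.sdiff_subset_sdiff h (Finset.Subset.refl _))
      · rintro ⟨_, ⟨v, hv⟩, _⟩
        rw [Finset.mem_inter, Finset.mem_sdiff] at hv
        exact hv.2.2 hv.1
    omega

lemma improve (d : Finset V → ℕ) (Good F : Finset V → Prop)
    {m : ℕ} {a b : Tree V} (hp : PathGe d m a b) (hnd : b.leaves.Nodup) (hb : d b.set = m)
    (hg : ∀ s, IsSub s b → Good s.set) (hF : ∀ X, F X → a.set ⊆ X ∧ X ⊆ b.set)
    (hH : ∀ X, F X → d X < m → (∀ Y, F Y → d X ≤ d Y) → Hyp d Good F a.set b.set X)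
    {X0 : Finset V} (h1 : F X0) (h3 : d X0 < m) :
    ∃ (b' : Tree V) (k0 : ℕ), b'.leaves.Perm b.leaves ∧ (∃ s, IsSub s b ∧ k0 ≤ d s.set) ∧
      (∀ s, IsSub s b' → Good s.set) ∧
      (∀ j, k0 ≤ j → cnt (fun S => j ≤ d S) b' ≤ cnt (fun S => j ≤ d S) b ∧
        dsc (fun S => j ≤ d S) b' ≤ dsc (fun S => j ≤ d S) b) ∧
      dsc (fun S => k0 ≤ d S) b' < dsc (fun S => k0 ≤ d S) b := by
  obtain ⟨X, hFX, hdX, hmin, hcc⟩ := choose_X F b.set (fun X hX => (hF X hX).2) d X0
    (fun X => ((nodes b).filter (CutBy a.set X)).card) h1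
  obtain ⟨hAX, hXB⟩ := hF X hFX
  have hHX := hH X hFX (by omega) hmin
  have hab := sub_of_path hp
  have hAB := sub_set hab
  have hAne := set_nonempty a
  -- the two parts
  obtain ⟨p, hpX⟩ : ∃ p : V → Prop, ∀ v, p v ↔ v ∉ X := ⟨_, fun _ => Iff.rfl⟩
  obtain ⟨p', hp'X⟩ : ∃ p' : V → Prop, ∀ v, p' v ↔ v ∈ X := ⟨_, fun _ => Iff.rfl⟩
  have hfil : ∀ S : Finset V, S.filter p' = S ∩ X := by
    intro S
    ext v
    rw [Finset.mem_filter, Finset.mem_inter, hp'X]
  obtain ⟨low, hlowl, hlowc⟩ : ∃ t' : Tree V,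
      t'.leaves = b.leaves.filter (fun v => decide (p' v)) ∧
      ∀ g : Finset V → Prop, cnt g t' ≤ cnt (Low X g) b ∧ dsc g t' ≤ dsc (Low X g) b := by
    rcases restrict p' b with h | ⟨t', h4, h5⟩
    · obtain ⟨v, hv⟩ := hAne
      exact absurd ((hp'X v).mpr (hAX hv)) (h v (hAB hv))
    · refine ⟨t', h4, fun g => ?_⟩
      have h6 := h5 g
      have h7 : (fun S : Finset V => (S.filter p').Nonempty ∧ g (S.filter p')) = Low X g := by
        funext S
        rw [hfil]
        rfl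
      rw [h7] at h6
      exact h6
  have hlow : low.set = X := by
    ext v
    rw [mem_set, hlowl, List.mem_filter, decide_eq_true_eq, hp'X, ← mem_set]
    exact ⟨fun h => h.2, fun h => ⟨hXB h, h⟩⟩
  obtain ⟨b', hb'l, hb'c⟩ := upper hp hnd X hAX p hpX low hlow
  have hperm : b'.leaves.Perm b.leaves := by
    refine hb'l.trans ?_
    rw [hlowl]
    have h4 : b.leaves.filter (fun v => decide (p' v)) =
        b.leaves.filter (fun v => !decide (p v)) := by
      refine List.filter_congr fun v _ => ?_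
      rw [Bool.eq_iff_iff]
      simp [hpX, hp'X]
    rw [h4]
    exact List.filter_append_perm _ _
  -- pointwise facts
  have hcut : ∀ s, IsSub s b → CutBy a.set X s.set →
      d (s.set ∩ X) < d s.set ∧ d (s.set \ X) < d s.set := fun s hs hc =>
    cut_lt d Good F hnd hg hHX hmin hcc hs hc
  have hpath : ∀ s, IsSub s b → a.set ⊆ s.set → d X ≤ d (s.set ∩ X) ∧ d X ≤ d (s.set ∪ X) ∧
      d (s.set ∩ X) + d (s.set ∪ X) ≤ d s.set + d X := fun s hs hc => by
    obtain ⟨g1, g2, g3, -, -⟩ := hHX.2.1 s.set (hg s hs) hc (sub_set hs)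
    exact ⟨hmin _ g1, hmin _ g2, g3⟩
  have hnotdis : ∀ s : Finset V, a.set ⊆ s → ¬ Disjoint s a.set := by
    intro s hs hd
    obtain ⟨v, hv⟩ := hAne
    exact Finset.disjoint_left.mp hd (hs hv) hv
  have hLg : ∀ j s, IsSub s b → Low X (fun S => j ≤ d S) s.set → j ≤ d s.set := by
    rintro j s hs ⟨hne, hj⟩
    have hj : j ≤ d (s.set ∩ X) := hj
    rcases laminar hnd hs hab with h | h | h
    · by_cases hne2 : (s.set \ X).Nonempty
      · exact hj.trans (hcut s hs ⟨h, hne, hne2⟩).1.le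
      · rw [Finset.not_nonempty_iff_eq_empty, Finset.sdiff_eq_empty_iff_subset] at hne2
        rwa [Finset.inter_eq_left.mpr hne2] at hj
    · rwa [Finset.inter_eq_left.mpr (h.trans hAX)] at hj
    · have := hpath s hs h
      omega
  have hUg : ∀ j s, IsSub s b → Up a.set X (fun S => j ≤ d S) s.set → j ≤ d s.set := by
    rintro j s hs (⟨hdis, hne, hj⟩ | ⟨hA, hj⟩)
    · have hj : j ≤ d (s.set \ X) := hj
      by_cases hne2 : (s.set ∩ X).Nonempty
      · exact hj.trans (hcut s hs ⟨hdis, hne2, hne⟩).2.le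
      · rw [Finset.not_nonempty_iff_eq_empty, ← Finset.disjoint_iff_inter_eq_empty] at hne2
        rwa [Finset.sdiff_eq_self_of_disjoint hne2] at hj
    · have hj : j ≤ d (s.set ∪ X) := hj
      have := hpath s hs hA
      omega
  have hLU : ∀ j s, IsSub s b → d X < j → Low X (fun S => j ≤ d S) s.set →
      Up a.set X (fun S => j ≤ d S) s.set →
        d (s.set ∩ X) < d s.set ∧ ¬ Up a.set X (fun S => d s.set ≤ d S) s.set := by
    rintro j s hs hjq ⟨hne, hj⟩ (⟨hdis, hne2, hj2⟩ | ⟨hA, hj2⟩)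
    · have h4 := hcut s hs ⟨hdis, hne, hne2⟩
      refine ⟨h4.1, ?_⟩
      rintro (⟨_, _, h5⟩ | ⟨h5, _⟩)
      · exact absurd h4.2 (not_lt.mpr h5)
      · exact hnotdis _ h5 hdis
    · have hj : j ≤ d (s.set ∩ X) := hj
      have hj2 : j ≤ d (s.set ∪ X) := hj2
      have h4 := hpath s hs hA
      refine ⟨by omega, ?_⟩
      rintro (⟨h5, _, _⟩ | ⟨_, h5⟩)
      · exact hnotdis _ hA h5
      · have h5 : d s.set ≤ d (s.set ∪ X) := h5
        omega
  -- altered nodes
  obtain ⟨Alt, hAlt⟩ : ∃ Alt : Finset V → Prop, ∀ S, Alt S ↔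
      ¬ Low X (fun T => d S ≤ d T) S ∧ ¬ Up a.set X (fun T => d S ≤ d T) S :=
    ⟨_, fun _ => Iff.rfl⟩
  have hnb : ∀ j s, IsSub s b → max (((nodes b).filter Alt).sup d) (d X + 1) ≤ j →
      Up a.set X (fun S => j ≤ d S) s.set → ¬ Low X (fun S => j ≤ d S) s.set := by
    intro j s hs hj hU hL
    obtain ⟨h4, h5⟩ := hLU j s hs (by omega) hL hU
    have h6 : Alt s.set := (hAlt _).mpr ⟨fun h => absurd h4 (not_lt.mpr h.2), h5⟩
    have h7 : d s.set ≤ ((nodes b).filter Alt).sup d :=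
      Finset.le_sup (f := d) (Finset.mem_filter.mpr ⟨mem_nodes.mpr ⟨s, hs, rfl⟩, h6⟩)
    have h8 : j ≤ d (s.set ∩ X) := hL.2
    omega
  have hall : ∀ j, d X + 1 ≤ j → cnt (fun S => j ≤ d S) b' ≤
      cnt (Up a.set X (fun S => j ≤ d S)) b ∧ dsc (fun S => j ≤ d S) b' ≤
        dsc (Up a.set X (fun S => j ≤ d S)) b + dsc (Low X (fun S => j ≤ d S)) b := by
    intro j hj
    have h4 := hb'c (fun S => j ≤ d S) (by omega)
    have h5 := hlowc (fun S => j ≤ d S)
    exact ⟨h4.1, h4.2.trans (Nat.add_le_add_left h5.2 _)⟩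
  have hgood : ∀ s, IsSub s b' → Good s.set := by
    have e1 := hb'c (fun S => ¬ Good S) (not_not.2 hHX.1)
    have e2 := hlowc (fun S => ¬ Good S)
    have e3 : dsc (Up a.set X (fun S => ¬ Good S)) b = 0 := by
      rw [dsc_eq_zero]
      rintro s hs (⟨hdis, hne, hj⟩ | ⟨hA, hj⟩)
      · by_cases hne2 : (s.set ∩ X).Nonempty
        · exact hj (hHX.2.2 s.set (hg s hs) (sub_set hs) hdis hne2 hne).2.1
        · rw [Finset.not_nonempty_iff_eq_empty, ← Finset.disjoint_iff_inter_eq_empty] at hne2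
          rw [Finset.sdiff_eq_self_of_disjoint hne2] at hj
          exact hj (hg s hs)
      · exact hj (hHX.2.1 s.set (hg s hs) hA (sub_set hs)).2.2.2.2
    have e4 : dsc (Low X (fun S => ¬ Good S)) b = 0 := by
      rw [dsc_eq_zero]
      rintro s hs ⟨hne, hj⟩
      rcases laminar hnd hs hab with h | h | h
      · by_cases hne2 : (s.set \ X).Nonempty
        · exact hj (hHX.2.2 s.set (hg s hs) (sub_set hs) h hne hne2).1
        · rw [Finset.not_nonempty_iff_eq_empty, Finset.sdiff_eq_empty_iff_subset] at hne2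
          rw [Finset.inter_eq_left.mpr hne2] at hj
          exact hj (hg s hs)
      · rw [Finset.inter_eq_left.mpr (h.trans hAX)] at hj
        exact hj (hg s hs)
      · exact hj (hHX.2.1 s.set (hg s hs) h (sub_set hs)).2.2.2.1
    have e5 : dsc (fun S => ¬ Good S) b' = 0 := by omega
    rw [dsc_eq_zero] at e5
    exact fun s hs => not_not.1 (e5 s hs)
  refine ⟨b', max (((nodes b).filter Alt).sup d) (d X + 1), hperm, ?_, hgood, ?_, ?_⟩
  · rcases le_total (((nodes b).filter Alt).sup d) (d X + 1) with h | h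
    · rw [max_eq_right h]
      exact ⟨b, IsSub.refl, by omega⟩
    · rw [max_eq_left h]
      have hne : ((nodes b).filter Alt).Nonempty := by
        rw [Finset.nonempty_iff_ne_empty]
        intro h4
        rw [h4, Finset.sup_empty] at h
        simp at h
      obtain ⟨S, hS, hS2⟩ := Finset.exists_mem_eq_sup _ hne d
      obtain ⟨s, hs, rfl⟩ := mem_nodes.mp (Finset.mem_filter.mp hS).1
      exact ⟨s, hs, hS2.le⟩
  · intro j hj
    have h4 := hall j (by omega)
    refine ⟨h4.1.trans (cnt_mono fun s hs => hUg j s hs), h4.2.trans ?_⟩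
    exact dsc_add (fun s hs => hUg j s hs) (fun s hs => hLg j s hs)
      (fun s hs => hnb j s hs hj)
  · have h4 := hall (max (((nodes b).filter Alt).sup d) (d X + 1)) (le_max_right _ _)
    refine lt_of_le_of_lt h4.2 ?_
    rcases le_or_gt (((nodes b).filter Alt).sup d) (d X) with h | h
    · have h5 : max (((nodes b).filter Alt).sup d) (d X + 1) = d X + 1 := by omega
      rw [h5] at hnb ⊢
      refine dsc_add_lt (fun s hs => hUg _ s hs) (fun s hs => hLg _ s hs)
        (fun s hs => hnb _ s hs le_rfl) ?_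
      have h6 : ¬ Low X (fun S => d X + 1 ≤ d S) b.set := by
        rintro ⟨_, h7⟩
        have h7 : d X + 1 ≤ d (b.set ∩ X) := h7
        rw [Finset.inter_eq_right.mpr hXB] at h7
        omega
      rw [cnt_zero h6, add_zero]
      refine cnt_lt_of_path hp (by omega) ?_ (fun s hs => hUg _ s hs)
      rintro (⟨h7, _, _⟩ | ⟨_, h7⟩)
      · exact hnotdis _ (Finset.Subset.refl _) h7
      · have h7 : d X + 1 ≤ d (a.set ∪ X) := h7
        rw [Finset.union_eq_right.mpr hAX] at h7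
        omega
    · have h5 : max (((nodes b).filter Alt).sup d) (d X + 1) = ((nodes b).filter Alt).sup d := by
        omega
      rw [h5] at hnb ⊢
      have hne : ((nodes b).filter Alt).Nonempty := by
        rw [Finset.nonempty_iff_ne_empty]
        intro h4
        rw [h4, Finset.sup_empty] at h
        simp at h
      obtain ⟨S, hS, hS2⟩ := Finset.exists_mem_eq_sup _ hne d
      obtain ⟨h6, h7⟩ := Finset.mem_filter.mp hS
      obtain ⟨s, hs, rfl⟩ := mem_nodes.mp h6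
      rw [hAlt] at h7
      rw [hS2] at hnb ⊢
      exact dsc_add_lt_of_node hs (le_refl _) h7.2 h7.1 (fun s hs => hUg _ s hs)
        (fun s hs => hLg _ s hs) (fun s hs => hnb _ s hs le_rfl)

end Abs22

/-- (G) -/
theorem stAbs_22 : StAbs.{u} := by
  intro V d Good F K hF hK hH t hnd hg
  obtain ⟨t', ⟨h1, h2, h3⟩, hmin⟩ := TL.lex_min
    (fun (j : ℕ) (s : Tree V) => TL.dsc (fun S => j ≤ d S) s) K
    (fun s => s.leaves.Nodup ∧ s.set = t.set ∧ ∀ u, IsSub u s → Good u.set) t ⟨hnd, rfl, hg⟩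
  refine ⟨t', h1, h2, h3, ?_⟩
  intro b a m hb hp hbm ham X hX
  by_contra hlt
  have hbnd : b.leaves.Nodup := by
    clear hmin hp hbm hX h2 h3
    induction hb with
    | refl => exact h1
    | left l r _ ih => exact ih (TL.nodup_node.mp h1).1
    | right l r _ ih => exact ih (TL.nodup_node.mp h1).2.1
  have hgb : ∀ s, IsSub s b → Good s.set := fun s hs => h3 s (TL.sub_trans hs hb)
  have hab := TL.sub_of_path hp
  obtain ⟨b', k0, hperm, ⟨s, hs, hks⟩, hgood, hle, hlt'⟩ :=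
    Abs22.improve d Good (F a.set b.set) hp hbnd hbm hgb (fun X hX => hF _ _ X hX)
      (fun X hX hd hm => hH a.set b.set X (hgb a hab) (hgb b IsSub.refl) (TL.set_nonempty a)
        (TL.sub_set hab) (ham.trans hbm.symm) hX (by omega) hm) hX (not_le.mp hlt)
  obtain ⟨t'', hperm', hc⟩ := TL.replace hperm hb
  have hk0 : k0 ≤ K := hks.trans (hK _ (h3 s (TL.sub_trans hs hb)))
  refine hmin t'' ⟨?_, ?_, ?_⟩ k0 hk0 (fun j hj hjk => ?_) ?_
  · exact hperm'.nodup_iff.mpr h1
  · rw [← h2]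
    ext v
    rw [TL.mem_set, TL.mem_set, hperm'.mem_iff]
  · have h4 : TL.dsc (fun S => ¬ Good S) t' = 0 := by
      rw [TL.dsc_eq_zero]
      exact fun s hs => not_not.2 (h3 s hs)
    have h5 : TL.dsc (fun S => ¬ Good S) b' = 0 := by
      rw [TL.dsc_eq_zero]
      exact fun s hs => not_not.2 (hgood s hs)
    have h6 := TL.cnt_le_dsc (fun S => ¬ Good S) b'
    have h7 := (hc (fun S => ¬ Good S) (by omega)).2.1 (by omega)
    rw [h4, Nat.le_zero, TL.dsc_eq_zero] at h7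
    exact fun u hu => not_not.1 (h7 u hu)
  · exact (hc _ (hle j hj).1).2.1 (hle j hj).2
  · exact (hc _ (hle k0 le_rfl).1).2.2 hlt'

end RotWqo.Arc
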