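import Pool.Agent.Lib.MP_cb4a0f_co.Arc.Stmts

/-!
# MP_cb4a0f_co, arc carvings, module (I): embeddings of whole pieces
-/

open Classical

namespace RotWqo.Arc

universe u v

namespace Final21

variable {V H V' H' : Type*} {n : ℕ}

theorem vt_units {G : RotGraph V H} {u : Fin n → V} {v : V} (hv : v ∈ G.verts) :
    vt u (units G u) v := by
  by_cases h : IsHub u v
  · exact Or.inl h
  · exact Or.inr (inl_mem_units.2 ⟨hv, h⟩)

theorem cpl_units (G : RotGraph V H) (u : Fin n → V) (v : V) : cpl G u (units G u) v := by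
  intro h hh
  exact inn_units ((G.mem_rot v h).1 hh).1

theorem kx_iff {G : RotGraph V H} {u : Fin n → V} {φ : H → H'} {a : H'} :
    Kx G u (units G u) φ a ↔ Ker G G.verts φ a := by
  constructor
  · rintro ⟨h, h1, _, h3⟩
    exact ⟨h, h1, G.base_mem h h1, h3⟩
  · rintro ⟨h, h1, _, h3⟩
    exact ⟨h, h1, inn_units h1, h3⟩

theorem filter_some (p : H → Prop) (l : List H) :
    (l.map some).filter (fun a => decide (okO p a)) =
      (l.filter (fun a => decide (p a))).map some := by
  rw [List.filter_map]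
  rfl

theorem strip (d : H) (l : List H) : (l.map some).map (fun o => o.getD d) = l := by
  rw [List.map_map]
  exact List.map_id l

theorem nc_strip {M : H → H → Prop} (d : H) {l : List H} (h : NC (liftO M) (l.map some)) :
    NC M l := by
  have h1 := h.map (M' := M) (φ := fun o => o.getD d) (by
    rintro a b ⟨x, y, rfl, rfl, h3⟩
    exact h3) (by
    intro a ha c hc
    obtain ⟨x, _, rfl⟩ := List.mem_map.1 ha
    exact ⟨some c, x, c, rfl, rfl, hc⟩)
  rw [strip d l] at h1
  exact h1

end Final21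

open Final21

/-- (I) -/
theorem stFinal_21 : StFinal.{u, v} := by
  intro n V V' H H' hne r G u G' u' β f φ M hu hu' hv hv' E
  have d : H' := Classical.arbitrary H'
  have hub' : ∀ w ∈ G.verts, ¬ IsHub u w → f w ∈ G'.verts ∧ ¬ IsHub u' (f w) := by
    intro w hw hn
    exact inl_mem_units.1 (E.f_mem w (inl_mem_units.2 ⟨hw, hn⟩))
  have hker : ∀ a, Kx G u (units G u) φ a ↔ Ker G G.verts φ a := fun a => kx_iff
  refine ⟨f, φ, M, ?_⟩
  refine ⟨?_, ?_, ?_, E.M_symm, E.M_fun, fun a b h => (E.M_mem a b h).1, ?_, ?_, ?_, ?_, ?_, ?_,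
    ?_, ?_, ?_, ?_⟩
  · intro w hw
    by_cases h : IsHub u w
    · obtain ⟨i, rfl⟩ := h
      rw [E.f_hub]
      exact hv' i
    · exact (hub' w hw h).1
  · intro w hw
    exact E.f_rel w (vt_units hw)
  · intro a ha b hb hab
    have ha' := Finset.mem_coe.1 ha
    have hb' := Finset.mem_coe.1 hb
    by_cases h1 : IsHub u a
    · obtain ⟨i, rfl⟩ := h1
      by_cases h2 : IsHub u b
      · obtain ⟨j, rfl⟩ := h2
        rw [E.f_hub, E.f_hub] at hab
        rw [hu' hab]
      · exfalso
        rw [E.f_hub] at hab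
        exact (hub' b hb' h2).2 ⟨i, hab⟩
    · by_cases h2 : IsHub u b
      · obtain ⟨j, rfl⟩ := h2
        exfalso
        rw [E.f_hub] at hab
        exact (hub' a ha' h1).2 ⟨j, hab.symm⟩
      · exact E.f_inj a b (inl_mem_units.2 ⟨ha', h1⟩) (inl_mem_units.2 ⟨hb', h2⟩) hab
  · intro a b h
    exact ⟨G'.base_mem a (E.M_mem a b h).1, E.M_base a b h⟩
  · intro a b h hk
    exact E.M_ker a b h ((hker a).2 hk)
  · intro h h1 _
    exact (E.φ_mem h h1 (inn_units h1)).1
  · intro h h1 _
    exact E.φ_base h h1 (inn_units h1)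
  · intro h h1 h' h1' _ _
    exact E.φ_inj h h1 h' h1' (inn_units h1) (inn_units h1')
  · intro w hw
    have h1 := E.rot_eq w (vt_units hw)
    rw [wd_of_cpl (cpl_units G u w), wd_of_cpl (cpl_units G' u' (f w)), filter_some] at h1
    have h2 := h1.map (fun o => o.getD d)
    rw [strip] at h2
    have h3 : (((G.rot w).map some).map (Option.map φ)).map (fun o => o.getD d) =
        (G.rot w).map φ := by
      rw [List.map_map, List.map_map]
      rfl
    rw [h3] at h2
    have h4 : (G'.rot (f w)).filter (fun a => decide (Ker G G.verts φ a)) =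
        (G'.rot (f w)).filter (fun a => decide (Kx G u (units G u) φ a)) := by
      refine List.filter_congr fun a _ => ?_
      rw [decide_eq_decide, hker]
    rw [h4]
    exact h2
  · intro x hx
    have h1 := E.nc x (vt_units hx)
    obtain ⟨KM, hKM⟩ : ∃ KM : H' → Prop, KM = fun a => Kx G u (units G u) φ a ∨ ∃ b, M a b :=
      ⟨_, rfl⟩
    rw [← hKM, wd_of_cpl (cpl_units G' u' x), filter_some] at h1
    have h2 := nc_strip d h1
    have h4 : (G'.rot x).filter (fun a => decide (Ker G G.verts φ a ∨ ∃ b, M a b)) =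
        (G'.rot x).filter (fun a => decide (KM a)) := by
      refine List.filter_congr fun a _ => ?_
      rw [decide_eq_decide, hKM]
      exact or_congr (hker a).symm Iff.rfl
    rw [h4]
    exact h2
  · intro h h1 _ _
    exact E.run_in h h1 (inn_units h1) (inn_units (G.opp_mem h h1))
  · intro h hh
    obtain ⟨h1, _, h3⟩ := mem_bd.1 hh
    exact absurd (G.base_mem _ (G.opp_mem h h1)) h3
  · have e1 : bd G G.verts = ∅ := by
      rw [Finset.eq_empty_iff_forall_notMem]
      intro h hh
      obtain ⟨h1, _, h3⟩ := mem_bd.1 hh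
      exact h3 (G.base_mem _ (G.opp_mem h h1))
    have e2 : bd G' G'.verts = ∅ := by
      rw [Finset.eq_empty_iff_forall_notMem]
      intro h hh
      obtain ⟨h1, _, h3⟩ := mem_bd.1 hh
      exact h3 (G'.base_mem _ (G'.opp_mem h h1))
    rw [e1, e2]
    simp [Set.BijOn, Set.SurjOn]

end RotWqo.Arc
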