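import Pool.Agent.Lib.MP_cb4a0f_co.Arc.Refl

/-!
# MP_cb4a0f_co, arc carvings, module (E): gluing along a sequence
-/

open Classical

namespace RotWqo.Arc

universe u v w

namespace Glue21

theorem compSeqX_bij {n : ℕ} {V : ℕ → Type u} {H : ℕ → Type v} (G : ∀ i, RotGraph (V i) (H i))
    (c : ∀ i, Fin n → V i) (A : ∀ i, Finset (V i ⊕ H i)) (β : ∀ m, H m → H (m + 1))
    (hβ : ∀ m, Set.BijOn (β m) (bdx (G m) (c m) (A m) : Set (H m))
      (bdx (G (m + 1)) (c (m + 1)) (A (m + 1)))) (m : ℕ) :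
    Set.BijOn (compSeq β m) (bdx (G 0) (c 0) (A 0) : Set (H 0)) (bdx (G m) (c m) (A m)) := by
  induction m with
  | zero => exact Set.bijOn_id _
  | succ m ih => exact (hβ m).comp ih

theorem exists_comp (hT : StTrans.{u, v}) {n : ℕ} {Q : Type w} (q : Q → Q → Prop) [IsPreorder Q q]
    (V : ℕ → Type u) (H : ℕ → Type v) (G : ∀ i, RotGraph (V i) (H i)) (c : ∀ i, Fin n → V i)
    (lab : ∀ i, V i → Q) (A : ∀ i, Finset (V i ⊕ H i)) (hA : ∀ i, A i ⊆ units (G i) (c i))
    (β : ∀ m, H m → H (m + 1))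
    (hβ : ∀ m, ∃ f φ M, PED (fun a b => q (lab m a) (lab (m + 1) b)) (G m) (c m) (A m)
      (G (m + 1)) (c (m + 1)) (A (m + 1)) (β m) f φ M) (m l : ℕ) (hml : m ≤ l) :
    ∃ γ : H m → H l, (∃ f φ M, PED (fun a b => q (lab m a) (lab l b)) (G m) (c m) (A m)
      (G l) (c l) (A l) γ f φ M) ∧ ∀ a, γ (compSeq β m a) = compSeq β l a := by
  induction l, hml using Nat.le_induction with
  | base =>
    exact ⟨id, ⟨id, id, fun _ _ => False,
      PED.refl (fun a b => q (lab m a) (lab m b)) (fun v => _root_.refl _) _ _ _⟩, fun a => rfl⟩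
  | succ l _ ih =>
    obtain ⟨γ, ⟨f, φ, M, h1⟩, h2⟩ := ih
    obtain ⟨f', φ', M', h3⟩ := hβ l
    obtain ⟨P, hP⟩ := hT n (V m) (V l) (V (l + 1)) (H m) (H l) (H (l + 1))
      (fun a b => q (lab m a) (lab l b)) (fun a b => q (lab l a) (lab (l + 1) b))
      (fun a b => q (lab m a) (lab (l + 1) b)) (fun a b d h h' => _root_.trans h h')
      (G m) (c m) (A m) (G l) (c l) (A l) (G (l + 1)) (c (l + 1)) (A (l + 1)) γ f φ M (β l) f' φ'
      M' (hA m) (hA l) (hA (l + 1)) h1 h3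
    refine ⟨β l ∘ γ, ⟨_, _, P, hP⟩, fun a => ?_⟩
    simp only [Function.comp_apply, h2, compSeq]

/-- Filtering by a disjunction, if the letters of the first kind come first. -/
theorem filter_or {α : Type*} (p q : α → Prop) (l : List α)
    (h1 : l.Pairwise (fun a b => ¬ (q a ∧ p b))) (h2 : ∀ a ∈ l, ¬ (p a ∧ q a)) :
    l.filter (fun a => decide (p a ∨ q a)) =
      l.filter (fun a => decide (p a)) ++ l.filter (fun a => decide (q a)) := by
  induction l with
  | nil => rfl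
  | cons x l ih =>
    rw [List.pairwise_cons] at h1
    have ih' := ih h1.2 (fun a ha => h2 a (List.mem_cons_of_mem _ ha))
    by_cases hp : p x
    · have hq : ¬ q x := fun hq => h2 x List.mem_cons_self ⟨hp, hq⟩
      rw [List.filter_cons_of_pos (by simp [hp]), List.filter_cons_of_pos (by simp [hp]),
        List.filter_cons_of_neg (by simp [hq]), ih', List.cons_append]
    · by_cases hq : q x
      · have h3 : l.filter (fun a => decide (p a)) = [] := by
          rw [List.filter_eq_nil_iff]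
          intro a ha
          rw [decide_eq_true_eq]
          exact fun h4 => h1.1 a ha ⟨hq, h4⟩
        rw [List.filter_cons_of_pos (by simp [hq]), List.filter_cons_of_neg (by simp [hp]),
          List.filter_cons_of_pos (by simp [hq]), ih', h3, List.nil_append, List.nil_append]
      · rw [List.filter_cons_of_neg (by simp [hp, hq]), List.filter_cons_of_neg (by simp [hp]),
          List.filter_cons_of_neg (by simp [hq]), ih']

theorem catl_of {V : Type u} {H : Type v} {n : ℕ} (G : RotGraph V H) (c : Fin n → V)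
    (X Y : Finset (V ⊕ H)) (hXY : Disjoint X Y) (i : Fin n)
    (h : (G.rot (c i)).Pairwise (fun a b => ¬ (inn G c Y a ∧ inn G c X b))) :
    catl G c X Y (c i) := by
  unfold catl lst
  have h1 := filter_or (inn G c X) (inn G c Y) (G.rot (c i)) h
    (fun a _ h2 => inn_disj hXY h2.1 h2.2)
  rw [← h1]
  refine List.filter_congr fun a _ => ?_
  rw [decide_eq_decide, inn_union]

theorem pairwise_of {V : Type u} {H : Type v} (G : RotGraph V H) (i : V)
    (R : H → H → Prop) (h : ∀ a ∈ G.rot i, ∀ b ∈ G.rot i,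
      (G.rot i).idxOf a < (G.rot i).idxOf b → R a b) : (G.rot i).Pairwise R := by
  rw [List.pairwise_iff_getElem]
  intro x y hx hy hxy
  refine h _ (List.getElem_mem hx) _ (List.getElem_mem hy) ?_
  rw [(G.nodup i).idxOf_getElem x hx, (G.nodup i).idxOf_getElem y hy]
  exact hxy

/-- Two disjoint convex pieces lie one behind the other. -/
theorem cat_or {V : Type u} {H : Type v} {n : ℕ} (G : RotGraph V H) (c : Fin n → V)
    (X Y : Finset (V ⊕ H)) (hXY : Disjoint X Y) (hX : Cv G c X) (hY : Cv G c Y) (i : Fin n) :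
    catl G c X Y (c i) ∨ catl G c Y X (c i) := by
  have hub : ∀ a ∈ G.rot (c i), ∀ Z : Finset (V ⊕ H), inn G c Z a ↔ Sum.inr a ∈ Z := by
    intro a ha Z
    exact inn_hub ⟨i, ((G.mem_rot _ _).1 ha).2.symm⟩
  by_cases hc : ∃ a ∈ G.rot (c i), ∃ b ∈ G.rot (c i),
      (G.rot (c i)).idxOf a < (G.rot (c i)).idxOf b ∧ inn G c Y a ∧ inn G c X b
  · right
    obtain ⟨a, ha, b, hb, hab, hya, hxb⟩ := hc
    apply catl_of G c Y X hXY.symm i
    refine pairwise_of G (c i) _ ?_
    rintro x hx y hy hxy ⟨hxx, hyy⟩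
    rw [hub _ ha] at hya
    rw [hub _ hb] at hxb
    rw [hub _ hx] at hxx
    rw [hub _ hy] at hyy
    rcases lt_trichotomy ((G.rot (c i)).idxOf x) ((G.rot (c i)).idxOf a) with h1 | h1 | h1
    · exact Finset.disjoint_left.1 hXY (hX i x hx a ha b hb h1 hab hxx hxb) hya
    · have h2 : x = a := (List.idxOf_inj hx).1 h1
      rw [h2] at hxx
      exact Finset.disjoint_left.1 hXY hxx hya
    · exact Finset.disjoint_left.1 hXY hxx (hY i a ha x hx y hy h1 hxy hya hyy)
  · left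
    apply catl_of G c X Y hXY i
    refine pairwise_of G (c i) _ ?_
    rintro x hx y hy hxy ⟨hxx, hyy⟩
    exact hc ⟨x, hx, y, hy, hxy, hxx, hyy⟩

theorem st_lt {V : Type u} {H : Type v} {n : ℕ} (G : RotGraph V H) (c : Fin n → V)
    (X : Finset (V ⊕ H)) (i : Fin n) : st G c X i < 3 := by
  unfold st
  split_ifs <;> omega

theorem st_two {V : Type u} {H : Type v} {n : ℕ} (G : RotGraph V H) (c : Fin n → V)
    (X : Finset (V ⊕ H)) (i : Fin n) : st G c X i = 2 ↔ cpl G c X (c i) := by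
  unfold st
  split_ifs with h1 h2
  · simp [h1]
  · simp [h1]
  · simp [h1]

end Glue21

open Glue21

/-- (E) -/
theorem stGlue_21 (hT : StTrans.{u, v}) (hU : StUnion.{u, v}) : StGlue.{u, v, w} := by
  intro n Q q _ V H G c lab L R hinj hLu hRu hLR hLc hRc hL hR
  choose β hβ using hL
  choose δ hδ using hR
  have hBL := compSeqX_bij G c L β (fun m => by
    obtain ⟨f, φ, M, h⟩ := hβ m
    exact h.β_bij)
  have hBR := compSeqX_bij G c R δ (fun m => by
    obtain ⟨f, φ, M, h⟩ := hδ m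
    exact h.β_bij)
  -- the gluing patterns
  set P : ℕ → Finset (H 0 × H 0) := fun m =>
    (bdx (G 0) (c 0) (L 0) ×ˢ bdx (G 0) (c 0) (R 0)).filter
      (fun p => (G m).opp (compSeq β m p.1) = compSeq δ m p.2) with hP
  have hPmem : ∀ m, P m ∈ (bdx (G 0) (c 0) (L 0) ×ˢ bdx (G 0) (c 0) (R 0)).powerset :=
    fun m => Finset.mem_powerset.2 (Finset.filter_subset _ _)
  obtain ⟨m, l, hml, hPml, hcat, hst⟩ : ∃ m l, m < l ∧ P m = P l ∧
      (∀ i, catl (G m) (c m) (L m) (R m) (c m i) ↔ catl (G l) (c l) (L l) (R l) (c l i)) ∧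
      ∀ i, st (G m) (c m) (L m ∪ R m) i = st (G l) (c l) (L l ∪ R l) i := by
    let F : ℕ → (↥((bdx (G 0) (c 0) (L 0) ×ˢ bdx (G 0) (c 0) (R 0)).powerset) ×
        (Fin n → Prop)) × (Fin n → Fin 3) := fun m =>
      ((⟨P m, hPmem m⟩, fun i => catl (G m) (c m) (L m) (R m) (c m i)),
        fun i => ⟨st (G m) (c m) (L m ∪ R m) i, st_lt _ _ _ _⟩)
    obtain ⟨x, y, hxy, hF⟩ := Finite.exists_ne_map_eq_of_infinite F
    have main : ∀ a b, F a = F b → P a = P b ∧
        (∀ i, catl (G a) (c a) (L a) (R a) (c a i) ↔ catl (G b) (c b) (L b) (R b) (c b i)) ∧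
        ∀ i, st (G a) (c a) (L a ∪ R a) i = st (G b) (c b) (L b ∪ R b) i := by
      intro a b hab
      have e1 := congrArg (fun p => p.1.1.1) hab
      have e2 := congrArg (fun p => p.1.2) hab
      have e3 := congrArg (fun p => p.2) hab
      refine ⟨e1, fun i => iff_of_eq (congrFun e2 i), fun i => ?_⟩
      exact congrArg Fin.val (congrFun e3 i)
    rcases lt_or_gt_of_ne hxy with h | h
    · exact ⟨x, y, h, main x y hF⟩
    · exact ⟨y, x, h, main y x hF.symm⟩
  refine ⟨m, l, hml, hst, ?_⟩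
  obtain ⟨γ, hγ, hγ'⟩ := Glue21.exists_comp hT q V H G c lab L hLu β hβ m l hml.le
  obtain ⟨η, hη, hη'⟩ := Glue21.exists_comp hT q V H G c lab R hRu δ hδ m l hml.le
  have key : ∀ a ∈ bdx (G 0) (c 0) (L 0), ∀ b ∈ bdx (G 0) (c 0) (R 0),
      ((G m).opp (compSeq β m a) = compSeq δ m b ↔
        (G l).opp (compSeq β l a) = compSeq δ l b) := by
    intro a ha b hb
    have h1 : (a, b) ∈ P m ↔ (G m).opp (compSeq β m a) = compSeq δ m b := by
      simp [hP, ha, hb]
    have h2 : (a, b) ∈ P l ↔ (G l).opp (compSeq β l a) = compSeq δ l b := by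
      simp [hP, ha, hb]
    rw [← h1, ← h2, hPml]
  have res := hU n (V m) (V l) (H m) (H l) (fun a b => q (lab m a) (lab l b))
    (G m) (c m) (L m) (R m) (G l) (c l) (L l) (R l) γ η (hinj m) (hinj l) (hLu m) (hRu m)
    (hLu l) (hRu l) (hLR m) (hLR l) hγ hη ?_ ?_ ?_ ?_ ?_
  · obtain ⟨f, φ, M, h⟩ := res
    exact ⟨_, f, φ, M, h⟩
  · intro h hh hR
    obtain ⟨a, ha, rfl⟩ := (hBL m).surjOn (Finset.mem_coe.2 hh)
    obtain ⟨h1, h2, h3⟩ := mem_bdx.1 hh
    have hb : (G m).opp (compSeq β m a) ∈ bdx (G m) (c m) (R m) := by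
      rw [mem_bdx, (G m).opp_opp _ h1]
      exact ⟨(G m).opp_mem _ h1, hR, fun h4 => inn_disj (hLR m) h2 h4⟩
    obtain ⟨b, hb, hb'⟩ := (hBR m).surjOn (Finset.mem_coe.2 hb)
    rw [← hb', hγ', hη']
    exact (key a (Finset.mem_coe.1 ha) b (Finset.mem_coe.1 hb)).1 hb'.symm
  · intro h hh hR hcon
    obtain ⟨a, ha, rfl⟩ := (hBL m).surjOn (Finset.mem_coe.2 hh)
    have h0 : compSeq β l a ∈ bdx (G l) (c l) (L l) := Finset.mem_coe.1 ((hBL l).mapsTo ha)
    obtain ⟨h1, h2, h3⟩ := mem_bdx.1 h0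
    rw [hγ'] at hcon
    have hb : (G l).opp (compSeq β l a) ∈ bdx (G l) (c l) (R l) := by
      rw [mem_bdx, (G l).opp_opp _ h1]
      exact ⟨(G l).opp_mem _ h1, hcon, fun h4 => inn_disj (hLR l) h2 h4⟩
    obtain ⟨b, hb, hb'⟩ := (hBR l).surjOn (Finset.mem_coe.2 hb)
    have h5 := (key a (Finset.mem_coe.1 ha) b (Finset.mem_coe.1 hb)).2 hb'.symm
    apply hR
    rw [h5]
    exact (mem_bdx.1 (Finset.mem_coe.1 ((hBR m).mapsTo hb))).2.1
  · intro h hh hL' hcon
    obtain ⟨b, hb, rfl⟩ := (hBR m).surjOn (Finset.mem_coe.2 hh)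
    have h0 : compSeq δ l b ∈ bdx (G l) (c l) (R l) := Finset.mem_coe.1 ((hBR l).mapsTo hb)
    obtain ⟨h1, h2, h3⟩ := mem_bdx.1 h0
    rw [hη'] at hcon
    have ha : (G l).opp (compSeq δ l b) ∈ bdx (G l) (c l) (L l) := by
      rw [mem_bdx, (G l).opp_opp _ h1]
      exact ⟨(G l).opp_mem _ h1, hcon, fun h4 => inn_disj (hLR l) h4 h2⟩
    obtain ⟨a, ha, ha'⟩ := (hBL l).surjOn (Finset.mem_coe.2 ha)
    have h5 : (G l).opp (compSeq β l a) = compSeq δ l b := by
      rw [ha', (G l).opp_opp _ h1]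
    have h6 := (key a (Finset.mem_coe.1 ha) b (Finset.mem_coe.1 hb)).2 h5
    apply hL'
    have h7 : compSeq β m a ∈ bdx (G m) (c m) (L m) := Finset.mem_coe.1 ((hBL m).mapsTo ha)
    rw [← h6, (G m).opp_opp _ (mem_bdx.1 h7).1]
    exact (mem_bdx.1 h7).2.1
  · intro i
    by_cases hc : catl (G m) (c m) (L m) (R m) (c m i)
    · exact Or.inl ⟨hc, (hcat i).1 hc⟩
    · have hc' : ¬ catl (G l) (c l) (L l) (R l) (c l i) := fun h => hc ((hcat i).2 h)
      refine Or.inr ⟨?_, ?_⟩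
      · exact (cat_or (G m) (c m) (L m) (R m) (hLR m) (hLc m) (hRc m) i).resolve_left hc
      · exact (cat_or (G l) (c l) (L l) (R l) (hLR l) (hLc l) (hRc l) i).resolve_left hc'
  · intro i
    rw [← st_two, ← st_two, hst i]

end RotWqo.Arc
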