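import Pool.Agent.Lib.MP_cb4a0f_co.Arc.Trans21

/-!
# MP_cb4a0f_co, arc carvings, modules (D1), (D2): pieces with one unit
-/

open Classical

namespace RotWqo.Arc

namespace Leaf21

variable {V H V' H' : Type*} {n : ℕ}

/-- The map of the vertices: hubs to hubs, everything else to `d`. -/
noncomputable def fh (u : Fin n → V) (u' : Fin n → V') (d : V') (w : V) : V' :=
  if h : ∃ i, u i = w then u' h.choose else d

theorem fh_hub {u : Fin n → V} (hu : Function.Injective u) (u' : Fin n → V') (d : V') (i : Fin n) :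
    fh u u' d (u i) = u' i := by
  unfold fh
  have h : ∃ j, u j = u i := ⟨i, rfl⟩
  rw [dif_pos h, hu h.choose_spec]

theorem fh_not {u : Fin n → V} (u' : Fin n → V') (d : V') {w : V} (hw : ¬ IsHub u w) :
    fh u u' d w = d := dif_neg hw

theorem inn_v {G : RotGraph V H} {u : Fin n → V} {v : V} (hv : ¬ IsHub u v) {h : H} :
    inn G u {Sum.inl v} h ↔ G.base h = v := by
  unfold inn
  constructor
  · rintro (⟨_, h2⟩ | ⟨_, h2⟩)
    · rw [Finset.mem_singleton] at h2
      cases h2
    · rw [Finset.mem_singleton] at h2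
      exact Sum.inl_injective h2
  · intro h1
    refine Or.inr ⟨h1 ▸ hv, ?_⟩
    rw [h1]
    exact Finset.mem_singleton_self _

theorem inn_h {G : RotGraph V H} {u : Fin n → V} {h : H} (hh : IsHub u (G.base h)) {x : H} :
    inn G u {Sum.inr h} x ↔ x = h := by
  unfold inn
  constructor
  · rintro (⟨_, h2⟩ | ⟨_, h2⟩)
    · rw [Finset.mem_singleton] at h2
      exact Sum.inr_injective h2
    · rw [Finset.mem_singleton] at h2
      cases h2
  · rintro rfl
    exact Or.inl ⟨hh, Finset.mem_singleton_self _⟩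

theorem lst_nil {G : RotGraph V H} {u : Fin n → V} {X : Finset (V ⊕ H)} {w : V}
    (h : ∀ x ∈ G.darts, G.base x = w → ¬ inn G u X x) : lst G u X w = [] := by
  rw [List.eq_nil_iff_forall_not_mem]
  intro x hx
  obtain ⟨h1, h2, h3⟩ := mem_lst.1 hx
  exact h x h1 h2 h3

theorem wd_nil {G : RotGraph V H} {u : Fin n → V} {X : Finset (V ⊕ H)} {w : V}
    (h : ∀ x ∈ G.darts, G.base x = w → ¬ inn G u X x) :
    wd G u X w = if cpl G u X w then [] else [none] := by
  unfold wd
  rw [lst_nil h, List.map_nil, List.append_nil]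

theorem filter_nil (p : H → Prop) (c : Prop) :
    ((if c then [] else [none] : List (Option H)).filter (fun a => decide (okO p a))) =
      if c then [] else [none] := by
  by_cases h : c
  · simp [h]
  · simp [h, okO]

theorem map_nil' (φ : H → H') (c : Prop) :
    ((if c then [] else [none] : List (Option H)).map (Option.map φ)) =
      if c then [] else [none] := by
  by_cases h : c
  · simp [h]
  · simp [h]

theorem lst_one {G : RotGraph V H} {u : Fin n → V} {h : H} (hd : h ∈ G.darts)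
    (hh : IsHub u (G.base h)) : lst G u {Sum.inr h} (G.base h) = [h] := by
  have hnd : (lst G u {Sum.inr h} (G.base h)).Nodup := (G.nodup _).filter _
  have hm : ∀ x, x ∈ lst G u {Sum.inr h} (G.base h) ↔ x = h := by
    intro x
    rw [mem_lst]
    constructor
    · rintro ⟨_, _, h3⟩
      exact (inn_h hh).1 h3
    · rintro rfl
      exact ⟨hd, rfl, (inn_h hh).2 rfl⟩
  rw [← List.perm_singleton]
  refine (List.perm_ext_iff_of_nodup hnd (List.nodup_singleton h)).2 fun x => ?_
  rw [hm, List.mem_singleton]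

end Leaf21

open Leaf21 Trans21

universe u v

/-- (D1) -/
theorem stLeafV_21 : StLeafV.{u, v} := by
  intro n k V V' H H' _ _ r G u G' u' v v' hu hu' _ _ hv hv' hrh hr hcpl hk hlen hpat
  set l := G.rot v with hl
  set l' := G'.rot v' with hl'
  have hnd : l.Nodup := G.nodup v
  have hnd' : l'.Nodup := G'.nodup v'
  set φ : H → H' := fun h => (l'[l.idxOf h]?).getD (Classical.arbitrary H') with hφ
  have hmap : l.map φ = l' := by
    refine List.ext_getElem (by simp [hlen]) fun i h1 h2 => ?_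
    have h3 : i < l.length := by simpa using h1
    simp [hφ, hnd.idxOf_getElem i h3, h2]
  have hget : ∀ (i : ℕ) (h1 : i < l.length) (h2 : i < l'.length), φ l[i] = l'[i] := by
    intro i h1 h2
    simp [hφ, hnd.idxOf_getElem i h1, h2]
  have hmem : ∀ h ∈ l, φ h ∈ l' := by
    intro h hh
    rw [← hmap]
    exact List.mem_map_of_mem hh
  have hdl : ∀ h, h ∈ l ↔ h ∈ G.darts ∧ G.base h = v := G.mem_rot v
  have hdl' : ∀ h, h ∈ l' ↔ h ∈ G'.darts ∧ G'.base h = v' := G'.mem_rot v'
  -- loops correspond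
  have key : ∀ h ∈ l, ∀ h' ∈ l, (G.opp h = h' ↔ G'.opp (φ h) = φ h') := by
    intro h hh h' hh'
    obtain ⟨i, hi, rfl⟩ := List.getElem_of_mem hh
    obtain ⟨j, hj, rfl⟩ := List.getElem_of_mem hh'
    have hi' : i < l'.length := hlen ▸ hi
    have hj' : j < l'.length := hlen ▸ hj
    have hik : i < k := lt_of_lt_of_le hi hk
    have hjk : j < k := lt_of_lt_of_le hj hk
    rw [hget i hi hi', hget j hj hj']
    have h1 : ((⟨⟨i, hik⟩, ⟨j, hjk⟩⟩ : Fin k × Fin k) ∈ pat k G v) ↔ G.opp l[i] = l[j] := by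
      simp [pat, ← hl, hi, hj, eq_comm]
    have h2 : ((⟨⟨i, hik⟩, ⟨j, hjk⟩⟩ : Fin k × Fin k) ∈ pat k G' v') ↔ G'.opp l'[i] = l'[j] := by
      simp [pat, ← hl', hi', hj', eq_comm]
    rw [← h1, ← h2, hpat]
  have hinj : ∀ h ∈ l, ∀ h' ∈ l, φ h = φ h' → h = h' := by
    intro h hh h' hh' heq
    obtain ⟨i, hi, rfl⟩ := List.getElem_of_mem hh
    obtain ⟨j, hj, rfl⟩ := List.getElem_of_mem hh'
    have hi' : i < l'.length := hlen ▸ hi
    have hj' : j < l'.length := hlen ▸ hj
    rw [hget i hi hi', hget j hj hj'] at heq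
    have := (hnd'.getElem_inj_iff).1 heq
    subst this; rfl
  have hker : ∀ a, Kx G u {Sum.inl v} φ a ↔ a ∈ l' := by
    intro a
    rw [← hmap, List.mem_map]
    constructor
    · rintro ⟨h, h1, h2, rfl⟩
      exact ⟨h, (hdl h).2 ⟨h1, (inn_v hv).1 h2⟩, rfl⟩
    · rintro ⟨h, h1, rfl⟩
      exact ⟨h, ((hdl h).1 h1).1, (inn_v hv).2 ((hdl h).1 h1).2, rfl⟩
  have hbd : ∀ h, h ∈ bdx G u {Sum.inl v} ↔ h ∈ l ∧ G.opp h ∉ l := by
    intro h
    rw [mem_bdx, hdl, hdl, inn_v hv, inn_v hv]
    constructor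
    · rintro ⟨h1, h2, h3⟩
      exact ⟨⟨h1, h2⟩, fun h4 => h3 h4.2⟩
    · rintro ⟨⟨h1, h2⟩, h3⟩
      exact ⟨h1, h2, fun h4 => h3 ⟨G.opp_mem h h1, h4⟩⟩
  have hbd' : ∀ h, h ∈ bdx G' u' {Sum.inl v'} ↔ h ∈ l' ∧ G'.opp h ∉ l' := by
    intro h
    rw [mem_bdx, hdl', hdl', inn_v hv', inn_v hv']
    constructor
    · rintro ⟨h1, h2, h3⟩
      exact ⟨⟨h1, h2⟩, fun h4 => h3 h4.2⟩
    · rintro ⟨⟨h1, h2⟩, h3⟩
      exact ⟨h1, h2, fun h4 => h3 ⟨G'.opp_mem h h1, h4⟩⟩
  have hfv : fh u u' v' v = v' := fh_not u' v' hv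
  refine ⟨φ, fh u u' v', φ, fun _ _ => False, ?_⟩
  refine ⟨fh_hub hu u' v', ?_, ?_, ?_, fun _ _ h => h, fun _ _ _ h => h.elim,
    fun _ _ h => h.elim, fun _ _ h => h.elim, fun _ _ h => h.elim, ?_, ?_, ?_, ?_, ?_, ?_, ?_, ?_⟩
  · intro w hw
    rw [Finset.mem_singleton] at hw
    have hw' : w = v := Sum.inl_injective hw
    rw [hw', hfv]
    exact Finset.mem_singleton_self _
  · rintro w (⟨i, rfl⟩ | hw)
    · rw [fh_hub hu]
      exact hrh i
    · rw [Finset.mem_singleton] at hw
      have hw' : w = v := Sum.inl_injective hw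
      rw [hw', hfv]
      exact hr
  · intro a b ha hb _
    rw [Finset.mem_singleton] at ha hb
    exact (Sum.inl_injective ha).trans (Sum.inl_injective hb).symm
  · intro h h1 h2
    have h3 := (hdl' _).1 (hmem h ((hdl h).2 ⟨h1, (inn_v hv).1 h2⟩))
    exact ⟨h3.1, (inn_v hv').2 h3.2⟩
  · intro h h1 h2
    have h4 := (inn_v hv).1 h2
    have h3 := (hdl' _).1 (hmem h ((hdl h).2 ⟨h1, h4⟩))
    rw [h3.2, h4, hfv]
  · intro h h1 h' h1' h2 h2'
    exact hinj h ((hdl h).2 ⟨h1, (inn_v hv).1 h2⟩) h' ((hdl h').2 ⟨h1', (inn_v hv).1 h2'⟩)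
  · rintro w (⟨i, rfl⟩ | hw)
    · rw [fh_hub hu]
      have e1 : ∀ x ∈ G.darts, G.base x = u i → ¬ inn G u {Sum.inl v} x := by
        intro x _ h2 h3
        exact hv ⟨i, h2.symm.trans ((inn_v hv).1 h3)⟩
      have e2 : ∀ x ∈ G'.darts, G'.base x = u' i → ¬ inn G' u' {Sum.inl v'} x := by
        intro x _ h2 h3
        exact hv' ⟨i, h2.symm.trans ((inn_v hv').1 h3)⟩
      rw [wd_nil e1, wd_nil e2, filter_nil, map_nil']
      by_cases hc : cpl G u {Sum.inl v} (u i)
      · rw [if_pos hc, if_pos ((hcpl i).1 hc)]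
      · rw [if_neg hc, if_neg (fun h => hc ((hcpl i).2 h))]
    · rw [Finset.mem_singleton] at hw
      have hw' : w = v := Sum.inl_injective hw
      subst hw'
      have c1 : cpl G u {Sum.inl w} w := cpl_of_mem hv (Finset.mem_singleton_self _)
      have c2 : cpl G' u' {Sum.inl v'} v' := cpl_of_mem hv' (Finset.mem_singleton_self _)
      rw [hfv, wd_of_cpl c1, wd_of_cpl c2, ← hl, ← hl', List.map_map]
      have e : (Option.map φ ∘ some : H → Option H') = some ∘ φ := rfl
      rw [e, ← List.map_map, hmap, List.filter_eq_self.2]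
      intro a ha
      obtain ⟨b, hb, rfl⟩ := List.mem_map.1 ha
      rw [decide_eq_true_eq]
      exact (hker b).2 hb
  · intro x _
    refine .done _ ?_
    rintro a _ b ⟨_, _, _, _, h⟩
    exact h
  · intro h h1 h2 h3
    refine ⟨φ h, .refl _, ?_⟩
    have h4 : h ∈ l := (hdl h).2 ⟨h1, (inn_v hv).1 h2⟩
    have h5 : G.opp h ∈ l := (hdl _).2 ⟨G.opp_mem h h1, (inn_v hv).1 h3⟩
    exact (key h h4 _ h5).1 rfl
  · intro h _
    exact .refl _
  · refine ⟨?_, ?_, ?_⟩
    · intro h hh
      have hh' := (hbd h).1 (Finset.mem_coe.1 hh)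
      refine Finset.mem_coe.2 ((hbd' _).2 ⟨hmem h hh'.1, fun h3 => hh'.2 ?_⟩)
      rw [← hmap, List.mem_map] at h3
      obtain ⟨b, hb, hb'⟩ := h3
      rw [(key h hh'.1 b hb).2 hb'.symm]
      exact hb
    · intro h hh h' hh' heq
      exact hinj h ((hbd h).1 (Finset.mem_coe.1 hh)).1 h' ((hbd h').1 (Finset.mem_coe.1 hh')).1 heq
    · intro y hy
      have hy' := (hbd' y).1 (Finset.mem_coe.1 hy)
      have h3 := hy'.1
      rw [← hmap, List.mem_map] at h3
      obtain ⟨h, hh, rfl⟩ := h3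
      refine ⟨h, Finset.mem_coe.2 ((hbd h).2 ⟨hh, fun h4 => hy'.2 ?_⟩), rfl⟩
      rw [(key h hh _ h4).1 rfl]
      exact hmem _ h4

/-- (D2) -/
theorem stLeafH_21 : StLeafH.{u, v} := by
  intro n V V' H H' _ r G u G' u' j h h' hu hu' hd hd' hb hb' hrh hcpl
  have hh : IsHub u (G.base h) := ⟨j, hb.symm⟩
  have hh' : IsHub u' (G'.base h') := ⟨j, hb'.symm⟩
  set d : V' := Classical.arbitrary V' with hdd
  set φ : H → H' := fun _ => h' with hφ
  have hker : ∀ a, Kx G u {Sum.inr h} φ a ↔ a = h' := by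
    intro a
    constructor
    · rintro ⟨x, _, _, rfl⟩
      rfl
    · rintro rfl
      exact ⟨h, hd, (inn_h hh).2 rfl, rfl⟩
  refine ⟨φ, fh u u' d, φ, fun _ _ => False, ?_⟩
  refine ⟨fh_hub hu u' d, ?_, ?_, ?_, fun _ _ h => h, fun _ _ _ h => h.elim,
    fun _ _ h => h.elim, fun _ _ h => h.elim, fun _ _ h => h.elim, ?_, ?_, ?_, ?_, ?_, ?_, ?_, ?_⟩
  · intro w hw
    rw [Finset.mem_singleton] at hw
    cases hw
  · rintro w (⟨i, rfl⟩ | hw)
    · rw [fh_hub hu]
      exact hrh i
    · rw [Finset.mem_singleton] at hw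
      cases hw
  · intro a b ha _ _
    rw [Finset.mem_singleton] at ha
    cases ha
  · intro x _ _
    exact ⟨hd', (inn_h hh').2 rfl⟩
  · intro x _ h2
    have h3 := (inn_h hh).1 h2
    rw [h3, hb, fh_hub hu]
    exact hb'
  · intro x _ y _ h2 h2' _
    exact ((inn_h hh).1 h2).trans ((inn_h hh).1 h2').symm
  · rintro w (⟨i, rfl⟩ | hw)
    · rw [fh_hub hu]
      by_cases hij : i = j
      · subst hij
        have e1 : lst G u {Sum.inr h} (u i) = [h] := by
          rw [← hb]
          exact lst_one hd hh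
        have e2 : lst G' u' {Sum.inr h'} (u' i) = [h'] := by
          rw [← hb']
          exact lst_one hd' hh'
        unfold wd
        rw [e1, e2, List.filter_append, filter_nil, List.map_append, map_nil']
        have e3 : (List.map some [h']).filter
            (fun a => decide (okO (Kx G u {Sum.inr h} φ) a)) = List.map some [h'] := by
          rw [List.filter_eq_self]
          intro a ha
          obtain ⟨b, hb2, rfl⟩ := List.mem_map.1 ha
          rw [decide_eq_true_eq]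
          exact (hker b).2 (List.mem_singleton.1 hb2)
        rw [e3]
        by_cases hc : cpl G u {Sum.inr h} (u i)
        · rw [if_pos hc, if_pos ((hcpl i).1 hc)]
          exact List.IsRotated.refl _
        · rw [if_neg hc, if_neg (fun h => hc ((hcpl i).2 h))]
          exact List.IsRotated.refl _
      · have e1 : ∀ x ∈ G.darts, G.base x = u i → ¬ inn G u {Sum.inr h} x := by
          intro x _ h2 h3
          rw [(inn_h hh).1 h3, hb] at h2
          exact hij (hu h2).symm
        have e2 : ∀ x ∈ G'.darts, G'.base x = u' i → ¬ inn G' u' {Sum.inr h'} x := by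
          intro x _ h2 h3
          rw [(inn_h hh').1 h3, hb'] at h2
          exact hij (hu' h2).symm
        rw [wd_nil e1, wd_nil e2, filter_nil, map_nil']
        by_cases hc : cpl G u {Sum.inr h} (u i)
        · rw [if_pos hc, if_pos ((hcpl i).1 hc)]
        · rw [if_neg hc, if_neg (fun h => hc ((hcpl i).2 h))]
    · rw [Finset.mem_singleton] at hw
      cases hw
  · intro x _
    refine .done _ ?_
    rintro a _ b ⟨_, _, _, _, h⟩
    exact h
  · intro x h1 h2 h3
    have h4 := (inn_h hh).1 h2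
    have h5 := (inn_h hh).1 h3
    rw [h4] at h5
    exact absurd h5 (G.opp_ne h hd)
  · intro x _
    exact .refl _
  · have b1 : ∀ x, x ∈ bdx G u {Sum.inr h} ↔ x = h := by
      intro x
      rw [mem_bdx, inn_h hh, inn_h hh]
      constructor
      · rintro ⟨_, h2, _⟩
        exact h2
      · rintro rfl
        exact ⟨hd, rfl, G.opp_ne x hd⟩
    have b2 : ∀ x, x ∈ bdx G' u' {Sum.inr h'} ↔ x = h' := by
      intro x
      rw [mem_bdx, inn_h hh', inn_h hh']
      constructor
      · rintro ⟨_, h2, _⟩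
        exact h2
      · rintro rfl
        exact ⟨hd', rfl, G'.opp_ne x hd'⟩
    refine ⟨?_, ?_, ?_⟩
    · intro x _
      exact Finset.mem_coe.2 ((b2 _).2 rfl)
    · intro x hx y hy _
      exact ((b1 x).1 (Finset.mem_coe.1 hx)).trans ((b1 y).1 (Finset.mem_coe.1 hy)).symm
    · intro y hy
      exact ⟨h, Finset.mem_coe.2 ((b1 h).2 rfl), ((b2 y).1 (Finset.mem_coe.1 hy)).symm⟩

end RotWqo.Arc
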