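import Pool.Agent.Lib.MP_cb4a0f_co.Arc.Stmts

/-!
# MP_cb4a0f_co, arc carvings: linear and cyclic noncrossing words
-/

open Classical

namespace RotWqo.Arc

universe v

namespace NC22

variable {H : Type v} {M : H → H → Prop}

theorem append {l l' : List H} (h : NCL M l) (h' : NCL M l') : NCL M (l ++ l') := by
  induction h with
  | done l hl =>
    induction h' with
    | done l' hl' =>
      refine NCL.done _ fun a ha b => ?_
      rcases List.mem_append.1 ha with h1 | h1
      · exact hl a h1 b
      · exact hl' a h1 b
    | pair l₁ a b l₂ hab _ ih =>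
      rw [← List.append_assoc]
      refine NCL.pair _ _ _ _ hab ?_
      rw [List.append_assoc]
      exact ih
  | pair l₁ a b l₂ hab _ ih =>
    rw [List.append_assoc] at ih
    rw [List.append_assoc, List.cons_append, List.cons_append]
    exact NCL.pair _ _ _ _ hab ih

theorem weaken {M' : H → H → Prop} {l : List H} (h : NCL M' l) (hM : ∀ a b, M' a b → M a b)
    (hl : ∀ a ∈ l, ∀ b, M a b → ∃ c, M' a c) : NCL M l := by
  induction h with
  | done l h1 =>
    refine NCL.done _ fun a ha b hab => ?_
    obtain ⟨c, hc⟩ := hl a ha b hab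
    exact h1 a ha c hc
  | pair l₁ a b l₂ hab _ ih =>
    refine NCL.pair _ _ _ _ (hM a b hab) (ih fun c hc => hl c ?_)
    rcases List.mem_append.1 hc with h1 | h1
    · exact List.mem_append_left _ h1
    · exact List.mem_append_right _ (List.mem_cons_of_mem _ (List.mem_cons_of_mem _ h1))

theorem lift_some {x y : H} : liftO M (some x) (some y) ↔ M x y := by
  unfold liftO
  constructor
  · rintro ⟨a, b, h1, h2, h3⟩
    cases h1
    cases h2
    exact h3
  · intro h
    exact ⟨x, y, rfl, rfl, h⟩

theorem toNC {l : List H} (h : NCL M l) : NC (liftO M) (l.map some) := by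
  induction h with
  | done l h1 =>
    refine NC.done _ fun a ha b => ?_
    rintro ⟨x, y, rfl, rfl, h2⟩
    obtain ⟨z, hz, hz2⟩ := List.mem_map.1 ha
    cases hz2
    exact h1 _ hz _ h2
  | pair l₁ a b l₂ hab _ ih =>
    have h1 : (l₁ ++ a :: b :: l₂).map some ~r
        some a :: some b :: (l₂.map some ++ l₁.map some) := by
      rw [List.map_append, List.map_cons, List.map_cons]
      have h2 := @List.isRotated_append _ (l₁.map some) (some a :: some b :: l₂.map some)
      simpa using h2
    refine NC.pair _ _ _ _ h1 (lift_some.2 hab) (ih.of_isRotated ?_)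
    rw [List.map_append]
    exact List.isRotated_append

theorem toNC0 {l : List H} (h : NCL M l) : NC (liftO M) (none :: l.map some) := by
  induction h with
  | done l h1 =>
    refine NC.done _ fun a ha b => ?_
    rintro ⟨x, y, rfl, rfl, h2⟩
    rcases List.mem_cons.1 ha with h3 | h3
    · cases h3
    · obtain ⟨z, hz, hz2⟩ := List.mem_map.1 h3
      cases hz2
      exact h1 _ hz _ h2
  | pair l₁ a b l₂ hab _ ih =>
    have h1 : none :: (l₁ ++ a :: b :: l₂).map some ~r
        some a :: some b :: (l₂.map some ++ none :: l₁.map some) := by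
      rw [List.map_append, List.map_cons, List.map_cons]
      have h2 := @List.isRotated_append _ (none :: l₁.map some) (some a :: some b :: l₂.map some)
      simpa using h2
    refine NC.pair _ _ _ _ h1 (lift_some.2 hab) (ih.of_isRotated ?_)
    rw [List.map_append, ← List.cons_append]
    exact List.isRotated_append

/-- a rotation of a list is the exchange of two parts -/
theorem split {α : Type v} {l l' : List α} (h : l ~r l') : ∃ p q, l = p ++ q ∧ l' = q ++ p := by
  obtain ⟨n, hn, h2⟩ := List.isRotated_iff_mod.1 h
  rw [List.rotate_eq_drop_append_take hn] at h2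
  exact ⟨l.take n, l.drop n, (List.take_append_drop n l).symm, h2.symm⟩

theorem fromNC {w : List (Option H)} (h : NC (liftO M) w) :
    ∀ l : List H, none :: l.map some ~r w → NCL M l := by
  induction h with
  | done w h1 =>
    intro l hl
    refine NCL.done _ fun a ha b hab => ?_
    exact h1 (some a) (hl.mem_iff.1 (List.mem_cons_of_mem _ (List.mem_map_of_mem ha))) (some b)
      (lift_some.2 hab)
  | pair w a b w' hr hab _ ih =>
    intro l hl
    obtain ⟨x, y, rfl, rfl, hxy⟩ := hab
    obtain ⟨p, q, h1, h2⟩ := split (hl.trans hr)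
    rcases p with _ | ⟨c, p⟩
    · rw [List.nil_append] at h1
      rw [List.append_nil, ← h1] at h2
      cases h2
    · rw [List.cons_append, List.cons.injEq] at h1
      obtain ⟨rfl, h1⟩ := h1
      rcases q with _ | ⟨c, q⟩
      · cases h2
      · rcases q with _ | ⟨d, q⟩
        · cases h2
        · rw [List.cons_append, List.cons_append, List.cons.injEq, List.cons.injEq] at h2
          obtain ⟨rfl, rfl, rfl⟩ := h2
          obtain ⟨l₁, l₂, rfl, h3, h4⟩ := List.map_eq_append_iff.1 h1
          obtain ⟨c, l₃, rfl, h5, h6⟩ := List.map_eq_cons_iff.1 h4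
          obtain ⟨d, l₄, rfl, h7, h8⟩ := List.map_eq_cons_iff.1 h6
          cases h5
          cases h7
          refine NCL.pair _ _ _ _ hxy (ih _ ?_)
          rw [← h3, ← h8, List.map_append, ← List.cons_append]
          exact List.isRotated_append

theorem wrap {l : List H} (h : NCL M l) (hl : ∀ a ∈ l, ∃ b, M a b) {a b : H} (hba : M b a) :
    NCL M (b :: (l ++ [a])) := by
  induction h with
  | done l h1 =>
    rcases l with _ | ⟨c, l⟩
    · exact NCL.pair [] b a [] hba (NCL.done _ fun c hc => by cases hc)
    · obtain ⟨d, hd⟩ := hl c List.mem_cons_self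
      exact absurd hd (h1 c List.mem_cons_self d)
  | pair l₁ c d l₂ hcd _ ih =>
    have h1 := ih fun x hx => hl x (by
      rcases List.mem_append.1 hx with h1 | h1
      · exact List.mem_append_left _ h1
      · exact List.mem_append_right _ (List.mem_cons_of_mem _ (List.mem_cons_of_mem _ h1)))
    rw [List.append_assoc, ← List.cons_append] at h1
    rw [List.append_assoc, List.cons_append, List.cons_append, ← List.cons_append]
    exact NCL.pair _ _ _ _ hcd h1

theorem all {l : List H} (hs : ∀ a b, M a b → M b a) (h : NC M l) :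
    (∀ a ∈ l, ∃ b, M a b) → ∀ l₂, l ~r l₂ → NCL M l₂ := by
  induction h with
  | done l h1 =>
    intro hl l₂ h2
    rcases l with _ | ⟨c, l⟩
    · rw [← List.isRotated_nil_iff'.1 h2]
      exact NCL.done _ fun c hc => by cases hc
    · obtain ⟨d, hd⟩ := hl c List.mem_cons_self
      exact absurd hd (h1 c List.mem_cons_self d)
  | pair l a b l' hr hab _ ih =>
    intro hl l₂ h2
    have hl' : ∀ c ∈ l', ∃ d, M c d := fun c hc => hl c (hr.mem_iff.2
      (List.mem_cons_of_mem _ (List.mem_cons_of_mem _ hc)))
    have ih' := ih hl'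
    obtain ⟨p, q, h3, rfl⟩ := split (hr.symm.trans h2)
    rcases p with _ | ⟨c, p⟩
    · rw [List.nil_append] at h3
      rw [List.append_nil, ← h3]
      exact NCL.pair [] a b l' hab (ih' _ (List.IsRotated.refl _))
    · rw [List.cons_append, List.cons.injEq] at h3
      obtain ⟨rfl, h3⟩ := h3
      rcases p with _ | ⟨d, p⟩
      · rw [List.nil_append] at h3
        rw [← h3, List.cons_append]
        exact wrap (ih' _ (List.IsRotated.refl _)) hl' (hs _ _ hab)
      · rw [List.cons_append, List.cons.injEq] at h3
        obtain ⟨rfl, rfl⟩ := h3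
        exact NCL.pair _ _ _ _ hab (ih' _ List.isRotated_append)

end NC22

/-- (A) -/
theorem stNC_22 : StNC.{v} := by
  intro H M hs
  refine ⟨fun l => ⟨fun h => NC22.fromNC h l (List.IsRotated.refl _), NC22.toNC0⟩,
    fun l => NC22.toNC, fun l l' => NC22.append, fun l h hl => NC22.all hs h hl l
      (List.IsRotated.refl _), fun M' l h hM hl => NC22.weaken h hM hl⟩

end RotWqo.Arc
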