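import Pool.Agent.Lib.MP_cb4a0f_co.Arc.Stmts
import Pool.Agent.Lib.MP_cb4a0f_co.Arc.NC22

/-!
# MP_cb4a0f_co, arc carvings: linked pieces (module F)

The graph is contracted: the half-edges of `A` have the end `a`, the half-edges outside `B` the end
`o`; a hub is split in the part before and the part after the half-edges of `A`.
-/

open Classical

namespace RotWqo.Arc.L94

universe u v

section Link

variable {V H : Type*}

/-- Linked pieces embed, by the identity maps (`exists_link` of the file Link, with the maps kept). -/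
theorem exists_link_id (r : V → V → Prop) (hr : ∀ v, r v v) (G : RotGraph V H)
    (A B : Finset V) (hAB : A ⊆ B) (m : ℕ) (hA : cut G A = m)
    (hBm : cut G B = m) (hX : ∀ X : Finset V, A ⊆ X → X ⊆ B → m ≤ cut G X) :
    ∃ β M, PEData r G A G B β id id M := by
  classical
  obtain ⟨U, S⟩ := exists_lkSys G A B hAB m hA hBm hX
  obtain ⟨M, m1, m2, m3, m4, m5⟩ := S.exists_turn
  have hMU : ∀ a b, M a b → b ∈ U := fun a b h => (m3 a b h).2.1
  -- the next half-edge
  have hnext : ∀ a, LkF G A B m U a → G.base (G.opp a) ∈ B → G.base (G.opp a) ∉ A →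
      ∃ b, M (G.opp a) b ∧ LkF G A B m U b ∧ G.base b = G.base (G.opp a) := by
    intro a ha h1 h2
    obtain ⟨b, hb⟩ := m4 (G.opp a) (S.opp_mem a ha.1) h1 h2
    obtain ⟨-, -, -, -, h3, h4⟩ := m3 _ _ hb
    refine ⟨b, hb, ?_, h3⟩
    by_contra hcon
    exact S.not_both ha (h4.2 hcon)
  -- every run starting at the boundary of `A` comes to the boundary of `B`
  have hend : ∀ h ∈ bd G A, ∃ y ∈ bd G B, Run G.opp M h y := by
    intro a0 ha0
    by_contra hcon
    push Not at hcon
    have hb0 : a0 ∈ G.darts ∧ G.base a0 ∈ A ∧ G.base (G.opp a0) ∉ A := by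
      simpa [bd] using ha0
    set R : Finset H := U.filter (fun y => Run G.opp M a0 y ∧ LkF G A B m U y ∧
      G.base y ∈ B ∧ G.base (G.opp y) ∉ A) with hR
    have ha0R : a0 ∈ R := by
      rw [hR, Finset.mem_filter]
      exact ⟨S.bdA ha0, Run.refl _, ⟨S.bdA ha0, A, S.tgA, hb0.2.1, hb0.2.2⟩, hAB hb0.2.1,
        hb0.2.2⟩
    have hstep : ∀ y ∈ R, ∃ z ∈ R.erase a0, M (G.opp y) z := by
      intro y hy
      rw [hR, Finset.mem_filter] at hy
      obtain ⟨hyU, hrun, hF, hyB, hyA⟩ := hy
      have h1 : G.base (G.opp y) ∈ B := by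
        by_contra h
        refine hcon y ?_ hrun
        rw [bd, Finset.mem_filter]
        exact ⟨S.sub hyU, hyB, h⟩
      obtain ⟨z, hz1, hz2, hz3⟩ := hnext y hF h1 hyA
      have hzA : G.base z ∉ A := by rw [hz3]; exact hyA
      refine ⟨z, ?_, hz1⟩
      rw [Finset.mem_erase, hR, Finset.mem_filter]
      refine ⟨?_, hMU _ _ hz1, hrun.snoc hz1, hz2, by rw [hz3]; exact h1, ?_⟩
      · rintro rfl
        exact hzA hb0.2.1
      · intro h
        exact hzA (S.enter hz2 S.tgA h)
    choose! nx hnx1 hnx2 using hstep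
    have hle : R.card ≤ (R.erase a0).card := by
      refine Finset.card_le_card_of_injOn nx hnx1 ?_
      intro y hy y' hy' he
      have h1 := hnx2 y hy
      have h2 := hnx2 y' hy'
      have he' : nx y = nx y' := he
      rw [he'] at h1
      have h3 : G.opp y = G.opp y' := m2 _ _ _ (m1 _ _ h1) (m1 _ _ h2)
      have hyd : y ∈ G.darts := S.sub (Finset.mem_filter.1 (Finset.mem_coe.1 hy)).1
      have hyd' : y' ∈ G.darts := S.sub (Finset.mem_filter.1 (Finset.mem_coe.1 hy')).1
      rw [← G.opp_opp y hyd, h3, G.opp_opp y' hyd']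
    have hlt := Finset.card_erase_lt_of_mem ha0R
    omega
  choose! β hβ1 hβ2 using hend
  have hinj : Set.InjOn β (bd G A : Set H) := by
    intro a ha a' ha' he
    have hba : a ∈ G.darts ∧ G.base a ∈ A ∧ G.base (G.opp a) ∉ A := by
      simpa [bd] using ha
    have hba' : a' ∈ G.darts ∧ G.base a' ∈ A ∧ G.base (G.opp a') ∉ A := by
      simpa [bd] using ha'
    have h1 := hβ2 a ha
    have h2 := hβ2 a' ha'
    rw [← he] at h2
    have hMd : ∀ a b, M a b → b ∈ G.darts := fun a b h => S.sub (hMU a b h)
    rcases h1.compare G.opp_opp m1 m2 hMd hba.1 a' hba'.1 h2 with h3 | h3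
    · rcases h3.tail with h4 | ⟨w, -, h4⟩
      · exact h4
      · obtain ⟨-, -, -, h5, h6, -⟩ := m3 _ _ h4
        rw [← h6] at h5
        exact absurd hba'.2.1 h5
    · rcases h3.tail with h4 | ⟨w, -, h4⟩
      · exact h4.symm
      · obtain ⟨-, -, -, h5, h6, -⟩ := m3 _ _ h4
        rw [← h6] at h5
        exact absurd hba.2.1 h5
  have himg : (bd G A).image β = bd G B := by
    refine Finset.eq_of_subset_of_card_le ?_ ?_
    · intro y hy
      obtain ⟨a, ha, rfl⟩ := Finset.mem_image.1 hy
      exact hβ1 a ha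
    · rw [Finset.card_image_of_injOn hinj]
      exact le_of_eq (hBm.trans hA.symm)
  have hKer : ∀ a, Ker G A (id : H → H) a ↔ a ∈ G.darts ∧ G.base a ∈ A := by
    intro a
    constructor
    · rintro ⟨h, h1, h2, rfl⟩
      exact ⟨h1, h2⟩
    · rintro ⟨h1, h2⟩
      exact ⟨a, h1, h2, rfl⟩
  refine ⟨β, M, ?_⟩
  refine
    { f_mem := fun v hv => hAB hv
      f_rel := fun v _ => hr v
      f_inj := fun _ _ _ _ h => h
      M_symm := m1
      M_fun := m2
      M_mem := fun a b h => S.sub (m3 a b h).1
      M_base := fun a b h => ⟨(m3 a b h).2.2.1, (m3 a b h).2.2.2.2.1⟩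
      M_ker := fun a b h hk => (m3 a b h).2.2.2.1 ((hKer a).1 hk).2
      φ_mem := fun h hh _ => hh
      φ_base := fun _ _ _ => rfl
      φ_inj := fun _ _ _ _ _ _ h => h
      rot_eq := ?_
      nc := ?_
      run_in := fun h _ _ _ => ⟨h, Run.refl h, rfl⟩
      run_out := fun h hh => hβ2 h hh
      β_bij := ?_ }
  · intro v hv
    have : (G.rot v).filter (fun a => Ker G A (id : H → H) a) = G.rot v := by
      rw [List.filter_eq_self]
      intro a ha
      rw [G.mem_rot] at ha
      simp only [decide_eq_true_eq]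
      exact (hKer a).2 ⟨ha.1, by rw [ha.2]; exact hv⟩
    rw [List.map_id]
    exact (congrArg (· ~r G.rot v) this).mpr (List.IsRotated.refl _)
  · intro x hx
    by_cases hxA : x ∈ A
    · refine NC.done _ ?_
      intro a ha b hab
      rw [List.mem_filter, G.mem_rot] at ha
      have := (m3 a b hab).2.2.2.1
      rw [ha.1.2] at this
      exact this hxA
    · have : (G.rot x).filter (fun a => Ker G A (id : H → H) a ∨ ∃ b, M a b) =
          (G.rot x).filter (fun a => a ∈ U) := by
        refine List.filter_congr ?_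
        intro a ha
        rw [G.mem_rot] at ha
        rw [decide_eq_decide, hKer a]
        constructor
        · rintro (⟨-, h⟩ | ⟨b, hb⟩)
          · rw [ha.2] at h
            exact absurd h hxA
          · exact (m3 a b hb).1
        · intro h
          exact Or.inr (m4 a h (by rw [ha.2]; exact hx) (by rw [ha.2]; exact hxA))
      rw [this]
      exact m5 x hx hxA
  · refine ⟨fun a ha => hβ1 a ha, hinj, ?_⟩
    intro y hy
    have : y ∈ (bd G A).image β := by rw [himg]; exact hy
    obtain ⟨a, ha, rfl⟩ := Finset.mem_image.1 this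
    exact ⟨a, ha, rfl⟩

end Link

/-! ## Lists -/

theorem filter_split {α : Type*} (p q r : α → Prop) (hr : ∀ a, r a ↔ p a ∨ q a)
    (hd : ∀ a, p a → q a → False) : ∀ l : List α, l.Pairwise (fun a b => ¬ (q a ∧ p b)) →
    l.filter (fun a => decide (r a)) = l.filter (fun a => decide (p a)) ++
      l.filter (fun a => decide (q a)) := by
  intro l
  induction l with
  | nil => intro _; rfl
  | cons a t ih =>
    intro h
    rw [List.pairwise_cons] at h
    obtain ⟨h1, h2⟩ := h
    have h3 := ih h2
    by_cases ha : p a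
    · have hb : ¬ q a := fun hb => hd a ha hb
      have hc : r a := (hr a).2 (Or.inl ha)
      rw [List.filter_cons_of_pos (by simpa using hc), List.filter_cons_of_pos (by simpa using ha),
        List.filter_cons_of_neg (by simpa using hb), h3, List.cons_append]
    · by_cases hb : q a
      · have hc : r a := (hr a).2 (Or.inr hb)
        have h4 : t.filter (fun a => decide (p a)) = [] := by
          rw [List.filter_eq_nil_iff]
          intro b hb' hpb
          exact h1 b hb' ⟨hb, by simpa using hpb⟩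
        rw [List.filter_cons_of_pos (by simpa using hc),
          List.filter_cons_of_neg (by simpa using ha),
          List.filter_cons_of_pos (by simpa using hb), h3, h4, List.nil_append, List.nil_append]
      · have hc : ¬ r a := fun hc => ((hr a).1 hc).elim ha hb
        rw [List.filter_cons_of_neg (by simpa using hc),
          List.filter_cons_of_neg (by simpa using ha),
          List.filter_cons_of_neg (by simpa using hb), h3]

theorem pairwise_idx {α : Type*} (R : α → α → Prop) (l : List α) (hl : l.Nodup)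
    (h : ∀ a ∈ l, ∀ b ∈ l, l.idxOf a < l.idxOf b → R a b) : l.Pairwise R := by
  rw [List.pairwise_iff_getElem]
  intro i j hi hj hij
  refine h _ (List.getElem_mem hi) _ (List.getElem_mem hj) ?_
  rw [hl.idxOf_getElem, hl.idxOf_getElem]
  exact hij

/-! ## The contracted graph -/

/-- The vertices of the contracted graph. -/
inductive W (V : Type u) : Type u
  | a : W V
  | o : W V
  | v : V → W V
  | w : V → Bool → W V

variable {V : Type u} {H : Type v} {n : ℕ}

/-- `h` comes before a half-edge of `A` at the same vertex. -/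
def lft (G : RotGraph V H) (A : Finset (V ⊕ H)) (h : H) : Prop :=
  ∃ a ∈ G.rot (G.base h), Sum.inr a ∈ A ∧
    (G.rot (G.base h)).idxOf h < (G.rot (G.base h)).idxOf a

/-- The end of a half-edge in the contracted graph. -/
noncomputable def kb (G : RotGraph V H) (u : Fin n → V) (A B : Finset (V ⊕ H)) (h : H) : W V :=
  if inn G u A h then .a else if inn G u B h then
    if IsHub u (G.base h) then .w (G.base h) (decide (lft G A h)) else .v (G.base h)
  else .o

section Kb

variable {G : RotGraph V H} {u : Fin n → V} {A B : Finset (V ⊕ H)} {h : H}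

theorem kb_a : kb G u A B h = .a ↔ inn G u A h := by
  unfold kb
  split_ifs <;> simp_all

theorem kb_o : kb G u A B h = .o ↔ ¬ inn G u A h ∧ ¬ inn G u B h := by
  unfold kb
  split_ifs <;> simp_all

theorem kb_v {x : V} : kb G u A B h = .v x ↔
    ¬ inn G u A h ∧ inn G u B h ∧ ¬ IsHub u (G.base h) ∧ G.base h = x := by
  unfold kb
  split_ifs <;> simp_all

theorem kb_w {x : V} {b : Bool} : kb G u A B h = .w x b ↔
    ¬ inn G u A h ∧ inn G u B h ∧ IsHub u (G.base h) ∧ G.base h = x ∧
      decide (lft G A h) = b := by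
  unfold kb
  split_ifs <;> simp_all

end Kb

/-- The inner vertices of the contracted graph. -/
noncomputable def BK (G : RotGraph V H) (u : Fin n → V) : Finset (W V) :=
  insert .a ((G.verts ∪ Finset.univ.image u).image W.v ∪
    ((G.verts ∪ Finset.univ.image u) ×ˢ (Finset.univ : Finset Bool)).image
      (fun p => W.w p.1 p.2))

theorem a_mem_BK {G : RotGraph V H} {u : Fin n → V} : W.a ∈ BK G u := by
  simp [BK]

theorem o_notMem_BK {G : RotGraph V H} {u : Fin n → V} : W.o ∉ BK G u := by
  simp [BK]

theorem v_mem_BK {G : RotGraph V H} {u : Fin n → V} {x : V} :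
    W.v x ∈ BK G u ↔ x ∈ G.verts ∨ IsHub u x := by
  simp [BK, IsHub]

theorem w_mem_BK {G : RotGraph V H} {u : Fin n → V} {x : V} {b : Bool} :
    W.w x b ∈ BK G u ↔ x ∈ G.verts ∨ IsHub u x := by
  simp [BK, IsHub]

theorem kb_mem_BK {G : RotGraph V H} {u : Fin n → V} {A B : Finset (V ⊕ H)} {h : H}
    (hAB : A ⊆ B) (hh : h ∈ G.darts) : kb G u A B h ∈ BK G u ↔ inn G u B h := by
  have hb := G.base_mem h hh
  by_cases h1 : inn G u A h
  · rw [kb_a.2 h1]
    exact ⟨fun _ => inn_mono hAB h1, fun _ => a_mem_BK⟩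
  by_cases h2 : inn G u B h
  · by_cases h3 : IsHub u (G.base h)
    · rw [kb_w.2 ⟨h1, h2, h3, rfl, rfl⟩, w_mem_BK]
      exact ⟨fun _ => h2, fun _ => Or.inl hb⟩
    · rw [kb_v.2 ⟨h1, h2, h3, rfl⟩, v_mem_BK]
      exact ⟨fun _ => h2, fun _ => Or.inl hb⟩
  · rw [kb_o.2 ⟨h1, h2⟩]
    exact ⟨fun h4 => absurd h4 o_notMem_BK, fun h4 => absurd h4 h2⟩

/-- The contracted graph. -/
noncomputable def KG (G : RotGraph V H) (u : Fin n → V) (A B : Finset (V ⊕ H)) :
    RotGraph (W V) H where
  verts := insert .o (insert .a (G.darts.image (kb G u A B)))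
  darts := G.darts
  base := kb G u A B
  opp := G.opp
  rot x := match x with
    | .a => (G.darts.filter (fun h => kb G u A B h = .a)).toList
    | .o => (G.darts.filter (fun h => kb G u A B h = .o)).toList
    | .v y => (G.rot y).filter (fun h => decide (kb G u A B h = .v y))
    | .w y b => (G.rot y).filter (fun h => decide (kb G u A B h = .w y b))
  base_mem := fun h hh => Finset.mem_insert_of_mem (Finset.mem_insert_of_mem
    (Finset.mem_image_of_mem _ hh))
  opp_mem := G.opp_mem
  opp_opp := G.opp_opp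
  opp_ne := G.opp_ne
  nodup := by
    intro x
    cases x with
    | a => exact Finset.nodup_toList _
    | o => exact Finset.nodup_toList _
    | v y => exact (G.nodup y).filter _
    | w y b => exact (G.nodup y).filter _
  mem_rot := by
    intro x h
    cases x with
    | a => simp
    | o => simp
    | v y =>
      simp only [List.mem_filter, G.mem_rot, decide_eq_true_eq]
      constructor
      · rintro ⟨⟨h1, -⟩, h2⟩
        exact ⟨h1, h2⟩
      · rintro ⟨h1, h2⟩
        exact ⟨⟨h1, (kb_v.1 h2).2.2.2⟩, h2⟩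
    | w y b =>
      simp only [List.mem_filter, G.mem_rot, decide_eq_true_eq]
      constructor
      · rintro ⟨⟨h1, -⟩, h2⟩
        exact ⟨h1, h2⟩
      · rintro ⟨h1, h2⟩
        exact ⟨⟨h1, (kb_w.1 h2).2.2.2.1⟩, h2⟩

/-- The units of `B` which are in the set `Y` of vertices of the contracted graph. -/
noncomputable def back (G : RotGraph V H) (u : Fin n → V) (A B : Finset (V ⊕ H))
    (Y : Finset (W V)) : Finset (V ⊕ H) :=
  B.filter (fun x => x ∈ A ∨ (∃ y, x = Sum.inl y ∧ W.v y ∈ Y) ∨
    ∃ h, x = Sum.inr h ∧ kb G u A B h ∈ Y)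

theorem inn_back {G : RotGraph V H} {u : Fin n → V} {A B : Finset (V ⊕ H)} {Y : Finset (W V)}
    (hAB : A ⊆ B) (hY1 : W.a ∈ Y) (hY2 : Y ⊆ BK G u) (h : H) :
    inn G u (back G u A B Y) h ↔ kb G u A B h ∈ Y := by
  have hsub : back G u A B Y ⊆ B := Finset.filter_subset _ _
  have hsup : A ⊆ back G u A B Y := fun x hx => Finset.mem_filter.2 ⟨hAB hx, Or.inl hx⟩
  by_cases h1 : inn G u A h
  · rw [kb_a.2 h1]
    exact ⟨fun _ => hY1, fun _ => inn_mono hsup h1⟩
  by_cases h2 : inn G u B h
  · by_cases h3 : IsHub u (G.base h)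
    · rw [inn_hub h3] at h1 h2 ⊢
      rw [back, Finset.mem_filter]
      constructor
      · rintro ⟨-, h4 | ⟨y, h4, -⟩ | ⟨y, h4, h5⟩⟩
        · exact absurd h4 h1
        · cases h4
        · cases h4
          exact h5
      · intro h4
        exact ⟨h2, Or.inr (Or.inr ⟨h, rfl, h4⟩)⟩
    · have h4 : kb G u A B h = .v (G.base h) := kb_v.2 ⟨h1, h2, h3, rfl⟩
      rw [h4]
      rw [inn_nonhub h3] at h1 h2 ⊢
      rw [back, Finset.mem_filter]
      constructor
      · rintro ⟨-, h4 | ⟨y, h4, h5⟩ | ⟨y, h4, -⟩⟩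
        · exact absurd h4 h1
        · cases h4
          exact h5
        · cases h4
      · intro h4
        exact ⟨h2, Or.inr (Or.inl ⟨_, rfl, h4⟩)⟩
  · rw [kb_o.2 ⟨h1, h2⟩]
    exact ⟨fun h4 => absurd (inn_mono hsub h4) h2, fun h4 => absurd (hY2 h4) o_notMem_BK⟩

theorem back_cut {G : RotGraph V H} {u : Fin n → V} {A B : Finset (V ⊕ H)} {Y : Finset (W V)}
    (hAB : A ⊆ B) (hY1 : W.a ∈ Y) (hY2 : Y ⊆ BK G u) :
    cut (KG G u A B) Y = ecut G u (back G u A B Y) := by
  unfold cut ecut bd bdx
  congr 1
  refine Finset.filter_congr ?_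
  intro h _
  rw [inn_back hAB hY1 hY2 h, inn_back hAB hY1 hY2 (G.opp h)]
  rfl

theorem hub_of_inr {G : RotGraph V H} {u : Fin n → V} {i : Fin n} {h : H}
    (hh : h ∈ G.rot (u i)) : IsHub u (G.base h) := ⟨i, ((G.mem_rot _ _).1 hh).2.symm⟩

theorem Cv_back {G : RotGraph V H} {u : Fin n → V} {A B : Finset (V ⊕ H)} {Y : Finset (W V)}
    (hAB : A ⊆ B) (hY1 : W.a ∈ Y) (hY2 : Y ⊆ BK G u) (hA : Cv G u A) (hB : Cv G u B) :
    Cv G u (back G u A B Y) := by
  have hsub : back G u A B Y ⊆ B := Finset.filter_subset _ _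
  have hsup : A ⊆ back G u A B Y := fun x hx => Finset.mem_filter.2 ⟨hAB hx, Or.inl hx⟩
  intro i a ha b hb c hc hab hbc haX hcX
  have hbB : Sum.inr b ∈ B := hB i a ha b hb c hc hab hbc (hsub haX) (hsub hcX)
  by_cases hbA : Sum.inr b ∈ A
  · exact hsup hbA
  have eb := ((G.mem_rot _ _).1 hb).2
  have hkb : ∀ x ∈ G.rot (u i), Sum.inr x ∈ B → Sum.inr x ∉ A →
      kb G u A B x = .w (u i) (decide (lft G A x)) := by
    intro x hx h1 h2
    have hu := hub_of_inr hx
    refine kb_w.2 ⟨?_, ?_, hu, ((G.mem_rot _ _).1 hx).2, rfl⟩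
    · rwa [inn_hub hu]
    · rwa [inn_hub hu]
  have hX : ∀ x ∈ G.rot (u i), Sum.inr x ∈ back G u A B Y ↔ kb G u A B x ∈ Y := by
    intro x hx
    rw [← inn_hub (hub_of_inr hx)]
    exact inn_back hAB hY1 hY2 x
  rw [hX b hb, hkb b hb hbB hbA]
  have hl : ∀ x ∈ G.rot (u i), lft G A x ↔ ∃ a ∈ G.rot (u i), Sum.inr a ∈ A ∧
      (G.rot (u i)).idxOf x < (G.rot (u i)).idxOf a := by
    intro x hx
    unfold lft
    rw [((G.mem_rot _ _).1 hx).2]
  by_cases h1 : lft G A b
  · obtain ⟨a', ha', h2, h3⟩ := (hl b hb).1 h1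
    have haA : Sum.inr a ∉ A := fun h4 => hbA (hA i a ha b hb a' ha' hab h3 h4 h2)
    have h5 : lft G A a := (hl a ha).2 ⟨a', ha', h2, hab.trans h3⟩
    have h6 := (hX a ha).1 haX
    rw [hkb a ha (hsub haX) haA] at h6
    rw [decide_eq_true h1]
    rwa [decide_eq_true h5] at h6
  · have hcA : Sum.inr c ∉ A := fun h4 => h1 ((hl b hb).2 ⟨c, hc, h4, hbc⟩)
    have h5 : ¬ lft G A c := by
      intro h5
      obtain ⟨a', ha', h2, h3⟩ := (hl c hc).1 h5
      exact h1 ((hl b hb).2 ⟨a', ha', h2, hbc.trans h3⟩)
    have h6 := (hX c hc).1 hcX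
    rw [hkb c hc (hsub hcX) hcA] at h6
    rw [decide_eq_false h1]
    rwa [decide_eq_false h5] at h6

/-! ## The lists at a hub -/

theorem split_hub {G : RotGraph V H} {u : Fin n → V} {A B : Finset (V ⊕ H)} (hAB : A ⊆ B)
    (hA : Cv G u A) (i : Fin n) :
    lst G u B (u i) = (G.rot (u i)).filter (fun h => decide (kb G u A B h = .w (u i) true)) ++
      ((G.rot (u i)).filter (fun h => decide (inn G u A h)) ++
        (G.rot (u i)).filter (fun h => decide (kb G u A B h = .w (u i) false))) := by
  have hinn : ∀ x ∈ G.rot (u i), ∀ X : Finset (V ⊕ H), inn G u X x ↔ Sum.inr x ∈ X :=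
    fun x hx X => inn_hub (hub_of_inr hx)
  have hl : ∀ x ∈ G.rot (u i), lft G A x ↔ ∃ a ∈ G.rot (u i), Sum.inr a ∈ A ∧
      (G.rot (u i)).idxOf x < (G.rot (u i)).idxOf a := by
    intro x hx
    unfold lft
    rw [((G.mem_rot _ _).1 hx).2]
  have htf : ∀ x, kb G u A B x = .w (u i) true → kb G u A B x = .w (u i) false → False := by
    intro x h1 h2
    rw [h1] at h2
    cases h2
  have hta : ∀ x, kb G u A B x = .w (u i) true → ¬ inn G u A x := fun x h1 => (kb_w.1 h1).1
  have hfa : ∀ x, kb G u A B x = .w (u i) false → ¬ inn G u A x := fun x h1 => (kb_w.1 h1).1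
  -- a half-edge of `A` or a right one is never before a left one
  have hp1 : (G.rot (u i)).Pairwise (fun a b => ¬ ((inn G u A a ∨
      kb G u A B a = .w (u i) false) ∧ kb G u A B b = .w (u i) true)) := by
    refine pairwise_idx _ _ (G.nodup _) ?_
    rintro a ha b hb hab ⟨h1, h2⟩
    obtain ⟨b1, b2, b3, b4, b5⟩ := kb_w.1 h2
    obtain ⟨c, hc, c1, c2⟩ := (hl b hb).1 (of_decide_eq_true b5)
    rw [hinn b hb] at b1
    rcases h1 with h1 | h1
    · rw [hinn a ha] at h1
      exact b1 (hA i a ha b hb c hc hab c2 h1 c1)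
    · obtain ⟨-, -, -, -, a5⟩ := kb_w.1 h1
      exact of_decide_eq_false a5 ((hl a ha).2 ⟨c, hc, c1, hab.trans c2⟩)
  -- a right half-edge is never before one of `A`
  have hp2 : (G.rot (u i)).Pairwise (fun a b => ¬ (kb G u A B a = .w (u i) false ∧
      inn G u A b)) := by
    refine pairwise_idx _ _ (G.nodup _) ?_
    rintro a ha b hb hab ⟨h1, h2⟩
    rw [hinn b hb] at h2
    obtain ⟨-, -, -, -, a5⟩ := kb_w.1 h1
    exact of_decide_eq_false a5 ((hl a ha).2 ⟨b, hb, h2, hab⟩)
  have e2 := filter_split (fun h => inn G u A h) (fun h => kb G u A B h = .w (u i) false)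
    (fun h => inn G u A h ∨ kb G u A B h = .w (u i) false) (fun _ => Iff.rfl)
    (fun x h1 h2 => hfa x h2 h1) _ hp2
  have e1 := filter_split (fun h => kb G u A B h = .w (u i) true)
    (fun h => inn G u A h ∨ kb G u A B h = .w (u i) false)
    (fun h => kb G u A B h = .w (u i) true ∨ inn G u A h ∨ kb G u A B h = .w (u i) false)
    (fun _ => Iff.rfl)
    (fun x h1 h2 => h2.elim (fun h3 => hta x h1 h3) (fun h3 => htf x h1 h3)) _ hp1
  rw [← e2, ← e1]
  unfold lst
  refine List.filter_congr ?_
  intro x hx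
  rw [decide_eq_decide]
  constructor
  · intro h1
    by_cases h2 : inn G u A x
    · exact Or.inr (Or.inl h2)
    · by_cases h3 : lft G A x
      · exact Or.inl (kb_w.2 ⟨h2, h1, hub_of_inr hx, ((G.mem_rot _ _).1 hx).2,
          decide_eq_true h3⟩)
      · exact Or.inr (Or.inr (kb_w.2 ⟨h2, h1, hub_of_inr hx, ((G.mem_rot _ _).1 hx).2,
          decide_eq_false h3⟩))
  · rintro (h1 | h1 | h1)
    · exact (kb_w.1 h1).2.1
    · exact inn_mono hAB h1
    · exact (kb_w.1 h1).2.1

theorem st_eq_iff {G : RotGraph V H} {u : Fin n → V} {A B : Finset (V ⊕ H)} {i : Fin n}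
    (h : st G u A i = st G u B i) : cpl G u A (u i) ↔ cpl G u B (u i) := by
  unfold st at h
  split_ifs at h with h1 h2 h3 h4 h5 h6 h7 <;> simp_all

/-! ## The theorem -/

/-- (F) Linked pieces. -/
theorem stLink_of_NC (hN : StNC.{v}) : StLink.{u, v} := by
  intro n V H r hr G u A B hu hAB hBu hA hB hst hcut hmin
  have hY : ∀ Y : Finset (W V), {W.a} ⊆ Y → Y ⊆ BK G u → ecut G u A ≤ cut (KG G u A B) Y := by
    intro Y h1 h2
    have h3 : W.a ∈ Y := h1 (Finset.mem_singleton_self _)
    rw [back_cut hAB h3 h2]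
    exact hmin _ (fun x hx => Finset.mem_filter.2 ⟨hAB hx, Or.inl hx⟩) (Finset.filter_subset _ _)
      (Cv_back hAB h3 h2 hA hB)
  have hbA : bd (KG G u A B) {W.a} = bdx G u A := by
    unfold bd bdx
    refine Finset.filter_congr ?_
    intro h _
    rw [Finset.mem_singleton, Finset.mem_singleton]
    have e1 : (KG G u A B).base h = W.a ↔ inn G u A h := kb_a
    have e2 : (KG G u A B).base ((KG G u A B).opp h) = W.a ↔ inn G u A (G.opp h) := kb_a
    rw [e1, e2]
  have hbB : bd (KG G u A B) (BK G u) = bdx G u B := by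
    unfold bd bdx
    refine Finset.filter_congr ?_
    intro h hh
    have e1 : (KG G u A B).base h ∈ BK G u ↔ inn G u B h := kb_mem_BK hAB hh
    have e2 : (KG G u A B).base ((KG G u A B).opp h) ∈ BK G u ↔ inn G u B (G.opp h) :=
      kb_mem_BK hAB (G.opp_mem h hh)
    rw [e1, e2]
  obtain ⟨β, M, E⟩ := exists_link_id (fun _ _ => True) (fun _ => trivial) (KG G u A B) {W.a}
    (BK G u) (Finset.singleton_subset_iff.2 a_mem_BK) (ecut G u A)
    (by rw [cut, hbA]; rfl) (by rw [cut, hbB, hcut]; rfl) hY
  have hKer : ∀ a, Ker (KG G u A B) {W.a} (id : H → H) a ↔ a ∈ G.darts ∧ inn G u A a := by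
    intro a
    constructor
    · rintro ⟨h, h1, h2, rfl⟩
      exact ⟨h1, kb_a.1 (Finset.mem_singleton.1 h2)⟩
    · rintro ⟨h1, h2⟩
      exact ⟨a, h1, Finset.mem_singleton.2 (kb_a.2 h2), rfl⟩
  have hK : ∀ a, Kx G u A (id : H → H) a ↔ a ∈ G.darts ∧ inn G u A a := by
    intro a
    constructor
    · rintro ⟨h, h1, h2, rfl⟩
      exact ⟨h1, h2⟩
    · rintro ⟨h1, h2⟩
      exact ⟨a, h1, h2, rfl⟩
  have hMd : ∀ a b, M a b → a ∈ G.darts := E.M_mem
  have hMA : ∀ a b, M a b → ¬ inn G u A a := fun a b h h1 =>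
    E.M_ker a b h ((hKer a).2 ⟨hMd a b h, h1⟩)
  have hMB : ∀ a b, M a b → inn G u B a := fun a b h =>
    (kb_mem_BK hAB (hMd a b h)).1 (E.M_base a b h).1
  have hMk : ∀ a b, M a b → kb G u A B b = kb G u A B a := fun a b h => (E.M_base a b h).2
  have hMb : ∀ a b, M a b → G.base b = G.base a := by
    intro a b h
    have h1 := hMk a b h
    by_cases h3 : IsHub u (G.base a)
    · rw [kb_w.2 ⟨hMA a b h, hMB a b h, h3, rfl, rfl⟩] at h1
      exact (kb_w.1 h1).2.2.2.1
    · rw [kb_v.2 ⟨hMA a b h, hMB a b h, h3, rfl⟩] at h1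
      exact (kb_v.1 h1).2.2.2
  obtain ⟨N1, N2, N3, N4, N5⟩ := hN H M E.M_symm
  -- completeness
  have hcp : ∀ v, vt u A v → (cpl G u A v ↔ cpl G u B v) := by
    rintro v (⟨i, rfl⟩ | hv)
    · exact st_eq_iff (hst i)
    · by_cases h3 : IsHub u v
      · obtain ⟨i, rfl⟩ := h3
        exact st_eq_iff (hst i)
      · exact ⟨fun _ => cpl_of_mem h3 (hAB hv), fun _ => cpl_of_mem h3 hv⟩
  refine ⟨β, M, ?_⟩
  refine
    { f_hub := fun _ => rfl
      f_mem := fun v h => hAB h
      f_rel := fun v _ => hr v
      f_inj := fun _ _ _ _ h => h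
      M_symm := E.M_symm
      M_fun := E.M_fun
      M_mem := fun a b h => ⟨hMd a b h, hMB a b h⟩
      M_base := hMb
      M_ker := fun a b h h1 => hMA a b h ((hK a).1 h1).2
      φ_mem := fun h h1 h2 => ⟨h1, inn_mono hAB h2⟩
      φ_base := fun _ _ _ => rfl
      φ_inj := fun _ _ _ _ _ _ h => h
      rot_eq := ?_
      nc := ?_
      run_in := fun h _ _ _ => ⟨h, .refl _, rfl⟩
      run_out := ?_
      β_bij := ?_ }
  · intro v hv
    have h1 : (wd G u A v).map (Option.map id) = wd G u A v := by
      rw [Option.map_id, List.map_id]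
    rw [h1, id]
    have h2 : (wd G u B v).filter (fun a => decide (okO (Kx G u A id) a)) = wd G u A v := by
      unfold wd
      rw [List.filter_append]
      congr 1
      · have h3 := hcp v hv
        by_cases h4 : cpl G u A v
        · rw [if_pos h4, if_pos (h3.1 h4)]
          rfl
        · rw [if_neg h4, if_neg (fun h => h4 (h3.2 h))]
          simp [okO]
      · rw [List.filter_map]
        congr 1
        unfold lst
        rw [List.filter_filter]
        refine List.filter_congr ?_
        intro a ha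
        have had := ((G.mem_rot _ _).1 ha).1
        have h4 : okO (Kx G u A (id : H → H)) (some a) ↔ inn G u A a := by
          show Kx G u A (id : H → H) a ↔ inn G u A a
          rw [hK a]
          exact ⟨fun h => h.2, fun h => ⟨had, h⟩⟩
        simp only [Function.comp, h4]
        by_cases h5 : inn G u A a
        · have h6 : inn G u B a := inn_mono hAB h5
          simp [h5, h6]
        · simp [h5]
    rw [h2]
  · intro x hx
    have hfil : (wd G u B x).filter (fun a => decide (okO (fun a => Kx G u A (id : H → H) a ∨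
        ∃ b, M a b) a)) = (if cpl G u B x then [] else [none]) ++
          ((lst G u B x).filter (fun a => decide (Kx G u A (id : H → H) a ∨
            ∃ b, M a b))).map some := by
      unfold wd
      rw [List.filter_append, List.filter_map]
      congr 1
      · by_cases h4 : cpl G u B x
        · rw [if_pos h4]
          rfl
        · rw [if_neg h4]
          simp [okO]
      · congr 1
        refine List.filter_congr ?_
        intro a _
        simp only [Function.comp]
        rw [decide_eq_decide]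
        exact Iff.rfl
    rw [hfil]
    by_cases hhub : IsHub u x
    · obtain ⟨i, rfl⟩ := hhub
      have s1 := st_eq_iff (hst i)
      by_cases hc : cpl G u B (u i)
      · rw [if_pos hc, List.nil_append]
        refine .done _ ?_
        intro a ha b hab
        obtain ⟨c, hcm, rfl⟩ := List.mem_map.1 ha
        obtain ⟨y, z, h1, h2, h3⟩ := hab
        cases h1
        have h4 := (mem_lst.1 (List.mem_of_mem_filter hcm))
        exact hMA _ _ h3 (s1.2 hc _ ((G.mem_rot _ _).2 ⟨h4.1, h4.2.1⟩))
      · rw [if_neg hc, List.singleton_append, N1]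
        rw [split_hub hAB hA i, List.filter_append, List.filter_append]
        have hside : ∀ b : Bool, NCL M (((G.rot (u i)).filter
            (fun h => decide (kb G u A B h = .w (u i) b))).filter
              (fun a => decide (Kx G u A (id : H → H) a ∨ ∃ b, M a b))) := by
          intro b
          refine N4 _ ?_ ?_
          · have h1 := E.nc (.w (u i) b) (w_mem_BK.2 (Or.inr ⟨i, rfl⟩))
            have h2 : ((KG G u A B).rot (.w (u i) b)).filter
                (fun a => Ker (KG G u A B) {W.a} (id : H → H) a ∨ ∃ b, M a b) =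
                ((G.rot (u i)).filter (fun h => decide (kb G u A B h = .w (u i) b))).filter
                  (fun a => decide (Kx G u A (id : H → H) a ∨ ∃ b, M a b)) := by
              refine List.filter_congr ?_
              intro a _
              rw [decide_eq_decide, hK a, hKer a]
            rw [← h2]
            exact h1
          · intro a ha
            rw [List.mem_filter, List.mem_filter] at ha
            obtain ⟨⟨-, h1⟩, h2⟩ := ha
            rcases of_decide_eq_true h2 with h3 | h3
            · exact absurd ((hK a).1 h3).2 (kb_w.1 (of_decide_eq_true h1)).1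
            · exact h3
        refine N3 _ _ (hside true) (N3 _ _ ?_ (hside false))
        refine .done _ ?_
        intro a ha b hab
        rw [List.mem_filter, List.mem_filter] at ha
        exact hMA a b hab (of_decide_eq_true ha.1.2)
    · rcases hx with hx | hx
      · exact absurd hx hhub
      have hc : cpl G u B x := cpl_of_mem hhub hx
      rw [if_pos hc, List.nil_append]
      by_cases hxA : Sum.inl x ∈ A
      · refine .done _ ?_
        intro a ha b hab
        obtain ⟨c, hcm, rfl⟩ := List.mem_map.1 ha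
        obtain ⟨y, z, h1, h2, h3⟩ := hab
        cases h1
        have h4 := (mem_lst.1 (List.mem_of_mem_filter hcm))
        refine hMA _ _ h3 ?_
        rw [inn_nonhub (by rw [h4.2.1]; exact hhub), h4.2.1]
        exact hxA
      · have h1 := E.nc (.v x) (v_mem_BK.2 (Or.inl (inl_mem_units.1 (hBu hx)).1))
        have h2 : ((KG G u A B).rot (.v x)).filter
            (fun a => Ker (KG G u A B) {W.a} (id : H → H) a ∨ ∃ b, M a b) =
            (lst G u B x).filter (fun a => decide (Kx G u A (id : H → H) a ∨ ∃ b, M a b)) := by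
          have h3 : (KG G u A B).rot (.v x) = lst G u B x := by
            show (G.rot x).filter (fun h => decide (kb G u A B h = .v x)) =
              (G.rot x).filter (fun h => decide (inn G u B h))
            refine List.filter_congr ?_
            intro a ha
            rw [decide_eq_decide]
            have ea := ((G.mem_rot _ _).1 ha).2
            constructor
            · intro h4
              exact (kb_v.1 h4).2.1
            · intro h4
              refine kb_v.2 ⟨?_, h4, by rw [ea]; exact hhub, ea⟩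
              rw [inn_nonhub (by rw [ea]; exact hhub), ea]
              exact hxA
          rw [h3]
          refine List.filter_congr ?_
          intro a _
          rw [decide_eq_decide, hK a, hKer a]
        rw [h2] at h1
        refine h1.map (fun a b hab => ⟨a, b, rfl, rfl, hab⟩) ?_
        rintro a _ c ⟨y, z, h3, -, h4⟩
        cases h3
        exact ⟨z, h4⟩
  · intro h hh
    rw [← hbA] at hh
    exact E.run_out h hh
  · have h1 := E.β_bij
    rw [hbA, hbB] at h1
    exact h1

end RotWqo.Arc.L94

namespace RotWqo.Arc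

universe u v

/-- (F) Linked pieces. -/
theorem stLink_94 : StLink.{u, v} := L94.stLink_of_NC stNC_22

end RotWqo.Arc
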