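import Pool.Agent.Lib.MP_cb4a0f_co.Arc.Refl

/-!
# MP_cb4a0f_co, arc carvings: linked arc carvings from the abstract theorem
-/

open Classical

namespace RotWqo.Arc.Linked6

universe u v

attribute [-instance] instDecidableEqSum

variable {V H : Type*} {n : ℕ}

/-! ### The exploded graph -/

/-- The unit of a half-edge. -/
noncomputable def unitOf (G : RotGraph V H) (u : Fin n → V) (h : H) : V ⊕ H :=
  if IsHub u (G.base h) then Sum.inr h else Sum.inl (G.base h)

theorem inn_iff {G : RotGraph V H} {u : Fin n → V} {X : Finset (V ⊕ H)} {h : H} :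
    inn G u X h ↔ unitOf G u h ∈ X := by
  unfold inn unitOf
  by_cases hb : IsHub u (G.base h)
  · simp [hb]
  · simp [hb]

/-- The graph whose vertices are the units. -/
noncomputable def expl (G : RotGraph V H) (u : Fin n → V) : RotGraph (V ⊕ H) H where
  verts := units G u
  darts := G.darts
  base := unitOf G u
  opp := G.opp
  rot x := (G.darts.filter (fun h => unitOf G u h = x)).toList
  base_mem h hh := inn_iff.1 (inn_units hh)
  opp_mem := G.opp_mem
  opp_opp := G.opp_opp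
  opp_ne := G.opp_ne
  nodup _ := Finset.nodup_toList _
  mem_rot v h := by simp

theorem ecut_eq (G : RotGraph V H) (u : Fin n → V) (X : Finset (V ⊕ H)) :
    ecut G u X = cut (expl G u) X := by
  unfold ecut cut bdx bd
  congr 1
  refine Finset.filter_congr fun h _ => ?_
  rw [inn_iff, inn_iff]
  rfl

theorem ecut_submod (G : RotGraph V H) (u : Fin n → V) (X Y : Finset (V ⊕ H)) :
    ecut G u (X ∩ Y) + ecut G u (X ∪ Y) ≤ ecut G u X + ecut G u Y := by
  simp only [ecut_eq]
  exact cut_submod _ X Y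

theorem ecut_posimod (G : RotGraph V H) (u : Fin n → V) (X Y : Finset (V ⊕ H)) :
    ecut G u (X \ Y) + ecut G u (Y \ X) ≤ ecut G u X + ecut G u Y := by
  simp only [ecut_eq]
  exact cut_posimod _ X Y

/-! ### Statuses -/

theorem inn_rot {G : RotGraph V H} {u : Fin n → V} {X : Finset (V ⊕ H)} {i : Fin n} {h : H}
    (hh : h ∈ G.rot (u i)) : inn G u X h ↔ Sum.inr h ∈ X :=
  inn_hub ⟨i, ((G.mem_rot _ _).1 hh).2.symm⟩

theorem cpl_hub {G : RotGraph V H} {u : Fin n → V} {X : Finset (V ⊕ H)} {i : Fin n} :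
    cpl G u X (u i) ↔ ∀ h ∈ G.rot (u i), Sum.inr h ∈ X :=
  ⟨fun hc h hh => (inn_rot hh).1 (hc h hh), fun hc h hh => (inn_rot hh).2 (hc h hh)⟩

theorem st_two {G : RotGraph V H} {u : Fin n → V} {X : Finset (V ⊕ H)} {i : Fin n} :
    st G u X i = 2 ↔ ∀ h ∈ G.rot (u i), Sum.inr h ∈ X := by
  rw [← cpl_hub]
  unfold st
  by_cases hc : cpl G u X (u i)
  · simp [hc]
  · simp only [hc, if_false, iff_false]
    split_ifs <;> simp

theorem st_one {G : RotGraph V H} {u : Fin n → V} {X : Finset (V ⊕ H)} {i : Fin n} :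
    st G u X i = 1 ↔ (∃ h ∈ G.rot (u i), Sum.inr h ∉ X) ∧ ∃ h ∈ G.rot (u i), Sum.inr h ∈ X := by
  have h1 : (∃ h ∈ G.rot (u i), Sum.inr h ∉ X) ↔ ¬ cpl G u X (u i) := by
    rw [cpl_hub]; push Not; exact Iff.rfl
  have h2 : (∃ h ∈ G.rot (u i), Sum.inr h ∈ X) ↔ ∃ h ∈ G.rot (u i), inn G u X h :=
    ⟨fun ⟨h, hh, hx⟩ => ⟨h, hh, (inn_rot hh).2 hx⟩, fun ⟨h, hh, hx⟩ => ⟨h, hh, (inn_rot hh).1 hx⟩⟩
  rw [h1, h2]
  unfold st
  by_cases hc : cpl G u X (u i)
  · simp [hc]
  · simp only [hc, if_false, not_false_eq_true, true_and]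
    split_ifs with h
    · simp [h]
    · simp [h]

theorem st_zero {G : RotGraph V H} {u : Fin n → V} {X : Finset (V ⊕ H)} {i : Fin n} :
    st G u X i = 0 ↔ (∃ h ∈ G.rot (u i), Sum.inr h ∉ X) ∧ ∀ h ∈ G.rot (u i), Sum.inr h ∉ X := by
  have h1 : (∃ h ∈ G.rot (u i), Sum.inr h ∉ X) ↔ ¬ cpl G u X (u i) := by
    rw [cpl_hub]; push Not; exact Iff.rfl
  have h2 : (∀ h ∈ G.rot (u i), Sum.inr h ∉ X) ↔ ¬ ∃ h ∈ G.rot (u i), inn G u X h := by
    push Not
    exact ⟨fun hx h hh => fun h3 => hx h hh ((inn_rot hh).1 h3),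
      fun hx h hh => fun h3 => hx h hh ((inn_rot hh).2 h3)⟩
  rw [h1, h2]
  unfold st
  by_cases hc : cpl G u X (u i)
  · simp [hc]
  · simp only [hc, if_false, not_false_eq_true, true_and]
    split_ifs with h
    · simp [h]
    · simp [h]

theorem st_le (G : RotGraph V H) (u : Fin n → V) (X : Finset (V ⊕ H)) (i : Fin n) :
    st G u X i ≤ 2 := by
  unfold st
  split_ifs <;> omega

theorem st_mono {G : RotGraph V H} {u : Fin n → V} {X Y : Finset (V ⊕ H)} (hXY : X ⊆ Y)
    (i : Fin n) : st G u X i ≤ st G u Y i := by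
  have h1 := st_le G u X i
  rcases Nat.lt_or_ge (st G u Y i) (st G u X i) with h | h
  · exfalso
    have h2 : st G u X i = 1 ∨ st G u X i = 2 := by omega
    rcases h2 with h2 | h2
    · have h3 : st G u Y i = 0 := by omega
      obtain ⟨_, a, ha, hx⟩ := st_one.1 h2
      exact (st_zero.1 h3).2 a ha (hXY hx)
    · have h3 : st G u Y i = 2 := st_two.2 fun h hh => hXY (st_two.1 h2 h hh)
      omega
  · exact h

theorem pot_mono {G : RotGraph V H} {u : Fin n → V} {X Y : Finset (V ⊕ H)} (hXY : X ⊆ Y) :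
    pot G u X ≤ pot G u Y :=
  Finset.sum_le_sum fun i _ => st_mono hXY i

theorem st_eq_of_pot {G : RotGraph V H} {u : Fin n → V} {X Y : Finset (V ⊕ H)} (hXY : X ⊆ Y)
    (hp : pot G u X = pot G u Y) (i : Fin n) : st G u X i = st G u Y i :=
  (Finset.sum_eq_sum_iff_of_le fun i _ => st_mono hXY i).1 hp i (Finset.mem_univ i)

theorem pot_le (G : RotGraph V H) (u : Fin n → V) (X : Finset (V ⊕ H)) :
    pot G u X ≤ 2 * n := by
  unfold pot
  refine (Finset.sum_le_card_nsmul _ _ 2 fun i _ => st_le G u X i).trans ?_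
  simp [mul_comm]

/-- The number of split hubs. -/
noncomputable def spl (G : RotGraph V H) (u : Fin n → V) (X : Finset (V ⊕ H)) : ℕ :=
  (Finset.univ.filter (fun i => st G u X i = 1)).card

theorem spl_le (G : RotGraph V H) (u : Fin n → V) (X : Finset (V ⊕ H)) : spl G u X ≤ n := by
  unfold spl
  refine (Finset.card_filter_le _ _).trans ?_
  simp

theorem spl_congr {G : RotGraph V H} {u : Fin n → V} {X Y : Finset (V ⊕ H)}
    (h : ∀ i, st G u X i = st G u Y i) : spl G u X = spl G u Y := by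
  unfold spl
  simp only [h]

theorem spl_mono {G : RotGraph V H} {u : Fin n → V} {X Y : Finset (V ⊕ H)}
    (h : ∀ i, st G u X i = 1 → st G u Y i = 1) : spl G u X ≤ spl G u Y := by
  unfold spl
  refine Finset.card_le_card fun i hi => ?_
  rw [Finset.mem_filter] at hi ⊢
  exact ⟨hi.1, h i hi.2⟩

theorem spl_lt {G : RotGraph V H} {u : Fin n → V} {X Y : Finset (V ⊕ H)}
    (h : ∀ i, st G u X i = 1 → st G u Y i = 1) (j : Fin n) (hj : st G u X j = 0)
    (hj' : st G u Y j = 1) : spl G u X < spl G u Y := by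
  unfold spl
  refine Finset.card_lt_card ?_
  rw [Finset.ssubset_iff_of_subset]
  · refine ⟨j, by simp [hj'], by simp [hj]⟩
  · intro i hi
    rw [Finset.mem_filter] at hi ⊢
    exact ⟨hi.1, h i hi.2⟩

theorem pot_lt {G : RotGraph V H} {u : Fin n → V} {X Y : Finset (V ⊕ H)} (hXY : X ⊆ Y)
    (j : Fin n) (hj : st G u X j = 0) (hj' : st G u Y j = 1) : pot G u X < pot G u Y := by
  unfold pot
  refine Finset.sum_lt_sum (fun i _ => st_mono hXY i) ⟨j, Finset.mem_univ j, ?_⟩
  omega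

/-! ### Convexity -/

theorem idx_inj {l : List H} {a b : H} (ha : a ∈ l) (h : l.idxOf a = l.idxOf b) : a = b :=
  (List.idxOf_inj ha).1 h

theorem Cv.inter {G : RotGraph V H} {u : Fin n → V} {S X : Finset (V ⊕ H)} (hS : Cv G u S)
    (hX : Cv G u X) : Cv G u (S ∩ X) := by
  intro i a ha b hb c hc h1 h2 h3 h4
  rw [Finset.mem_inter] at h3 h4 ⊢
  exact ⟨hS i a ha b hb c hc h1 h2 h3.1 h4.1, hX i a ha b hb c hc h1 h2 h3.2 h4.2⟩

theorem Cv.union {G : RotGraph V H} {u : Fin n → V} {S X : Finset (V ⊕ H)} (hS : Cv G u S)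
    (hX : Cv G u X) (hcom : ∀ i, (∀ h ∈ G.rot (u i), Sum.inr h ∉ S) ∨
      (∀ h ∈ G.rot (u i), Sum.inr h ∉ X) ∨ ∃ e ∈ G.rot (u i), Sum.inr e ∈ S ∧ Sum.inr e ∈ X) :
    Cv G u (S ∪ X) := by
  intro i a ha b hb c hc h1 h2 h3 h4
  rw [Finset.mem_union] at h3 h4 ⊢
  rcases hcom i with h | h | ⟨e, he, he1, he2⟩
  · exact Or.inr (hX i a ha b hb c hc h1 h2 (h3.resolve_left (h a ha)) (h4.resolve_left (h c hc)))
  · exact Or.inl (hS i a ha b hb c hc h1 h2 (h3.resolve_right (h a ha))
      (h4.resolve_right (h c hc)))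
  · rcases lt_trichotomy ((G.rot (u i)).idxOf b) ((G.rot (u i)).idxOf e) with h | h | h
    · rcases h3 with h3 | h3
      · exact Or.inl (hS i a ha b hb e he h1 h h3 he1)
      · exact Or.inr (hX i a ha b hb e he h1 h h3 he2)
    · rw [idx_inj hb h]
      exact Or.inl he1
    · rcases h4 with h4 | h4
      · exact Or.inl (hS i e he b hb c hc h h2 he1 h4)
      · exact Or.inr (hX i e he b hb c hc h h2 he2 h4)

theorem Cv.sdiff {G : RotGraph V H} {u : Fin n → V} {S X : Finset (V ⊕ H)} (hS : Cv G u S)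
    (hX : Cv G u X) (hcom : ∀ i, (∀ h ∈ G.rot (u i), Sum.inr h ∈ S → Sum.inr h ∉ X) ∨
      ∃ e ∈ G.rot (u i), Sum.inr e ∈ X ∧ Sum.inr e ∉ S) : Cv G u (S \ X) := by
  intro i a ha b hb c hc h1 h2 h3 h4
  rw [Finset.mem_sdiff] at h3 h4 ⊢
  have hbS := hS i a ha b hb c hc h1 h2 h3.1 h4.1
  refine ⟨hbS, fun hbX => ?_⟩
  rcases hcom i with h | ⟨e, he, he1, he2⟩
  · exact h b hb hbS hbX
  · rcases lt_trichotomy ((G.rot (u i)).idxOf e) ((G.rot (u i)).idxOf a) with h | h | h
    · exact h3.2 (hX i e he a ha b hb h h1 he1 hbX)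
    · rw [← idx_inj he h] at h3
      exact h3.2 he1
    · rcases lt_trichotomy ((G.rot (u i)).idxOf e) ((G.rot (u i)).idxOf c) with h' | h' | h'
      · exact he2 (hS i a ha e he c hc h h' h3.1 h4.1)
      · rw [← idx_inj he h'] at h4
        exact h4.2 he1
      · exact h4.2 (hX i b hb c hc e he h2 h' hbX he1)

theorem cv_of_seg {G : RotGraph V H} {u : Fin n → V} {X : Finset (V ⊕ H)}
    (h : ∀ i, Seg G X (u i)) : Cv G u X := by
  intro i a ha b hb c hc h1 h2 h3 h4
  obtain ⟨l₁, l₂, l₃, hl, hX⟩ := h i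
  have hnd := G.nodup (u i)
  have hmem : ∀ x ∈ l₂, l₁.length ≤ (G.rot (u i)).idxOf x ∧
      (G.rot (u i)).idxOf x < l₁.length + l₂.length := by
    intro x hx
    have hx1 : x ∉ l₁ := by
      intro h5
      rw [hl, List.append_assoc] at hnd
      exact (List.nodup_append.1 hnd).2.2 x h5 x (by simp [hx]) rfl
    rw [hl, List.idxOf_append_of_mem (by simp [hx]), List.idxOf_append_of_notMem hx1]
    have := List.idxOf_lt_length_iff.2 hx
    omega
  have ha2 := hmem a ((hX a ha).1 h3)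
  have hc2 := hmem c ((hX c hc).1 h4)
  refine (hX b hb).2 ?_
  by_contra hb2
  by_cases hb1 : b ∈ l₁
  · have h5 : (G.rot (u i)).idxOf b = l₁.idxOf b := by
      rw [hl, List.append_assoc, List.idxOf_append_of_mem hb1]
    have := List.idxOf_lt_length_iff.2 hb1
    omega
  · have h5 : b ∉ l₁ ++ l₂ := by simp [hb1, hb2]
    have h6 : (G.rot (u i)).idxOf b = (l₁ ++ l₂).length + l₃.idxOf b := by
      rw [hl, List.idxOf_append_of_notMem h5]
    rw [List.length_append] at h6
    omega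

/-! ### The good sets -/

/-- The invariant of the nodes. -/
def Good (k : ℕ) (G : RotGraph V H) (u : Fin n → V) (S : Finset (V ⊕ H)) : Prop :=
  S ⊆ units G u ∧ Cv G u S ∧ ecut G u S * 2 ^ spl G u S ≤ k * 2 ^ n

theorem Good.ecut_le {k : ℕ} {G : RotGraph V H} {u : Fin n → V} {S : Finset (V ⊕ H)}
    (h : Good k G u S) : ecut G u S ≤ k * 2 ^ n :=
  (Nat.le_mul_of_pos_right _ (Nat.two_pow_pos _)).trans h.2.2

theorem pot_eq {k : ℕ} {G : RotGraph V H} {u : Fin n → V} {A B : Finset (V ⊕ H)}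
    (hA : ecut G u A ≤ k * 2 ^ n) (hAB : A ⊆ B) (hd : ecut G u A + (k * 2 ^ n + 1) * pot G u A =
      ecut G u B + (k * 2 ^ n + 1) * pot G u B) : pot G u A = pot G u B := by
  refine le_antisymm (pot_mono hAB) ?_
  by_contra hlt
  push Not at hlt
  have h1 : (k * 2 ^ n + 1) * (pot G u A + 1) ≤ (k * 2 ^ n + 1) * pot G u B :=
    Nat.mul_le_mul_left _ hlt
  rw [mul_add, mul_one] at h1
  omega

theorem good_of_le {k : ℕ} {G : RotGraph V H} {u : Fin n → V} {S T : Finset (V ⊕ H)}
    (h : Good k G u S) (hT : T ⊆ units G u) (hc : Cv G u T) (he : ecut G u T ≤ ecut G u S)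
    (hs : spl G u T ≤ spl G u S) : Good k G u T :=
  ⟨hT, hc, (Nat.mul_le_mul he (Nat.pow_le_pow_right (by norm_num) hs)).trans h.2.2⟩

theorem good_drop {k : ℕ} {G : RotGraph V H} {u : Fin n → V} {S X T : Finset (V ⊕ H)}
    (hS : Good k G u S) (hX : Good k G u X) (hT : T ⊆ units G u) (hc : Cv G u T)
    (he : ecut G u T ≤ ecut G u S + ecut G u X) (hs : spl G u T < spl G u S)
    (hsx : spl G u S ≤ spl G u X) : Good k G u T := by
  refine ⟨hT, hc, ?_⟩
  have h1 := hS.2.2
  have h2 : ecut G u X * 2 ^ spl G u S ≤ k * 2 ^ n :=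
    (Nat.mul_le_mul_left _ (Nat.pow_le_pow_right (by norm_num) hsx)).trans hX.2.2
  have h3 : (2 : ℕ) ^ (spl G u T + 1) ≤ 2 ^ spl G u S := Nat.pow_le_pow_right (by norm_num) hs
  rw [pow_succ] at h3
  have h4 : ecut G u T * (2 ^ spl G u T * 2) ≤ (ecut G u S + ecut G u X) * 2 ^ spl G u S :=
    Nat.mul_le_mul he h3
  rw [add_mul, ← mul_assoc] at h4
  omega

theorem stLinked_6 (hAbs : StAbs.{max u v}) : StLinked.{u, v} := by
  intro n k V H G u t hu ht
  obtain ⟨hnd, hset, hnode⟩ := ht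
  have hK : ∀ S, Good k G u S → rho k G u S ≤ k * 2 ^ n + (k * 2 ^ n + 1) * (2 * n) := by
    intro S hS
    unfold rho
    exact Nat.add_le_add hS.ecut_le (Nat.mul_le_mul_left _ (pot_le G u S))
  have hmain : ∀ A B X : Finset (V ⊕ H), Good k G u A → Good k G u B → A.Nonempty → A ⊆ B →
      rho k G u A = rho k G u B → (A ⊆ X ∧ X ⊆ B ∧ Cv G u X) → rho k G u X < rho k G u A →
      (∀ Y, (A ⊆ Y ∧ Y ⊆ B ∧ Cv G u Y) → rho k G u X ≤ rho k G u Y) →
      Good k G u X ∧
      (∀ S, Good k G u S → A ⊆ S → S ⊆ B → (A ⊆ S ∩ X ∧ S ∩ X ⊆ B ∧ Cv G u (S ∩ X)) ∧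
        (A ⊆ S ∪ X ∧ S ∪ X ⊆ B ∧ Cv G u (S ∪ X)) ∧
        rho k G u (S ∩ X) + rho k G u (S ∪ X) ≤ rho k G u S + rho k G u X ∧
        Good k G u (S ∩ X) ∧ Good k G u (S ∪ X)) ∧
      (∀ S, Good k G u S → S ⊆ B → Disjoint S A → (S ∩ X).Nonempty → (S \ X).Nonempty →
        Good k G u (S ∩ X) ∧ Good k G u (S \ X) ∧
        (((A ⊆ S ∪ X ∧ S ∪ X ⊆ B ∧ Cv G u (S ∪ X)) ∧
          rho k G u (S ∩ X) + rho k G u (S ∪ X) ≤ rho k G u S + rho k G u X) ∨
          rho k G u (S ∩ X) < rho k G u S) ∧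
        (((A ⊆ X \ S ∧ X \ S ⊆ B ∧ Cv G u (X \ S)) ∧
          rho k G u (S \ X) + rho k G u (X \ S) ≤ rho k G u S + rho k G u X) ∨
          rho k G u (S \ X) < rho k G u S)) := by
    intro A B X hA hB hAne hAB hdAB hFX hXA hmin
    obtain ⟨hAX, hXB, hcX⟩ := hFX
    have hpAB : pot G u A = pot G u B := pot_eq hA.ecut_le hAB hdAB
    -- sets between `A` and `B` have the same statuses
    have hpot : ∀ Y, A ⊆ Y → Y ⊆ B → pot G u Y = pot G u A := by
      intro Y h1 h2
      have h3 := pot_mono (G := G) (u := u) h1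
      have h4 := pot_mono (G := G) (u := u) h2
      omega
    have hst : ∀ Y, A ⊆ Y → Y ⊆ B → ∀ i, st G u A i = st G u Y i := fun Y h1 h2 i =>
      st_eq_of_pot h1 (hpot Y h1 h2).symm i
    have hspl : ∀ Y, A ⊆ Y → Y ⊆ B → spl G u Y = spl G u A := fun Y h1 h2 =>
      (spl_congr (hst Y h1 h2)).symm
    have hecX : ecut G u X < ecut G u A := by
      unfold rho at hXA
      rw [hpot X hAX hXB] at hXA
      omega
    have hminE : ∀ Y, A ⊆ Y → Y ⊆ B → Cv G u Y → ecut G u X ≤ ecut G u Y := by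
      intro Y h1 h2 h3
      have h4 := hmin Y ⟨h1, h2, h3⟩
      unfold rho at h4
      rw [hpot X hAX hXB, hpot Y h1 h2] at h4
      omega
    have hGX : Good k G u X := good_of_le hA (hXB.trans hB.1) hcX hecX.le
      (hspl X hAX hXB).le
    refine ⟨hGX, ?_, ?_⟩
    · intro S hS hAS hSB
      have hcom : ∀ i, (∀ h ∈ G.rot (u i), Sum.inr h ∉ S) ∨
          (∀ h ∈ G.rot (u i), Sum.inr h ∉ X) ∨
            ∃ e ∈ G.rot (u i), Sum.inr e ∈ S ∧ Sum.inr e ∈ X := by
        intro i
        by_cases h : ∃ e ∈ G.rot (u i), Sum.inr e ∈ A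
        · obtain ⟨e, he, heA⟩ := h
          exact Or.inr (Or.inr ⟨e, he, hAS heA, hAX heA⟩)
        · push Not at h
          left
          intro h1 hh1 hS1
          by_cases h2 : st G u A i = 2
          · exact h h1 hh1 (st_two.1 h2 h1 hh1)
          · have h3 : st G u A i = 0 := by
              by_contra h4
              have h5 := st_le G u A i
              have h6 : st G u A i = 1 := by omega
              obtain ⟨_, a, ha, haA⟩ := st_one.1 h6
              exact h a ha haA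
            rw [hst S hAS hSB i] at h3
            exact (st_zero.1 h3).2 h1 hh1 hS1
      have hFi : A ⊆ S ∩ X ∧ S ∩ X ⊆ B ∧ Cv G u (S ∩ X) :=
        ⟨Finset.subset_inter hAS hAX, Finset.inter_subset_left.trans hSB, Cv.inter hS.2.1 hcX⟩
      have hFu : A ⊆ S ∪ X ∧ S ∪ X ⊆ B ∧ Cv G u (S ∪ X) :=
        ⟨hAS.trans Finset.subset_union_left, Finset.union_subset hSB hXB,
          Cv.union hS.2.1 hcX hcom⟩
      have hsm := ecut_submod G u S X
      have h1 := hminE _ hFi.1 hFi.2.1 hFi.2.2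
      have h2 := hminE _ hFu.1 hFu.2.1 hFu.2.2
      refine ⟨hFi, hFu, ?_, ?_, ?_⟩
      · unfold rho
        rw [hpot _ hFi.1 hFi.2.1, hpot _ hFu.1 hFu.2.1, hpot _ hAS hSB, hpot _ hAX hXB]
        omega
      · refine good_of_le hS (hFi.2.1.trans hB.1) hFi.2.2 (by omega) ?_
        rw [hspl _ hFi.1 hFi.2.1, hspl _ hAS hSB]
      · refine good_of_le hS (hFu.2.1.trans hB.1) hFu.2.2 (by omega) ?_
        rw [hspl _ hFu.1 hFu.2.1, hspl _ hAS hSB]
    · intro S hS hSB hdis hne1 hne2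
      -- every hub met by `S` is split in `A`
      have hmet : ∀ i, ∀ h ∈ G.rot (u i), Sum.inr h ∈ S →
          st G u S i = 1 ∧ st G u A i = 1 := by
        intro i h hh hhS
        have h0 : st G u A i ≠ 2 := fun h2 =>
          Finset.disjoint_left.1 hdis hhS (st_two.1 h2 h hh)
        have h1 : st G u B i ≠ 0 := fun h2 => (st_zero.1 h2).2 h hh (hSB hhS)
        have h2 := hst B hAB (Finset.Subset.refl B) i
        have h3 := st_le G u A i
        have h4 : st G u A i = 1 := by omega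
        have h5 : st G u S i ≠ 0 := fun h2 => (st_zero.1 h2).2 h hh hhS
        have h6 : st G u S i ≠ 2 := by
          intro h7
          have h8 := st_mono (G := G) (u := u) hSB i
          omega
        have h7 := st_le G u S i
        exact ⟨by omega, h4⟩
      have hsub1 : ∀ T, T ⊆ S → ∀ i, st G u T i = 1 → st G u S i = 1 := by
        intro T hT i h
        obtain ⟨_, a, ha, haT⟩ := st_one.1 h
        exact (hmet i a ha (hT haT)).1
      have hSA : spl G u S ≤ spl G u X := by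
        rw [hspl X hAX hXB]
        refine spl_mono fun i h => ?_
        obtain ⟨_, a, ha, haS⟩ := st_one.1 h
        exact (hmet i a ha haS).2
      have hSu := hS.1
      have hcI : Cv G u (S ∩ X) := Cv.inter hS.2.1 hcX
      have hcD : Cv G u (S \ X) := by
        refine Cv.sdiff hS.2.1 hcX fun i => ?_
        by_cases h : ∃ h ∈ G.rot (u i), Sum.inr h ∈ S
        · obtain ⟨h, hh, hhS⟩ := h
          obtain ⟨_, a, ha, haA⟩ := st_one.1 (hmet i h hh hhS).2
          exact Or.inr ⟨a, ha, hAX haA, fun h => Finset.disjoint_left.1 hdis h haA⟩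
        · push Not at h
          exact Or.inl fun h1 hh1 hS1 => absurd hS1 (h h1 hh1)
      have heX : ecut G u X ≤ k * 2 ^ n := hGX.ecut_le
      have hI : Good k G u (S ∩ X) ∧
          (((A ⊆ S ∪ X ∧ S ∪ X ⊆ B ∧ Cv G u (S ∪ X)) ∧
          rho k G u (S ∩ X) + rho k G u (S ∪ X) ≤ rho k G u S + rho k G u X) ∨
          rho k G u (S ∩ X) < rho k G u S) := by
        have hsm := ecut_submod G u S X
        by_cases hall : ∀ i, (∃ h ∈ G.rot (u i), Sum.inr h ∈ S) →
            ∃ h ∈ G.rot (u i), Sum.inr h ∈ S ∧ Sum.inr h ∈ X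
        · have hFu : A ⊆ S ∪ X ∧ S ∪ X ⊆ B ∧ Cv G u (S ∪ X) := by
            refine ⟨hAX.trans Finset.subset_union_right, Finset.union_subset hSB hXB,
              Cv.union hS.2.1 hcX fun i => ?_⟩
            by_cases h : ∃ h ∈ G.rot (u i), Sum.inr h ∈ S
            · exact Or.inr (Or.inr (hall i h))
            · push Not at h
              exact Or.inl h
          have h2 := hminE _ hFu.1 hFu.2.1 hFu.2.2
          refine ⟨good_of_le hS (Finset.inter_subset_left.trans hSu) hcI (by omega)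
            (spl_mono (hsub1 _ Finset.inter_subset_left)), Or.inl ⟨hFu, ?_⟩⟩
          unfold rho
          rw [hpot _ hFu.1 hFu.2.1, hpot _ hAX hXB]
          have h3 := Nat.mul_le_mul_left (k * 2 ^ n + 1)
            (pot_mono (G := G) (u := u) (Finset.inter_subset_left (s₁ := S) (s₂ := X)))
          omega
        · push Not at hall
          obtain ⟨i, ⟨h, hh, hhS⟩, hno⟩ := hall
          have h0 : st G u (S ∩ X) i = 0 := by
            rw [st_zero]
            refine ⟨⟨h, hh, fun h1 => ?_⟩, fun h1 hh1 h2 => ?_⟩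
            · exact hno h hh hhS (Finset.mem_inter.1 h1).2
            · exact hno h1 hh1 (Finset.mem_inter.1 h2).1 (Finset.mem_inter.1 h2).2
          have h1 := (hmet i h hh hhS).1
          refine ⟨good_drop hS hGX (Finset.inter_subset_left.trans hSu) hcI (by omega)
            (spl_lt (hsub1 _ Finset.inter_subset_left) i h0 h1) hSA, Or.inr ?_⟩
          have h2 : pot G u (S ∩ X) + 1 ≤ pot G u S := pot_lt Finset.inter_subset_left i h0 h1
          have h3 := Nat.mul_le_mul_left (k * 2 ^ n + 1) h2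
          rw [mul_add, mul_one] at h3
          unfold rho
          omega
      have hD : Good k G u (S \ X) ∧
          (((A ⊆ X \ S ∧ X \ S ⊆ B ∧ Cv G u (X \ S)) ∧
          rho k G u (S \ X) + rho k G u (X \ S) ≤ rho k G u S + rho k G u X) ∨
          rho k G u (S \ X) < rho k G u S) := by
        have hsm := ecut_posimod G u S X
        by_cases hall : ∀ i, (∃ h ∈ G.rot (u i), Sum.inr h ∈ S) →
            ∃ h ∈ G.rot (u i), Sum.inr h ∈ S ∧ Sum.inr h ∉ X
        · have hFu : A ⊆ X \ S ∧ X \ S ⊆ B ∧ Cv G u (X \ S) := by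
            refine ⟨fun x hx => Finset.mem_sdiff.2 ⟨hAX hx, fun h =>
              Finset.disjoint_left.1 hdis h hx⟩, Finset.sdiff_subset.trans hXB,
              Cv.sdiff hcX hS.2.1 fun i => ?_⟩
            by_cases h : ∃ h ∈ G.rot (u i), Sum.inr h ∈ S
            · exact Or.inr (hall i h)
            · push Not at h
              exact Or.inl fun h1 hh1 _ => h h1 hh1
          have h2 := hminE _ hFu.1 hFu.2.1 hFu.2.2
          refine ⟨good_of_le hS (Finset.sdiff_subset.trans hSu) hcD (by omega)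
            (spl_mono (hsub1 _ Finset.sdiff_subset)), Or.inl ⟨hFu, ?_⟩⟩
          unfold rho
          rw [hpot _ hFu.1 hFu.2.1, hpot _ hAX hXB]
          have h3 := Nat.mul_le_mul_left (k * 2 ^ n + 1)
            (pot_mono (G := G) (u := u) (Finset.sdiff_subset (s := S) (t := X)))
          omega
        · push Not at hall
          obtain ⟨i, ⟨h, hh, hhS⟩, hno⟩ := hall
          have h0 : st G u (S \ X) i = 0 := by
            rw [st_zero]
            refine ⟨⟨h, hh, fun h1 => ?_⟩, fun h1 hh1 h2 => ?_⟩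
            · exact (Finset.mem_sdiff.1 h1).2 (hno h hh hhS)
            · exact (Finset.mem_sdiff.1 h2).2 (hno h1 hh1 (Finset.mem_sdiff.1 h2).1)
          have h1 := (hmet i h hh hhS).1
          refine ⟨good_drop hS hGX (Finset.sdiff_subset.trans hSu) hcD (by omega)
            (spl_lt (hsub1 _ Finset.sdiff_subset) i h0 h1) hSA, Or.inr ?_⟩
          have h2 : pot G u (S \ X) + 1 ≤ pot G u S := pot_lt Finset.sdiff_subset i h0 h1
          have h3 := Nat.mul_le_mul_left (k * 2 ^ n + 1) h2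
          rw [mul_add, mul_one] at h3
          unfold rho
          omega
      exact ⟨hI.1, hD.1, hI.2, hD.2⟩
  have hgood : ∀ s, IsSub s t → Good k G u s.set := by
    intro s hs
    obtain ⟨h1, h2⟩ := hnode s hs
    refine ⟨hset ▸ hs.set_subset, cv_of_seg h1, ?_⟩
    exact Nat.mul_le_mul h2 (Nat.pow_le_pow_right (by norm_num) (spl_le G u _))
  obtain ⟨t', ht1, ht2, ht3, ht4⟩ := hAbs (V ⊕ H) (rho k G u) (Good k G u)
    (fun A B X => A ⊆ X ∧ X ⊆ B ∧ Cv G u X) _ (fun A B X h => ⟨h.1, h.2.1⟩) hK hmain t hnd hgood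
  refine ⟨t', ht1, ht2.trans hset, fun s hs => ⟨(ht3 s hs).2.1, (ht3 s hs).ecut_le⟩, ?_⟩
  intro b a m hb hp hbm ham
  have hab := hp.set_subset
  have hasub : IsSub a b := TL.sub_of_path hp
  have hga := ht3 a (IsSub.trans' hasub hb)
  have hgb := ht3 b hb
  have hd : ecut G u a.set + (k * 2 ^ n + 1) * pot G u a.set =
      ecut G u b.set + (k * 2 ^ n + 1) * pot G u b.set := ham.trans hbm.symm
  have hp1 := pot_eq hga.ecut_le hab hd
  have hst := st_eq_of_pot hab hp1
  refine ⟨hst, ?_, ?_⟩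
  · rw [hp1] at hd
    omega
  · intro X h1 h2 h3
    have h4 := ht4 b a m hb hp hbm ham X ⟨h1, h2, h3⟩
    have h5 := pot_mono (G := G) (u := u) h1
    have h6 := pot_mono (G := G) (u := u) h2
    have h7 : pot G u X = pot G u a.set := by omega
    rw [← ham] at h4
    unfold rho at h4
    rw [h7] at h4
    omega

end RotWqo.Arc.Linked6
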