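import Pool.Agent.Lib.MP_cb4a0f_co.Arc.Stmts

/-!
# MP_cb4a0f_co, arc carvings, module (B): transitivity
-/

open Classical

namespace RotWqo.Arc

namespace Trans21

variable {V H V' H' V'' H'' : Type*} {n : ℕ}

theorem vt_of_inn {G : RotGraph V H} {u : Fin n → V} {X : Finset (V ⊕ H)} {h : H}
    (hh : inn G u X h) : vt u X (G.base h) := by
  rcases hh with ⟨h1, _⟩ | ⟨_, h2⟩
  · exact Or.inl h1
  · exact Or.inr h2

theorem vt_map {r : V → V' → Prop} {G : RotGraph V H} {u : Fin n → V} {X : Finset (V ⊕ H)}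
    {G' : RotGraph V' H'} {u' : Fin n → V'} {X' : Finset (V' ⊕ H')} {β : H → H'} {f : V → V'}
    {φ : H → H'} {M : H' → H' → Prop} (E : PED r G u X G' u' X' β f φ M) {v : V}
    (hv : vt u X v) : vt u' X' (f v) := by
  rcases hv with ⟨i, rfl⟩ | h2
  · exact Or.inl ⟨i, (E.f_hub i).symm⟩
  · exact Or.inr (E.f_mem v h2)

theorem liftO_symm {M : H → H → Prop} (hs : ∀ a b, M a b → M b a) (a b : Option H)
    (h : liftO M a b) : liftO M b a := by
  obtain ⟨x, y, h1, h2, h3⟩ := h
  exact ⟨y, x, h2, h1, hs _ _ h3⟩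

theorem liftO_or {M M₁ M₂ : H → H → Prop} (hM : ∀ a b, M a b ↔ M₁ a b ∨ M₂ a b)
    (a b : Option H) : liftO M a b ↔ liftO M₁ a b ∨ liftO M₂ a b := by
  constructor
  · rintro ⟨x, y, h1, h2, h3⟩
    rcases (hM x y).1 h3 with h4 | h4
    · exact Or.inl ⟨x, y, h1, h2, h4⟩
    · exact Or.inr ⟨x, y, h1, h2, h4⟩
  · rintro (⟨x, y, h1, h2, h3⟩ | ⟨x, y, h1, h2, h3⟩)
    · exact ⟨x, y, h1, h2, (hM x y).2 (Or.inl h3)⟩
    · exact ⟨x, y, h1, h2, (hM x y).2 (Or.inr h3)⟩

theorem liftO_some {M : H → H → Prop} {a : H} {c : Option H} (h : liftO M (some a) c) :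
    ∃ b, c = some b ∧ M a b := by
  obtain ⟨x, y, h1, h2, h3⟩ := h
  cases h1
  exact ⟨y, h2, h3⟩

theorem not_liftO_none {M : H → H → Prop} {c : Option H} : ¬ liftO M none c := by
  rintro ⟨x, y, h1, _, _⟩
  cases h1

theorem dec_none (p : H → Prop) : decide (okO p none) = true := decide_eq_true trivial

theorem lift_run {r₁ : V → V' → Prop} {r₂ : V' → V'' → Prop}
    {G : RotGraph V H} {u : Fin n → V} {X : Finset (V ⊕ H)}
    {G' : RotGraph V' H'} {u' : Fin n → V'} {X' : Finset (V' ⊕ H')}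
    {G'' : RotGraph V'' H''} {u'' : Fin n → V''} {X'' : Finset (V'' ⊕ H'')}
    {β : H → H'} {β' : H' → H''} {f : V → V'} {φ : H → H'} {M : H' → H' → Prop}
    (E : PED r₁ G u X G' u' X' β f φ M)
    {f' : V' → V''} {φ' : H' → H''} {M' : H'' → H'' → Prop}
    (E' : PED r₂ G' u' X' G'' u'' X'' β' f' φ' M') {x y : H'} (hx : x ∈ G'.darts)
    (hxA : inn G' u' X' x) (h : Run G'.opp M x y) :
    Run G''.opp (fun a c => (∃ x y, M x y ∧ φ' x = a ∧ φ' y = c) ∨ M' a c) (φ' x) (φ' y) ∧
      y ∈ G'.darts ∧ inn G' u' X' y := by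
  induction h with
  | refl x => exact ⟨.refl _, hx, hxA⟩
  | step x z y h1 _ ih =>
    have h2 := E.M_symm _ _ h1
    obtain ⟨h3, h4, h5⟩ := ih (E.M_mem _ _ h2).1 (E.M_mem _ _ h2).2
    obtain ⟨w, hw, hw'⟩ := E'.run_in x hx hxA (E.M_mem _ _ h1).2
    refine ⟨(hw.mono fun a b h => Or.inr h).trans (.step _ _ _ ?_ h3), h4, h5⟩
    rw [hw']
    exact Or.inl ⟨_, _, h1, rfl, rfl⟩

end Trans21

open Trans21

universe u v

/-- (B) -/
theorem stTrans_21 : StTrans.{u, v} := by
  intro n V V' V'' H H' H'' r₁ r₂ r hr G u X G' u' X' G'' u'' X'' β f φ M β' f' φ' M' _ _ _ E E'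
  set N : H'' → H'' → Prop := fun a c => ∃ x y, M x y ∧ φ' x = a ∧ φ' y = c with hN
  set P : H'' → H'' → Prop := fun a c => N a c ∨ M' a c with hP
  have Mker : ∀ x y, M x y → x ∈ G'.darts ∧ inn G' u' X' x := E.M_mem
  have Nker : ∀ a c, N a c → Kx G' u' X' φ' a := by
    rintro a c ⟨x, y, h, rfl, rfl⟩
    exact ⟨x, (Mker x y h).1, (Mker x y h).2, rfl⟩
  have Nsymm : ∀ a c, N a c → N c a := by
    rintro a c ⟨x, y, h, rfl, rfl⟩
    exact ⟨y, x, E.M_symm _ _ h, rfl, rfl⟩
  have kk : ∀ a, Kx G u X (φ' ∘ φ) a → Kx G' u' X' φ' a := by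
    rintro a ⟨h, h1, h2, rfl⟩
    exact ⟨φ h, (E.φ_mem h h1 h2).1, (E.φ_mem h h1 h2).2, rfl⟩
  have kk' : ∀ x ∈ G'.darts, inn G' u' X' x → (Kx G u X (φ' ∘ φ) (φ' x) ↔ Kx G u X φ x) := by
    intro x hx hxA
    constructor
    · rintro ⟨h, h1, h2, h3⟩
      exact ⟨h, h1, h2, E'.φ_inj _ (E.φ_mem h h1 h2).1 _ hx (E.φ_mem h h1 h2).2 hxA h3⟩
    · rintro ⟨h, h1, h2, rfl⟩
      exact ⟨h, h1, h2, rfl⟩
  have NM : ∀ x ∈ G'.darts, inn G' u' X' x → ∀ c, N (φ' x) c → ∃ y, M x y := by
    rintro x hx hxA c ⟨x', y, h, h1, rfl⟩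
    have := E'.φ_inj _ (Mker _ _ h).1 _ hx (Mker _ _ h).2 hxA h1
    subst this
    exact ⟨y, h⟩
  refine ⟨P, ?_⟩
  refine ⟨?_, ?_, ?_, ?_, ?_, ?_, ?_, ?_, ?_, ?_, ?_, ?_, ?_, ?_, ?_, ?_, ?_⟩
  · -- f_hub
    intro i
    show f' (f (u i)) = u'' i
    rw [E.f_hub, E'.f_hub]
  · -- f_mem
    intro v hv
    exact E'.f_mem _ (E.f_mem v hv)
  · -- f_rel
    intro v hv
    exact hr _ _ _ (E.f_rel v hv) (E'.f_rel _ (vt_map E hv))
  · -- f_inj
    intro v w hv hw hvw
    exact E.f_inj v w hv hw (E'.f_inj _ _ (E.f_mem v hv) (E.f_mem w hw) hvw)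
  · -- M_symm
    rintro a b (h | h)
    · exact Or.inl (Nsymm _ _ h)
    · exact Or.inr (E'.M_symm _ _ h)
  · -- M_fun
    rintro a b c (h | h) (h' | h')
    · obtain ⟨x, y, h1, rfl, rfl⟩ := h
      obtain ⟨x', y', h2, h3, rfl⟩ := h'
      have := E'.φ_inj _ (Mker _ _ h2).1 _ (Mker _ _ h1).1 (Mker _ _ h2).2 (Mker _ _ h1).2 h3
      subst this
      rw [E.M_fun _ _ _ h1 h2]
    · exact absurd (Nker _ _ h) (E'.M_ker _ _ h')
    · exact absurd (Nker _ _ h') (E'.M_ker _ _ h)
    · exact E'.M_fun _ _ _ h h'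
  · -- M_mem
    rintro a b (h | h)
    · obtain ⟨x, y, h1, rfl, rfl⟩ := h
      exact E'.φ_mem _ (Mker _ _ h1).1 (Mker _ _ h1).2
    · exact E'.M_mem _ _ h
  · -- M_base
    rintro a b (h | h)
    · obtain ⟨x, y, h1, rfl, rfl⟩ := h
      have h2 := Mker _ _ h1
      have h3 := Mker _ _ (E.M_symm _ _ h1)
      rw [E'.φ_base _ h2.1 h2.2, E'.φ_base _ h3.1 h3.2, E.M_base _ _ h1]
    · exact E'.M_base _ _ h
  · -- M_ker
    rintro a b (h | h) hk
    · obtain ⟨x, y, h1, rfl, rfl⟩ := h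
      have h2 := Mker _ _ h1
      exact E.M_ker _ _ h1 ((kk' _ h2.1 h2.2).1 hk)
    · exact E'.M_ker _ _ h (kk _ hk)
  · -- φ_mem
    intro h h1 h2
    exact E'.φ_mem _ (E.φ_mem h h1 h2).1 (E.φ_mem h h1 h2).2
  · -- φ_base
    intro h h1 h2
    simp only [Function.comp]
    rw [E'.φ_base _ (E.φ_mem h h1 h2).1 (E.φ_mem h h1 h2).2, E.φ_base h h1 h2]
  · -- φ_inj
    intro h h1 k k1 h2 k2 hk
    exact E.φ_inj _ h1 _ k1 h2 k2
      (E'.φ_inj _ (E.φ_mem h h1 h2).1 _ (E.φ_mem k k1 k2).1 (E.φ_mem h h1 h2).2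
        (E.φ_mem k k1 k2).2 hk)
  · -- rot_eq
    intro v hv
    have h1 := E'.rot_eq (f v) (vt_map E hv)
    have h2 := E.rot_eq v hv
    have h3 := IsRotated.filter' h1 (fun a => decide (okO (Kx G u X (φ' ∘ φ)) a))
    have h4 : (List.filter (fun a => decide (okO (Kx G' u' X' φ') a))
        (wd G'' u'' X'' (f' (f v)))).filter (fun a => decide (okO (Kx G u X (φ' ∘ φ)) a)) =
        (wd G'' u'' X'' (f' (f v))).filter (fun a => decide (okO (Kx G u X (φ' ∘ φ)) a)) := by
      rw [List.filter_filter]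
      refine List.filter_congr fun a _ => ?_
      cases a with
      | none => rw [dec_none, dec_none]; rfl
      | some a =>
        by_cases ha : okO (Kx G u X (φ' ∘ φ)) (some a)
        · have hb : okO (Kx G' u' X' φ') (some a) := kk a ha
          simp [ha, hb]
        · simp [ha]
    have h5 : ((wd G' u' X' (f v)).map (Option.map φ')).filter
        (fun a => decide (okO (Kx G u X (φ' ∘ φ)) a)) =
        ((wd G' u' X' (f v)).filter (fun a => decide (okO (Kx G u X φ) a))).map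
          (Option.map φ') := by
      rw [List.filter_map]
      congr 1
      refine List.filter_congr fun a ha => ?_
      cases a with
      | none => rfl
      | some a =>
        obtain ⟨h6, _, h7⟩ := some_mem_wd.1 ha
        simp only [Function.comp_apply, decide_eq_decide]
        exact kk' a h6 h7
    rw [h4, h5] at h3
    have h8 := h3.trans (h2.map (Option.map φ'))
    rw [List.map_map] at h8
    have h9 : (Option.map φ' ∘ Option.map φ : Option H → Option H'') = Option.map (φ' ∘ φ) := by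
      funext a
      cases a <;> rfl
    rw [h9] at h8
    exact h8
  · -- nc
    intro x hx
    have hdomP : ∀ a, (∃ b, P a b) ↔ (∃ b, N a b) ∨ ∃ b, M' a b := by
      intro a
      simp only [hP, exists_or]
    have h1 := E'.nc x hx
    have h2 : NC (liftO M') ((wd G'' u'' X'' x).filter
        (fun a => decide (okO (fun a => Kx G u X (φ' ∘ φ) a ∨ ∃ b, P a b) a))) := by
      have := h1.filter
        (fun a => decide (okO (fun a => Kx G u X (φ' ∘ φ) a ∨ ∃ b, P a b) a)) ?_
      · rw [List.filter_filter] at this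
        convert this using 1
        refine List.filter_congr fun a _ => ?_
        cases a with
        | none => rw [dec_none, dec_none]; rfl
        | some a =>
          by_cases ha : okO (fun a => Kx G u X (φ' ∘ φ) a ∨ ∃ b, P a b) (some a)
          · have hb : okO (fun a => Kx G' u' X' φ' a ∨ ∃ b, M' a b) (some a) := by
              rcases ha with ha | ⟨b, hb | hb⟩
              · exact Or.inl (kk a ha)
              · exact Or.inl (Nker _ _ hb)
              · exact Or.inr ⟨b, hb⟩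
            simp only [ha, hb, decide_true, Bool.and_self]
          · simp only [ha, decide_false, Bool.false_and]
      · rintro a _ ⟨b, hb | hb⟩
        · obtain ⟨y, z, rfl, rfl, h5⟩ := hb
          simp only [decide_eq_true_eq]
          exact Or.inr ⟨z, Or.inr h5⟩
        · obtain ⟨y, z, rfl, rfl, h5⟩ := hb
          simp only [decide_eq_true_eq]
          exact Or.inr ⟨y, Or.inr (E'.M_symm _ _ h5)⟩
    refine NC.trans (M₁ := liftO N) (M₂ := liftO M') (liftO_or (fun a b => Iff.rfl))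
      (liftO_symm E'.M_symm) h2 ?_
    have h3 : ((wd G'' u'' X'' x).filter
          (fun a => decide (okO (fun a => Kx G u X (φ' ∘ φ) a ∨ ∃ b, P a b) a))).filter
        (fun a => decide (∀ b, ¬ liftO M' a b)) =
        (((wd G'' u'' X'' x).filter (fun a => decide (okO (Kx G' u' X' φ') a))).filter
          (fun a => decide (okO (fun a => Kx G u X (φ' ∘ φ) a ∨ ∃ b, N a b) a))) := by
      rw [List.filter_filter, List.filter_filter]
      refine List.filter_congr fun a _ => ?_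
      rw [← Bool.decide_and, ← Bool.decide_and, decide_eq_decide]
      cases a with
      | none =>
        constructor
        · intro _
          exact ⟨trivial, trivial⟩
        · intro _
          exact ⟨fun b hb => not_liftO_none hb, trivial⟩
      | some a =>
        show (∀ b, ¬ liftO M' (some a) b) ∧ (Kx G u X (φ' ∘ φ) a ∨ ∃ b, P a b) ↔
          (Kx G u X (φ' ∘ φ) a ∨ ∃ b, N a b) ∧ Kx G' u' X' φ' a
        rw [hdomP]
        constructor
        · rintro ⟨h1, h2 | h2 | ⟨b, h2⟩⟩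
          · exact ⟨Or.inl h2, kk a h2⟩
          · exact ⟨Or.inr h2, Nker _ _ h2.choose_spec⟩
          · exact absurd ⟨a, b, rfl, rfl, h2⟩ (h1 (some b))
        · rintro ⟨h1, h2⟩
          refine ⟨fun b hb => ?_, ?_⟩
          · obtain ⟨c, _, hc⟩ := liftO_some hb
            exact E'.M_ker _ _ hc h2
          · rcases h1 with h1 | h1
            · exact Or.inl h1
            · exact Or.inr (Or.inl h1)
    rw [h3]
    by_cases hxf : ∃ w, vt u' X' w ∧ f' w = x
    · obtain ⟨w, hw, rfl⟩ := hxf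
      have h4 := E'.rot_eq w hw
      have h5 := IsRotated.filter' h4
        (fun a => decide (okO (fun a => Kx G u X (φ' ∘ φ) a ∨ ∃ b, N a b) a))
      refine NC.of_isRotated ?_ h5.symm
      have h6 : ((wd G' u' X' w).map (Option.map φ')).filter
            (fun a => decide (okO (fun a => Kx G u X (φ' ∘ φ) a ∨ ∃ b, N a b) a)) =
          ((wd G' u' X' w).filter
            (fun a => decide (okO (fun a => Kx G u X φ a ∨ ∃ b, M a b) a))).map
              (Option.map φ') := by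
        rw [List.filter_map]
        congr 1
        refine List.filter_congr fun a ha => ?_
        cases a with
        | none => rfl
        | some a =>
          obtain ⟨h7, _, h8⟩ := some_mem_wd.1 ha
          simp only [Function.comp_apply, decide_eq_decide]
          show (Kx G u X (φ' ∘ φ) (φ' a) ∨ ∃ b, N (φ' a) b) ↔ (Kx G u X φ a ∨ ∃ b, M a b)
          rw [kk' a h7 h8]
          constructor
          · rintro (h | ⟨b, h⟩)
            · exact Or.inl h
            · exact Or.inr (NM a h7 h8 b h)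
          · rintro (h | ⟨b, h⟩)
            · exact Or.inl h
            · exact Or.inr ⟨φ' b, a, b, h, rfl, rfl⟩
      rw [h6]
      refine (E.nc w hw).map (fun a b hab => ?_) fun a ha c hc => ?_
      · obtain ⟨y, z, rfl, rfl, h7⟩ := hab
        exact ⟨φ' y, φ' z, rfl, rfl, y, z, h7, rfl, rfl⟩
      · cases a with
        | none => exact absurd hc not_liftO_none
        | some a =>
          obtain ⟨h7, _, h8⟩ := some_mem_wd.1 (List.mem_of_mem_filter ha)
          obtain ⟨b, _, hb⟩ := liftO_some hc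
          obtain ⟨y, hy⟩ := NM a h7 h8 b hb
          exact ⟨some y, a, y, rfl, rfl, hy⟩
    · refine .done _ fun a ha b hab => ?_
      obtain ⟨a', b', rfl, rfl, h3'⟩ := hab
      obtain ⟨y, h5, h6, rfl⟩ := Nker _ _ h3'
      have h7 := List.mem_of_mem_filter ha
      have h8 := List.mem_of_mem_filter h7
      have h9 := (some_mem_wd.1 h8).2.1
      rw [E'.φ_base _ h5 h6] at h9
      exact hxf ⟨_, vt_of_inn h6, h9⟩
  · -- run_in
    intro h h1 h2 h3
    obtain ⟨y, h4, h5⟩ := E.run_in h h1 h2 h3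
    obtain ⟨h7, h8, h9⟩ := lift_run E E' (E.φ_mem h h1 h2).1 (E.φ_mem h h1 h2).2 h4
    have h10 : inn G' u' X' (G'.opp y) := by
      rw [h5]
      exact (E.φ_mem _ (G.opp_mem h h1) h3).2
    obtain ⟨z, hz, hz'⟩ := E'.run_in y h8 h9 h10
    refine ⟨z, h7.trans (hz.mono fun a b h => Or.inr h), ?_⟩
    rw [hz', h5]
    rfl
  · -- run_out
    intro h hh
    obtain ⟨h1, h2, h3⟩ := mem_bdx.1 hh
    obtain ⟨h7, h8, h9⟩ := lift_run E E' (E.φ_mem h h1 h2).1 (E.φ_mem h h1 h2).2 (E.run_out h hh)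
    exact h7.trans ((E'.run_out _ (E.β_bij.mapsTo hh)).mono fun a b h => Or.inr h)
  · exact E'.β_bij.comp E.β_bij

end RotWqo.Arc
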