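import Pool.Agent.Lib.MP_cb4a0f_co.Arc.Refl

/-!
# MP_cb4a0f_co, arc carvings: gluing two pieces
-/

open Classical

namespace RotWqo.Arc.Union6

universe u v

variable {V V' H H' : Type*} {n : ℕ}

/-- A word with a unique marker at the front is determined by its rotation class. -/
theorem strip {α : Type*} {l l' : List α}
    (h : (none :: l.map some : List (Option α)) ~r none :: l'.map some) : l = l' := by
  obtain ⟨m, hm⟩ := h
  rw [← List.rotate_mod] at hm
  set w : List (Option α) := none :: l.map some with hw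
  have hpos : 0 < w.length := by simp [hw]
  have hlt : m % w.length < w.length := Nat.mod_lt _ hpos
  rcases Nat.eq_zero_or_pos (m % w.length) with h0 | h0
  · rw [h0, List.rotate_zero, hw] at hm
    have h1 := (List.cons.inj hm).2
    exact (List.map_injective_iff.2 (Option.some_injective α)) h1
  · exfalso
    rw [List.rotate_eq_drop_append_take hlt.le] at hm
    obtain ⟨j, hj⟩ : ∃ j, m % w.length = j + 1 := ⟨m % w.length - 1, by omega⟩
    have h1 : w.drop (m % w.length) = (l.drop j).map some := by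
      rw [hj, hw, List.drop_succ_cons, List.map_drop]
    have h2 : (l.drop j) ≠ [] := by
      intro h3
      have h4 : l.length ≤ j := List.drop_eq_nil_iff.1 h3
      have h5 : w.length = l.length + 1 := by simp [hw]
      omega
    obtain ⟨a, t, hat⟩ := List.exists_cons_of_ne_nil h2
    rw [h1, hat, List.map_cons, List.cons_append] at hm
    exact absurd (List.cons.inj hm).1 (by simp)

theorem filter_wd {G : RotGraph V H} {u : Fin n → V} {X : Finset (V ⊕ H)} (p : H → Prop)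
    (v : V) : (wd G u X v).filter (fun a => decide (okO p a)) =
      (if cpl G u X v then [] else [none]) ++
        ((lst G u X v).filter (fun a => decide (p a))).map some := by
  unfold wd
  rw [List.filter_append]
  congr 1
  · split_ifs
    · rfl
    · simp [okO]
  · rw [List.filter_map]
    rfl

theorem map_wd {G : RotGraph V H} {u : Fin n → V} {X : Finset (V ⊕ H)} (φ : H → H') (v : V) :
    (wd G u X v).map (Option.map φ) =
      (if cpl G u X v then [] else [none]) ++ ((lst G u X v).map φ).map some := by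
  unfold wd
  rw [List.map_append]
  congr 1
  · split_ifs
    · rfl
    · rfl
  · rw [List.map_map, List.map_map]
    rfl

theorem cpl_iff {r : V → V' → Prop} {G : RotGraph V H} {u : Fin n → V} {X : Finset (V ⊕ H)}
    {G' : RotGraph V' H'} {u' : Fin n → V'} {X' : Finset (V' ⊕ H')} {β : H → H'} {f : V → V'}
    {φ : H → H'} {M : H' → H' → Prop} (E : PED r G u X G' u' X' β f φ M) {v : V}
    (hv : vt u X v) : cpl G u X v ↔ cpl G' u' X' (f v) := by
  have h1 := E.rot_eq v hv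
  have h2 := h1.mem_iff (a := none)
  rw [filter_wd, map_wd] at h2
  by_cases hc : cpl G u X v <;> by_cases hc' : cpl G' u' X' (f v)
  · exact ⟨fun _ => hc', fun _ => hc⟩
  · simp [hc, hc'] at h2
  · simp [hc, hc'] at h2
  · exact ⟨fun h => absurd h hc, fun h => absurd h hc'⟩

theorem lst_eq {r : V → V' → Prop} {G : RotGraph V H} {u : Fin n → V} {X : Finset (V ⊕ H)}
    {G' : RotGraph V' H'} {u' : Fin n → V'} {X' : Finset (V' ⊕ H')} {β : H → H'} {f : V → V'}
    {φ : H → H'} {M : H' → H' → Prop} (E : PED r G u X G' u' X' β f φ M) {v : V}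
    (hv : vt u X v) (hc : ¬ cpl G u X v) :
    (lst G' u' X' (f v)).filter (fun a => decide (Kx G u X φ a)) = (lst G u X v).map φ := by
  have h1 := E.rot_eq v hv
  have hc' : ¬ cpl G' u' X' (f v) := fun h => hc ((cpl_iff E hv).2 h)
  rw [filter_wd, map_wd, if_neg hc, if_neg hc', List.singleton_append, List.singleton_append] at h1
  exact strip h1

/-- At a vertex all of whose half-edges are in `X` there is nothing of `Y`. -/
theorem cpl_union_left {G : RotGraph V H} {u : Fin n → V} {X Y : Finset (V ⊕ H)} {v : V}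
    (hc : cpl G u X v) : cpl G u (X ∪ Y) v := fun h hh => inn_union.2 (Or.inl (hc h hh))

theorem cpl_union_right {G : RotGraph V H} {u : Fin n → V} {X Y : Finset (V ⊕ H)} {v : V}
    (hc : cpl G u Y v) : cpl G u (X ∪ Y) v := fun h hh => inn_union.2 (Or.inr (hc h hh))

theorem wd_union_left {G : RotGraph V H} {u : Fin n → V} {X Y : Finset (V ⊕ H)} {v : V}
    (hc : cpl G u X v) : wd G u (X ∪ Y) v = wd G u X v := by
  rw [wd_of_cpl hc, wd_of_cpl (cpl_union_left hc)]

theorem wd_union_right {G : RotGraph V H} {u : Fin n → V} {X Y : Finset (V ⊕ H)} {v : V}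
    (hc : cpl G u Y v) : wd G u (X ∪ Y) v = wd G u Y v := by
  rw [wd_of_cpl hc, wd_of_cpl (cpl_union_right hc)]

/-- Run reversal in a rotated graph. -/
theorem rev {G' : RotGraph V' H'} {M : H' → H' → Prop} (hs : ∀ a b, M a b → M b a)
    (hm : ∀ a b, M a b → a ∈ G'.darts) {x y : H'} (h : Run G'.opp M x y) :
    Run G'.opp M (G'.opp y) (G'.opp x) :=
  h.reverse hs (fun a b h => G'.opp_opp a (hm a b h))

theorem stUnion_6 (hNC : StNC.{v}) : StUnion.{u, v} := by
  intro n V V' H H' r G u X₁ X₂ G' u' X₁' X₂' β₁ β₂ hu hu' hX₁ hX₂ hX₁' hX₂' hA hA' h₁ h₂ h12 h1o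
    h2o hcat hcpl
  obtain ⟨f₁, φ₁, M₁, E₁⟩ := h₁
  obtain ⟨f₂, φ₂, M₂, E₂⟩ := h₂
  have hd : ∀ h, inn G u X₁ h → inn G u X₂ h → False := fun h h1 h2 => inn_disj hA h1 h2
  have hd' : ∀ h, inn G' u' X₁' h → inn G' u' X₂' h → False := fun h h1 h2 => inn_disj hA' h1 h2
  have hdv' : ∀ v : V', Sum.inl v ∈ X₁' → Sum.inl v ∈ X₂' → False := fun v h1 h2 =>
    Finset.disjoint_left.1 hA' h1 h2
  set f : V → V' := fun v => if Sum.inl v ∈ X₁ then f₁ v else f₂ v with hf
  set φ : H → H' := fun h => if inn G u X₁ h then φ₁ h else φ₂ h with hφ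
  set M : H' → H' → Prop := fun a b => M₁ a b ∨ M₂ a b with hM
  have hubn1 : ∀ i, (Sum.inl (u i) : V ⊕ H) ∉ X₁ := fun i h =>
    (inl_mem_units.1 (hX₁ h)).2 ⟨i, rfl⟩
  have f0 : ∀ i, f (u i) = u' i := fun i => by
    simp only [hf, if_neg (hubn1 i)]
    exact E₂.f_hub i
  have f1 : ∀ v, vt u X₁ v → f v = f₁ v := by
    rintro v (⟨i, rfl⟩ | hv)
    · rw [f0 i, E₁.f_hub i]
    · simp only [hf, if_pos hv]
  have f2 : ∀ v, vt u X₂ v → f v = f₂ v := by
    rintro v (⟨i, rfl⟩ | hv)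
    · rw [f0 i, E₂.f_hub i]
    · have : (Sum.inl v : V ⊕ H) ∉ X₁ := fun h => Finset.disjoint_left.1 hA h hv
      simp only [hf, if_neg this]
  have φ1 : ∀ h, inn G u X₁ h → φ h = φ₁ h := fun v hv => by simp only [hφ, if_pos hv]
  have φ2 : ∀ h, inn G u X₂ h → φ h = φ₂ h := fun v hv => by
    have : ¬ inn G u X₁ v := fun h => hd _ h hv
    simp only [hφ, if_neg this]
  have vt1 : ∀ h, inn G u X₁ h → vt u X₁ (G.base h) := by
    rintro h (⟨h1, _⟩ | ⟨_, h1⟩)
    · exact Or.inl h1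
    · exact Or.inr h1
  have vt2 : ∀ h, inn G u X₂ h → vt u X₂ (G.base h) := by
    rintro h (⟨h1, _⟩ | ⟨_, h1⟩)
    · exact Or.inl h1
    · exact Or.inr h1
  have vtU : ∀ v, vt u (X₁ ∪ X₂) v → vt u X₁ v ∨ vt u X₂ v := by
    rintro v (h | h)
    · exact Or.inl (Or.inl h)
    · rcases Finset.mem_union.1 h with h | h
      · exact Or.inl (Or.inr h)
      · exact Or.inr (Or.inr h)
  have K1 : ∀ a, Kx G u X₁ φ₁ a → a ∈ G'.darts ∧ inn G' u' X₁' a := by
    rintro a ⟨h, h1, h2, rfl⟩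
    exact E₁.φ_mem h h1 h2
  have K2 : ∀ a, Kx G u X₂ φ₂ a → a ∈ G'.darts ∧ inn G' u' X₂' a := by
    rintro a ⟨h, h1, h2, rfl⟩
    exact E₂.φ_mem h h1 h2
  have hKer : ∀ a, Kx G u (X₁ ∪ X₂) φ a ↔ Kx G u X₁ φ₁ a ∨ Kx G u X₂ φ₂ a := by
    intro a
    constructor
    · rintro ⟨h, h1, h2, rfl⟩
      rcases inn_union.1 h2 with h3 | h3
      · exact Or.inl ⟨h, h1, h3, (φ1 h h3).symm⟩
      · exact Or.inr ⟨h, h1, h3, (φ2 h h3).symm⟩
    · rintro (⟨h, h1, h2, rfl⟩ | ⟨h, h1, h2, rfl⟩)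
      · exact ⟨h, h1, inn_union.2 (Or.inl h2), φ1 h h2⟩
      · exact ⟨h, h1, inn_union.2 (Or.inr h2), φ2 h h2⟩
  have K1' : ∀ a, inn G' u' X₁' a → (Kx G u (X₁ ∪ X₂) φ a ↔ Kx G u X₁ φ₁ a) := by
    intro a ha
    rw [hKer]
    exact ⟨fun h => h.resolve_right fun h' => hd' _ ha (K2 _ h').2, Or.inl⟩
  have K2' : ∀ a, inn G' u' X₂' a → (Kx G u (X₁ ∪ X₂) φ a ↔ Kx G u X₂ φ₂ a) := by
    intro a ha
    rw [hKer]
    exact ⟨fun h => h.resolve_left fun h' => hd' _ (K1 _ h').2 ha, Or.inr⟩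
  have m1 : ∀ a b, M₁ a b → inn G' u' X₁' a := fun a b h => (E₁.M_mem a b h).2
  have m2 : ∀ a b, M₂ a b → inn G' u' X₂' a := fun a b h => (E₂.M_mem a b h).2
  have M1' : ∀ a, inn G' u' X₁' a → ∀ b, M a b ↔ M₁ a b := by
    intro a ha b
    exact ⟨fun h => h.resolve_right fun h' => hd' _ ha (m2 _ _ h'), Or.inl⟩
  have M2' : ∀ a, inn G' u' X₂' a → ∀ b, M a b ↔ M₂ a b := by
    intro a ha b
    exact ⟨fun h => h.resolve_left fun h' => hd' _ (m1 _ _ h') ha, Or.inr⟩
  -- the pairing across, seen from the other side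
  have h21 : ∀ h ∈ bdx G u X₂, inn G u X₁ (G.opp h) → G'.opp (β₂ h) = β₁ (G.opp h) := by
    intro h hh hb
    obtain ⟨h1, h2, h3⟩ := mem_bdx.1 hh
    have h4 : G.opp h ∈ bdx G u X₁ := by
      rw [mem_bdx, G.opp_opp h h1]
      exact ⟨G.opp_mem h h1, hb, fun h => hd _ h h2⟩
    have h5 := h12 _ h4 (by rw [G.opp_opp h h1]; exact h2)
    rw [G.opp_opp h h1] at h5
    have h6 := (mem_bdx.1 (E₁.β_bij.mapsTo h4)).1
    rw [← h5, G'.opp_opp _ h6]
  -- a vertex of the union which is complete for neither piece is a hub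
  have third : ∀ v, vt u (X₁ ∪ X₂) v → (vt u X₁ v ∧ cpl G u X₁ v) ∨ (vt u X₂ v ∧ cpl G u X₂ v) ∨
      ∃ i, u i = v ∧ ¬ cpl G u X₁ v ∧ ¬ cpl G u X₂ v := by
    intro v hv
    by_cases c1 : cpl G u X₁ v
    · rcases hv with h | h
      · exact Or.inl ⟨Or.inl h, c1⟩
      · rcases Finset.mem_union.1 h with h | h
        · exact Or.inl ⟨Or.inr h, c1⟩
        · exact Or.inr (Or.inl ⟨Or.inr h, cpl_of_mem (inl_mem_units.1 (hX₂ h)).2 h⟩)
    · by_cases c2 : cpl G u X₂ v
      · rcases hv with h | h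
        · exact Or.inr (Or.inl ⟨Or.inl h, c2⟩)
        · rcases Finset.mem_union.1 h with h | h
          · exact absurd (cpl_of_mem (inl_mem_units.1 (hX₁ h)).2 h) c1
          · exact Or.inr (Or.inl ⟨Or.inr h, c2⟩)
      · rcases hv with ⟨i, h⟩ | h
        · exact Or.inr (Or.inr ⟨i, h, c1, c2⟩)
        · rcases Finset.mem_union.1 h with h | h
          · exact absurd (cpl_of_mem (inl_mem_units.1 (hX₁ h)).2 h) c1
          · exact absurd (cpl_of_mem (inl_mem_units.1 (hX₂ h)).2 h) c2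
  have third' : ∀ v, vt u' (X₁' ∪ X₂') v → (vt u' X₁' v ∧ cpl G' u' X₁' v) ∨
      (vt u' X₂' v ∧ cpl G' u' X₂' v) ∨
      ∃ i, u' i = v ∧ ¬ cpl G' u' X₁' v ∧ ¬ cpl G' u' X₂' v := by
    intro v hv
    by_cases c1 : cpl G' u' X₁' v
    · rcases hv with h | h
      · exact Or.inl ⟨Or.inl h, c1⟩
      · rcases Finset.mem_union.1 h with h | h
        · exact Or.inl ⟨Or.inr h, c1⟩
        · exact Or.inr (Or.inl ⟨Or.inr h, cpl_of_mem (inl_mem_units.1 (hX₂' h)).2 h⟩)
    · by_cases c2 : cpl G' u' X₂' v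
      · rcases hv with h | h
        · exact Or.inr (Or.inl ⟨Or.inl h, c2⟩)
        · rcases Finset.mem_union.1 h with h | h
          · exact absurd (cpl_of_mem (inl_mem_units.1 (hX₁' h)).2 h) c1
          · exact Or.inr (Or.inl ⟨Or.inr h, c2⟩)
      · rcases hv with ⟨i, h⟩ | h
        · exact Or.inr (Or.inr ⟨i, h, c1, c2⟩)
        · rcases Finset.mem_union.1 h with h | h
          · exact absurd (cpl_of_mem (inl_mem_units.1 (hX₁' h)).2 h) c1
          · exact absurd (cpl_of_mem (inl_mem_units.1 (hX₂' h)).2 h) c2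
  -- the lists at a hub which is complete for neither piece
  have filt : ∀ (p : H' → Prop) (p₁ p₂ : H' → Prop), (∀ a, inn G' u' X₁' a → (p a ↔ p₁ a)) →
      (∀ a, inn G' u' X₂' a → (p a ↔ p₂ a)) → ∀ x,
      (lst G' u' X₁' x).filter (fun a => decide (p a)) =
        (lst G' u' X₁' x).filter (fun a => decide (p₁ a)) ∧
      (lst G' u' X₂' x).filter (fun a => decide (p a)) =
        (lst G' u' X₂' x).filter (fun a => decide (p₂ a)) := by
    intro p p₁ p₂ hp1 hp2 x
    constructor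
    · refine List.filter_congr fun a ha => ?_
      rw [decide_eq_decide]
      exact hp1 a (mem_lst.1 ha).2.2
    · refine List.filter_congr fun a ha => ?_
      rw [decide_eq_decide]
      exact hp2 a (mem_lst.1 ha).2.2
  have rotHub : ∀ i, ¬ cpl G u X₁ (u i) → ¬ cpl G u X₂ (u i) →
      (lst G' u' (X₁' ∪ X₂') (u' i)).filter (fun a => decide (Kx G u (X₁ ∪ X₂) φ a)) =
        (lst G u (X₁ ∪ X₂) (u i)).map φ := by
    intro i c1 c2
    have e1 := lst_eq E₁ (Or.inl ⟨i, rfl⟩) c1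
    have e2 := lst_eq E₂ (Or.inl ⟨i, rfl⟩) c2
    rw [E₁.f_hub] at e1
    rw [E₂.f_hub] at e2
    obtain ⟨e3, e4⟩ := filt _ _ _ K1' K2' (u' i)
    have e5 : (lst G u X₁ (u i)).map φ = (lst G u X₁ (u i)).map φ₁ :=
      List.map_congr_left fun a ha => φ1 a (mem_lst.1 ha).2.2
    have e6 : (lst G u X₂ (u i)).map φ = (lst G u X₂ (u i)).map φ₂ :=
      List.map_congr_left fun a ha => φ2 a (mem_lst.1 ha).2.2
    rcases hcat i with ⟨h1, h2⟩ | ⟨h1, h2⟩
    · unfold catl at h1 h2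
      rw [h1, h2, List.filter_append, List.map_append, e3, e4, e5, e6, e1, e2]
    · unfold catl at h1 h2
      rw [Finset.union_comm] at h1 h2
      rw [h1, h2, List.filter_append, List.map_append, e3, e4, e5, e6, e1, e2]
  have Msymm : ∀ a b, M a b → M b a := by
    rintro a b (h | h)
    · exact Or.inl (E₁.M_symm _ _ h)
    · exact Or.inr (E₂.M_symm _ _ h)
  obtain ⟨KM, hKM⟩ : ∃ KM : H' → Prop, KM = fun a => Kx G u (X₁ ∪ X₂) φ a ∨ ∃ b, M a b :=
    ⟨_, rfl⟩
  have KM1 : ∀ a, inn G' u' X₁' a → (KM a ↔ (fun a => Kx G u X₁ φ₁ a ∨ ∃ b, M₁ a b) a) := by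
    intro a ha
    rw [hKM]
    simp only [K1' a ha, M1' a ha]
  have KM2 : ∀ a, inn G' u' X₂' a → (KM a ↔ (fun a => Kx G u X₂ φ₂ a ∨ ∃ b, M₂ a b) a) := by
    intro a ha
    rw [hKM]
    simp only [K2' a ha, M2' a ha]
  have N1 : ∀ i, ¬ cpl G' u' X₁' (u' i) → NCL M ((lst G' u' X₁' (u' i)).filter
      (fun a => decide (KM a))) := by
    intro i c1
    have e1 := E₁.nc (u' i) (Or.inl ⟨i, rfl⟩)
    rw [filter_wd, if_neg c1, List.singleton_append] at e1
    have e2 := ((hNC H' M₁ E₁.M_symm).1 _).1 e1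
    rw [(filt KM _ _ KM1 KM2 (u' i)).1]
    refine (hNC H' M Msymm).2.2.2.2 M₁ _ e2 (fun a b h => Or.inl h) fun a ha b hab => ?_
    have h1 := (mem_lst.1 (List.mem_of_mem_filter ha)).2.2
    exact ⟨b, (M1' a h1 b).1 hab⟩
  have N2 : ∀ i, ¬ cpl G' u' X₂' (u' i) → NCL M ((lst G' u' X₂' (u' i)).filter
      (fun a => decide (KM a))) := by
    intro i c1
    have e1 := E₂.nc (u' i) (Or.inl ⟨i, rfl⟩)
    rw [filter_wd, if_neg c1, List.singleton_append] at e1
    have e2 := ((hNC H' M₂ E₂.M_symm).1 _).1 e1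
    rw [(filt KM _ _ KM1 KM2 (u' i)).2]
    refine (hNC H' M Msymm).2.2.2.2 M₂ _ e2 (fun a b h => Or.inr h) fun a ha b hab => ?_
    have h1 := (mem_lst.1 (List.mem_of_mem_filter ha)).2.2
    exact ⟨b, (M2' a h1 b).1 hab⟩
  refine ⟨f, φ, M, ?_⟩
  refine
    { f_hub := f0
      f_mem := ?_
      f_rel := ?_
      f_inj := ?_
      M_symm := Msymm
      M_fun := ?_
      M_mem := ?_
      M_base := ?_
      M_ker := ?_
      φ_mem := ?_
      φ_base := ?_
      φ_inj := ?_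
      rot_eq := ?_
      nc := ?_
      run_in := ?_
      run_out := ?_
      β_bij := ?_ }
  · intro v hv
    rcases Finset.mem_union.1 hv with h | h
    · rw [f1 v (Or.inr h)]; exact Finset.mem_union_left _ (E₁.f_mem v h)
    · rw [f2 v (Or.inr h)]; exact Finset.mem_union_right _ (E₂.f_mem v h)
  · intro v hv
    rcases vtU v hv with h | h
    · rw [f1 v h]; exact E₁.f_rel v h
    · rw [f2 v h]; exact E₂.f_rel v h
  · intro v w hv hw hvw
    rcases Finset.mem_union.1 hv with h | h <;> rcases Finset.mem_union.1 hw with h' | h'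
    · rw [f1 v (Or.inr h), f1 w (Or.inr h')] at hvw
      exact E₁.f_inj _ _ h h' hvw
    · rw [f1 v (Or.inr h), f2 w (Or.inr h')] at hvw
      exact (hdv' _ (E₁.f_mem v h) (hvw ▸ E₂.f_mem w h')).elim
    · rw [f2 v (Or.inr h), f1 w (Or.inr h')] at hvw
      exact (hdv' _ (E₁.f_mem w h') (hvw ▸ E₂.f_mem v h)).elim
    · rw [f2 v (Or.inr h), f2 w (Or.inr h')] at hvw
      exact E₂.f_inj _ _ h h' hvw
  · rintro a b c (h | h) (h' | h')
    · exact E₁.M_fun _ _ _ h h'
    · exact (hd' _ (m1 _ _ h) (m2 _ _ h')).elim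
    · exact (hd' _ (m1 _ _ h') (m2 _ _ h)).elim
    · exact E₂.M_fun _ _ _ h h'
  · rintro a b (h | h)
    · exact ⟨(E₁.M_mem _ _ h).1, inn_union.2 (Or.inl (m1 _ _ h))⟩
    · exact ⟨(E₂.M_mem _ _ h).1, inn_union.2 (Or.inr (m2 _ _ h))⟩
  · rintro a b (h | h)
    · exact E₁.M_base _ _ h
    · exact E₂.M_base _ _ h
  · rintro a b (h | h) hk
    · exact E₁.M_ker _ _ h ((K1' a (m1 _ _ h)).1 hk)
    · exact E₂.M_ker _ _ h ((K2' a (m2 _ _ h)).1 hk)
  · intro h h1 h2
    rcases inn_union.1 h2 with h3 | h3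
    · rw [φ1 h h3]
      exact ⟨(E₁.φ_mem h h1 h3).1, inn_union.2 (Or.inl (E₁.φ_mem h h1 h3).2)⟩
    · rw [φ2 h h3]
      exact ⟨(E₂.φ_mem h h1 h3).1, inn_union.2 (Or.inr (E₂.φ_mem h h1 h3).2)⟩
  · intro h h1 h2
    rcases inn_union.1 h2 with h3 | h3
    · rw [φ1 h h3, f1 _ (vt1 h h3)]; exact E₁.φ_base h h1 h3
    · rw [φ2 h h3, f2 _ (vt2 h h3)]; exact E₂.φ_base h h1 h3
  · intro h h1 k k1 h2 k2 hk
    rcases inn_union.1 h2 with h3 | h3 <;> rcases inn_union.1 k2 with k3 | k3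
    · rw [φ1 h h3, φ1 k k3] at hk
      exact E₁.φ_inj _ h1 _ k1 h3 k3 hk
    · rw [φ1 h h3, φ2 k k3] at hk
      exact (hd' _ (E₁.φ_mem h h1 h3).2 (hk ▸ (E₂.φ_mem k k1 k3).2)).elim
    · rw [φ2 h h3, φ1 k k3] at hk
      exact (hd' _ (E₁.φ_mem k k1 k3).2 (hk ▸ (E₂.φ_mem h h1 h3).2)).elim
    · rw [φ2 h h3, φ2 k k3] at hk
      exact E₂.φ_inj _ h1 _ k1 h3 k3 hk
  · intro v hv
    rcases third v hv with ⟨h, hc⟩ | ⟨h, hc⟩ | ⟨i, rfl, c1, c2⟩
    · have e1 := E₁.rot_eq v h
      have hc' := (cpl_iff E₁ h).1 hc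
      rw [f1 v h, wd_union_left hc, wd_union_left hc']
      have e2 : (wd G' u' X₁' (f₁ v)).filter
          (fun a => decide (okO (Kx G u (X₁ ∪ X₂) φ) a)) =
          (wd G' u' X₁' (f₁ v)).filter (fun a => decide (okO (Kx G u X₁ φ₁) a)) := by
        refine List.filter_congr fun a ha => ?_
        rw [decide_eq_decide]
        cases a with
        | none => exact Iff.rfl
        | some a => exact K1' a (some_mem_wd.1 ha).2.2
      have e3 : (wd G u X₁ v).map (Option.map φ) = (wd G u X₁ v).map (Option.map φ₁) := by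
        refine List.map_congr_left fun a ha => ?_
        cases a with
        | none => rfl
        | some a => simp only [Option.map_some, φ1 a (some_mem_wd.1 ha).2.2]
      rw [e2, e3]
      exact e1
    · have e1 := E₂.rot_eq v h
      have hc' := (cpl_iff E₂ h).1 hc
      rw [f2 v h, wd_union_right hc, wd_union_right hc']
      have e2 : (wd G' u' X₂' (f₂ v)).filter
          (fun a => decide (okO (Kx G u (X₁ ∪ X₂) φ) a)) =
          (wd G' u' X₂' (f₂ v)).filter (fun a => decide (okO (Kx G u X₂ φ₂) a)) := by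
        refine List.filter_congr fun a ha => ?_
        rw [decide_eq_decide]
        cases a with
        | none => exact Iff.rfl
        | some a => exact K2' a (some_mem_wd.1 ha).2.2
      have e3 : (wd G u X₂ v).map (Option.map φ) = (wd G u X₂ v).map (Option.map φ₂) := by
        refine List.map_congr_left fun a ha => ?_
        cases a with
        | none => rfl
        | some a => simp only [Option.map_some, φ2 a (some_mem_wd.1 ha).2.2]
      rw [e2, e3]
      exact e1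
    · rw [f0 i, filter_wd, map_wd, rotHub i c1 c2]
      have e1 := hcpl i
      by_cases hc : cpl G u (X₁ ∪ X₂) (u i)
      · rw [if_pos hc, if_pos (e1.1 hc)]
      · rw [if_neg hc, if_neg (fun h => hc (e1.2 h))]
  · intro x hx
    rcases third' x hx with ⟨h, hc⟩ | ⟨h, hc⟩ | ⟨i, rfl, c1, c2⟩
    · rw [wd_union_left hc]
      have e2 : (wd G' u' X₁' x).filter
          (fun a => decide (okO (fun a => Kx G u (X₁ ∪ X₂) φ a ∨ ∃ b, M a b) a)) =
          (wd G' u' X₁' x).filter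
          (fun a => decide (okO (fun a => Kx G u X₁ φ₁ a ∨ ∃ b, M₁ a b) a)) := by
        refine List.filter_congr fun a ha => ?_
        rw [decide_eq_decide]
        cases a with
        | none => exact Iff.rfl
        | some a =>
          have h1 := (some_mem_wd.1 ha).2.2
          simp only [okO]
          rw [K1' a h1]
          simp only [M1' a h1]
      rw [e2]
      refine (E₁.nc x h).weaken ?_ ?_
      · rintro a b ⟨y, z, rfl, rfl, h⟩
        exact ⟨y, z, rfl, rfl, Or.inl h⟩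
      · rintro a ha b ⟨y, z, rfl, rfl, h⟩
        have h1 := (some_mem_wd.1 (List.mem_of_mem_filter ha)).2.2
        exact ⟨some z, y, z, rfl, rfl, (M1' y h1 z).1 h⟩
    · rw [wd_union_right hc]
      have e2 : (wd G' u' X₂' x).filter
          (fun a => decide (okO (fun a => Kx G u (X₁ ∪ X₂) φ a ∨ ∃ b, M a b) a)) =
          (wd G' u' X₂' x).filter
          (fun a => decide (okO (fun a => Kx G u X₂ φ₂ a ∨ ∃ b, M₂ a b) a)) := by
        refine List.filter_congr fun a ha => ?_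
        rw [decide_eq_decide]
        cases a with
        | none => exact Iff.rfl
        | some a =>
          have h1 := (some_mem_wd.1 ha).2.2
          simp only [okO]
          rw [K2' a h1]
          simp only [M2' a h1]
      rw [e2]
      refine (E₂.nc x h).weaken ?_ ?_
      · rintro a b ⟨y, z, rfl, rfl, h⟩
        exact ⟨y, z, rfl, rfl, Or.inr h⟩
      · rintro a ha b ⟨y, z, rfl, rfl, h⟩
        have h1 := (some_mem_wd.1 (List.mem_of_mem_filter ha)).2.2
        exact ⟨some z, y, z, rfl, rfl, (M2' y h1 z).1 h⟩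
    · have e1 := N1 i c1
      have e2 := N2 i c2
      have e3 : NCL M ((lst G' u' (X₁' ∪ X₂') (u' i)).filter
          (fun a => decide (KM a))) := by
        rcases hcat i with ⟨_, h2⟩ | ⟨_, h2⟩
        · unfold catl at h2
          rw [h2, List.filter_append]
          exact (hNC H' M Msymm).2.2.1 _ _ e1 e2
        · unfold catl at h2
          rw [Finset.union_comm] at h2
          rw [h2, List.filter_append]
          exact (hNC H' M Msymm).2.2.1 _ _ e2 e1
      rw [← hKM, filter_wd]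
      by_cases hc : cpl G' u' (X₁' ∪ X₂') (u' i)
      · rw [if_pos hc, List.nil_append]
        exact (hNC H' M Msymm).2.1 _ e3
      · rw [if_neg hc, List.singleton_append]
        exact ((hNC H' M Msymm).1 _).2 e3
  · intro h h1 h2 h3
    rcases inn_union.1 h2 with h4 | h4 <;> rcases inn_union.1 h3 with h5 | h5
    · obtain ⟨y, h6, h7⟩ := E₁.run_in h h1 h4 h5
      rw [φ1 h h4, φ1 _ h5]
      exact ⟨y, h6.mono fun a b h => Or.inl h, h7⟩
    · -- from `X₁` to `X₂`
      have hb1 : h ∈ bdx G u X₁ := mem_bdx.2 ⟨h1, h4, fun h => hd _ h h5⟩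
      have hb2 : G.opp h ∈ bdx G u X₂ := by
        rw [mem_bdx, G.opp_opp h h1]
        exact ⟨G.opp_mem h h1, h5, fun h => hd _ h4 h⟩
      have h6 := E₁.run_out h hb1
      have h7 := rev E₂.M_symm (fun a b h => (E₂.M_mem a b h).1) (E₂.run_out _ hb2)
      rw [← h12 h hb1 h5, G'.opp_opp _ (mem_bdx.1 (E₁.β_bij.mapsTo hb1)).1] at h7
      rw [φ1 h h4, φ2 _ h5]
      refine ⟨_, (h6.mono fun a b h => Or.inl h).trans (h7.mono fun a b h => Or.inr h), ?_⟩
      exact G'.opp_opp _ (E₂.φ_mem _ (G.opp_mem h h1) h5).1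
    · have hb1 : h ∈ bdx G u X₂ := mem_bdx.2 ⟨h1, h4, fun h => hd _ h5 h⟩
      have hb2 : G.opp h ∈ bdx G u X₁ := by
        rw [mem_bdx, G.opp_opp h h1]
        exact ⟨G.opp_mem h h1, h5, fun h => hd _ h h4⟩
      have h6 := E₂.run_out h hb1
      have h7 := rev E₁.M_symm (fun a b h => (E₁.M_mem a b h).1) (E₁.run_out _ hb2)
      rw [← h21 h hb1 h5, G'.opp_opp _ (mem_bdx.1 (E₂.β_bij.mapsTo hb1)).1] at h7
      rw [φ2 h h4, φ1 _ h5]
      refine ⟨_, (h6.mono fun a b h => Or.inr h).trans (h7.mono fun a b h => Or.inl h), ?_⟩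
      exact G'.opp_opp _ (E₁.φ_mem _ (G.opp_mem h h1) h5).1
    · obtain ⟨y, h6, h7⟩ := E₂.run_in h h1 h4 h5
      rw [φ2 h h4, φ2 _ h5]
      exact ⟨y, h6.mono fun a b h => Or.inr h, h7⟩
  · intro h hh
    obtain ⟨h1, h2, h3⟩ := mem_bdx.1 hh
    rw [inn_union, not_or] at h3
    rcases inn_union.1 h2 with h4 | h4
    · have := E₁.run_out h (mem_bdx.2 ⟨h1, h4, h3.1⟩)
      simp only [h4, if_true]
      rw [φ1 h h4]
      exact this.mono fun a b h => Or.inl h
    · have := E₂.run_out h (mem_bdx.2 ⟨h1, h4, h3.2⟩)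
      have h5 : ¬ inn G u X₁ h := fun h => hd _ h h4
      simp only [h5, if_false]
      rw [φ2 h h4]
      exact this.mono fun a b h => Or.inr h
  · refine ⟨?_, ?_, ?_⟩
    · intro h hh
      obtain ⟨h1, h2, h3⟩ := mem_bdx.1 (Finset.mem_coe.1 hh)
      rw [inn_union, not_or] at h3
      rw [Finset.mem_coe, mem_bdx, inn_union, inn_union, not_or]
      rcases inn_union.1 h2 with h4 | h4
      · have hb : h ∈ bdx G u X₁ := mem_bdx.2 ⟨h1, h4, h3.1⟩
        have h5 := mem_bdx.1 (E₁.β_bij.mapsTo hb)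
        simp only [h4, if_true]
        exact ⟨h5.1, Or.inl h5.2.1, h5.2.2, h1o h hb h3.2⟩
      · have hb : h ∈ bdx G u X₂ := mem_bdx.2 ⟨h1, h4, h3.2⟩
        have h5 := mem_bdx.1 (E₂.β_bij.mapsTo hb)
        have h6 : ¬ inn G u X₁ h := fun h => hd _ h h4
        simp only [h6, if_false]
        exact ⟨h5.1, Or.inr h5.2.1, h2o h hb h3.1, h5.2.2⟩
    · intro h hh k hk hhk
      obtain ⟨h1, h2, h3⟩ := mem_bdx.1 (Finset.mem_coe.1 hh)
      obtain ⟨k1, k2, k3⟩ := mem_bdx.1 (Finset.mem_coe.1 hk)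
      rw [inn_union, not_or] at h3 k3
      rcases inn_union.1 h2 with h4 | h4 <;> rcases inn_union.1 k2 with k4 | k4
      · simp only [h4, k4, if_true] at hhk
        exact E₁.β_bij.injOn (mem_bdx.2 ⟨h1, h4, h3.1⟩) (mem_bdx.2 ⟨k1, k4, k3.1⟩) hhk
      · have k5 : ¬ inn G u X₁ k := fun h => hd _ h k4
        simp only [h4, k5, if_true, if_false] at hhk
        have a1 := (mem_bdx.1 (E₁.β_bij.mapsTo (Finset.mem_coe.2 (mem_bdx.2 ⟨h1, h4, h3.1⟩)))).2.1
        have a2 := (mem_bdx.1 (E₂.β_bij.mapsTo (Finset.mem_coe.2 (mem_bdx.2 ⟨k1, k4, k3.2⟩)))).2.1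
        rw [hhk] at a1
        exact (hd' _ a1 a2).elim
      · have h5 : ¬ inn G u X₁ h := fun h => hd _ h h4
        simp only [k4, h5, if_true, if_false] at hhk
        have a1 := (mem_bdx.1 (E₁.β_bij.mapsTo (Finset.mem_coe.2 (mem_bdx.2 ⟨k1, k4, k3.1⟩)))).2.1
        have a2 := (mem_bdx.1 (E₂.β_bij.mapsTo (Finset.mem_coe.2 (mem_bdx.2 ⟨h1, h4, h3.2⟩)))).2.1
        rw [← hhk] at a1
        exact (hd' _ a1 a2).elim
      · have h5 : ¬ inn G u X₁ h := fun h => hd _ h h4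
        have k5 : ¬ inn G u X₁ k := fun h => hd _ h k4
        simp only [h5, k5, if_false] at hhk
        exact E₂.β_bij.injOn (mem_bdx.2 ⟨h1, h4, h3.2⟩) (mem_bdx.2 ⟨k1, k4, k3.2⟩) hhk
    · intro y hy
      obtain ⟨y1, y2, y3⟩ := mem_bdx.1 (Finset.mem_coe.1 hy)
      rw [inn_union, not_or] at y3
      rcases inn_union.1 y2 with y4 | y4
      · obtain ⟨h, hh, rfl⟩ := E₁.β_bij.surjOn (mem_bdx.2 ⟨y1, y4, y3.1⟩)
        obtain ⟨h1, h2, h3⟩ := mem_bdx.1 (Finset.mem_coe.1 hh)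
        refine ⟨h, ?_, by simp only [h2, if_true]⟩
        rw [Finset.mem_coe, mem_bdx, inn_union, inn_union, not_or]
        refine ⟨h1, Or.inl h2, h3, fun h4 => y3.2 ?_⟩
        rw [h12 h hh h4]
        refine (mem_bdx.1 (E₂.β_bij.mapsTo ?_)).2.1
        rw [Finset.mem_coe, mem_bdx, G.opp_opp h h1]
        exact ⟨G.opp_mem h h1, h4, fun h => hd _ h2 h⟩
      · obtain ⟨h, hh, rfl⟩ := E₂.β_bij.surjOn (mem_bdx.2 ⟨y1, y4, y3.2⟩)
        obtain ⟨h1, h2, h3⟩ := mem_bdx.1 (Finset.mem_coe.1 hh)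
        have h5 : ¬ inn G u X₁ h := fun h => hd _ h h2
        refine ⟨h, ?_, by simp only [h5, if_false]⟩
        rw [Finset.mem_coe, mem_bdx, inn_union, inn_union, not_or]
        refine ⟨h1, Or.inr h2, fun h4 => y3.1 ?_, h3⟩
        rw [h21 h hh h4]
        refine (mem_bdx.1 (E₁.β_bij.mapsTo ?_)).2.1
        rw [Finset.mem_coe, mem_bdx, G.opp_opp h h1]
        exact ⟨G.opp_mem h h1, h4, fun h => hd _ h h2⟩

end RotWqo.Arc.Union6
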