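import Pool.Agent.Lib.MP_cb4a0f_co.Arc.NC22
import Pool.Agent.Lib.MP_cb4a0f_co.Arc.Trans21
import Pool.Agent.Lib.MP_cb4a0f_co.Arc.Union6
import Pool.Agent.Lib.MP_cb4a0f_co.Arc.LeafV21
import Pool.Agent.Lib.MP_cb4a0f_co.Arc.Glue21
import Pool.Agent.Lib.MP_cb4a0f_co.Arc.Link94
import Pool.Agent.Lib.MP_cb4a0f_co.Arc.Abs22
import Pool.Agent.Lib.MP_cb4a0f_co.Arc.Linked6
import Pool.Agent.Lib.MP_cb4a0f_co.Arc.Final21
import Pool.Agent.Lib.MP_cb4a0f_co.Arc.Main22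

/-!
# MP_cb4a0f_co: rotated graphs with few hubs and bounded arc carving width, the theorem
-/

namespace RotWqo.Arc

universe u v w

theorem wqo_arcs : StMain.{u, v, w} :=
  stMain_22 stTrans_21 stLeafV_21 stLeafH_21 (stGlue_21 stTrans_21 (Union6.stUnion_6 stNC_22))
    stLink_94 (Linked6.stLinked_6 stAbs_22) stFinal_21

end RotWqo.Arc
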