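import Pool.Agent.Lib.MP_cb4a0f_co.Main

/-!
# MP_cb4a0f_co: rotated graphs with few hubs and bounded arc carving width

Definitions. The hubs are the vertices `u i` (`i : Fin n`); a unit is a vertex which is not a hub
or a half-edge at a hub. A piece is a set `X` of units.
-/

open Classical

namespace RotWqo.Arc

variable {V H V' H' V'' H'' : Type*} {n : ℕ}

/-- `v` is one of the hubs. -/
def IsHub (u : Fin n → V) (v : V) : Prop := ∃ i, u i = v

/-- The half-edge `h` belongs to the set `X` of units: `h` itself if its end is a hub, the end of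
`h` otherwise. -/
def inn (G : RotGraph V H) (u : Fin n → V) (X : Finset (V ⊕ H)) (h : H) : Prop :=
  (IsHub u (G.base h) ∧ Sum.inr h ∈ X) ∨ (¬ IsHub u (G.base h) ∧ Sum.inl (G.base h) ∈ X)

/-- The units: the vertices which are not hubs and the half-edges at the hubs. -/
noncomputable def units (G : RotGraph V H) (u : Fin n → V) : Finset (V ⊕ H) :=
  (G.verts.filter (fun v => ¬ IsHub u v)).disjSum (G.darts.filter (fun h => IsHub u (G.base h)))

/-- The half-edges in `X` whose other half is not in `X`. -/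
noncomputable def bdx (G : RotGraph V H) (u : Fin n → V) (X : Finset (V ⊕ H)) : Finset H :=
  G.darts.filter (fun h => inn G u X h ∧ ¬ inn G u X (G.opp h))

/-- The number of edges with exactly one half in `X`. -/
noncomputable def ecut (G : RotGraph V H) (u : Fin n → V) (X : Finset (V ⊕ H)) : ℕ :=
  (bdx G u X).card

/-- The half-edges at `v` in `X` are consecutive in the list `G.rot v`. -/
def Seg (G : RotGraph V H) (X : Finset (V ⊕ H)) (v : V) : Prop :=
  ∃ l₁ l₂ l₃ : List H, G.rot v = l₁ ++ l₂ ++ l₃ ∧ ∀ h ∈ G.rot v, Sum.inr h ∈ X ↔ h ∈ l₂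

/-- `t` is an arc carving of `G` of width at most `k` with the hubs `u`: its leaves are the units,
each once; below every node the half-edges at each hub are consecutive in the list of the hub, and
at most `k` edges have exactly one half below the node. -/
def IsArcCarving (k : ℕ) (G : RotGraph V H) (u : Fin n → V) (t : Tree (V ⊕ H)) : Prop :=
  t.leaves.Nodup ∧ t.set = units G u ∧
    ∀ s, IsSub s t → (∀ i, Seg G s.set (u i)) ∧ ecut G u s.set ≤ k

/-- At most `k` hubs (of any degree), all other vertices of degree at most `k`, and an arc carving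
of width at most `k` (if there are units at all). -/
def ArcWidthLE (k : ℕ) (G : RotGraph V H) : Prop :=
  ∃ (n : ℕ) (u : Fin n → V), n ≤ k ∧ Function.Injective u ∧ (∀ i, u i ∈ G.verts) ∧
    (∀ v, ¬ IsHub u v → (G.rot v).length ≤ k) ∧
    (units G u = ∅ ∨ ∃ t, IsArcCarving k G u t)

/-! ## Pieces -/

/-- The vertices touched by a piece: the hubs and the vertices in it. -/
def vt (u : Fin n → V) (X : Finset (V ⊕ H)) (v : V) : Prop := IsHub u v ∨ Sum.inl v ∈ X

/-- All half-edges at `v` are in `X`. -/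
def cpl (G : RotGraph V H) (u : Fin n → V) (X : Finset (V ⊕ H)) (v : V) : Prop :=
  ∀ h ∈ G.rot v, inn G u X h

/-- The half-edges at `v` in `X`, as a linear list. -/
noncomputable def lst (G : RotGraph V H) (u : Fin n → V) (X : Finset (V ⊕ H)) (v : V) : List H :=
  (G.rot v).filter (fun h => decide (inn G u X h))

/-- The cyclic word of the half-edges at `v` in `X`, with one letter `none` in the place of the
half-edges which are not in `X`. -/
noncomputable def wd (G : RotGraph V H) (u : Fin n → V) (X : Finset (V ⊕ H)) (v : V) :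
    List (Option H) :=
  (if cpl G u X v then [] else [none]) ++ (lst G u X v).map some

/-- The half-edges used by the branch vertices. -/
def Kx (G : RotGraph V H) (u : Fin n → V) (X : Finset (V ⊕ H)) (φ : H → H') (a : H') : Prop :=
  ∃ h ∈ G.darts, inn G u X h ∧ φ h = a

/-- `p` on half-edges, true on the marker. -/
def okO (p : H → Prop) : Option H → Prop
  | none => True
  | some a => p a

/-- The relation `M` on half-edges; the marker is not matched. -/
def liftO (M : H → H → Prop) (a b : Option H) : Prop := ∃ x y, a = some x ∧ b = some y ∧ M x y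

/-- Data of an embedding of the piece `(G, X)` in the piece `(G', X')`. -/
structure PED (r : V → V' → Prop) (G : RotGraph V H) (u : Fin n → V) (X : Finset (V ⊕ H))
    (G' : RotGraph V' H') (u' : Fin n → V') (X' : Finset (V' ⊕ H')) (β : H → H') (f : V → V')
    (φ : H → H') (M : H' → H' → Prop) : Prop where
  f_hub : ∀ i, f (u i) = u' i
  f_mem : ∀ v, Sum.inl v ∈ X → Sum.inl (f v) ∈ X'
  f_rel : ∀ v, vt u X v → r v (f v)
  f_inj : ∀ v w, Sum.inl v ∈ X → Sum.inl w ∈ X → f v = f w → v = w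
  M_symm : ∀ a b, M a b → M b a
  M_fun : ∀ a b c, M a b → M a c → b = c
  M_mem : ∀ a b, M a b → a ∈ G'.darts ∧ inn G' u' X' a
  M_base : ∀ a b, M a b → G'.base b = G'.base a
  M_ker : ∀ a b, M a b → ¬ Kx G u X φ a
  φ_mem : ∀ h ∈ G.darts, inn G u X h → φ h ∈ G'.darts ∧ inn G' u' X' (φ h)
  φ_base : ∀ h ∈ G.darts, inn G u X h → G'.base (φ h) = f (G.base h)
  φ_inj : ∀ h ∈ G.darts, ∀ h' ∈ G.darts, inn G u X h → inn G u X h' → φ h = φ h' → h = h'
  rot_eq : ∀ v, vt u X v → (wd G' u' X' (f v)).filter (fun a => decide (okO (Kx G u X φ) a)) ~r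
    (wd G u X v).map (Option.map φ)
  nc : ∀ x, vt u' X' x → NC (liftO M)
    ((wd G' u' X' x).filter (fun a => decide (okO (fun a => Kx G u X φ a ∨ ∃ b, M a b) a)))
  run_in : ∀ h ∈ G.darts, inn G u X h → inn G u X (G.opp h) →
    ∃ y, Run G'.opp M (φ h) y ∧ G'.opp y = φ (G.opp h)
  run_out : ∀ h ∈ bdx G u X, Run G'.opp M (φ h) (β h)
  β_bij : Set.BijOn β (bdx G u X : Set H) (bdx G' u' X' : Set H')

/-- The status of a hub: 2 if all its half-edges are in `X`, 1 if some but not all, 0 if none. -/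
noncomputable def st (G : RotGraph V H) (u : Fin n → V) (X : Finset (V ⊕ H)) (i : Fin n) : ℕ :=
  if cpl G u X (u i) then 2 else if ∃ h ∈ G.rot (u i), inn G u X h then 1 else 0

/-- The sum of the statuses. -/
noncomputable def pot (G : RotGraph V H) (u : Fin n → V) (X : Finset (V ⊕ H)) : ℕ :=
  ∑ i, st G u X i

/-- Convexity: the half-edges in `X` at each hub are consecutive, in terms of the places. -/
def Cv (G : RotGraph V H) (u : Fin n → V) (X : Finset (V ⊕ H)) : Prop :=
  ∀ i, ∀ a ∈ G.rot (u i), ∀ b ∈ G.rot (u i), ∀ c ∈ G.rot (u i),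
    (G.rot (u i)).idxOf a < (G.rot (u i)).idxOf b → (G.rot (u i)).idxOf b < (G.rot (u i)).idxOf c →
    Sum.inr a ∈ X → Sum.inr c ∈ X → Sum.inr b ∈ X

/-- The list of the half-edges at `v` in `X` or `Y` is the list for `X` followed by that
for `Y`. -/
def catl (G : RotGraph V H) (u : Fin n → V) (X Y : Finset (V ⊕ H)) (v : V) : Prop :=
  lst G u (X ∪ Y) v = lst G u X v ++ lst G u Y v

/-- Linear noncrossing words: the matched letters can be removed by removing adjacent matched
pairs. -/
inductive NCL {H : Type*} (M : H → H → Prop) : List H → Prop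
  | done (l : List H) : (∀ a ∈ l, ∀ b, ¬ M a b) → NCL M l
  | pair (l₁ : List H) (a b : H) (l₂ : List H) : M a b → NCL M (l₁ ++ l₂) →
      NCL M (l₁ ++ a :: b :: l₂)

/-! ## Elementary facts -/

theorem mem_units {G : RotGraph V H} {u : Fin n → V} {x : V ⊕ H} :
    x ∈ units G u ↔ (∃ v ∈ G.verts, ¬ IsHub u v ∧ x = Sum.inl v) ∨
      ∃ h ∈ G.darts, IsHub u (G.base h) ∧ x = Sum.inr h := by
  unfold units
  rw [Finset.mem_disjSum]
  simp only [Finset.mem_filter]
  constructor
  · rintro (⟨a, ⟨h1, h2⟩, rfl⟩ | ⟨a, ⟨h1, h2⟩, rfl⟩)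
    · exact Or.inl ⟨a, h1, h2, rfl⟩
    · exact Or.inr ⟨a, h1, h2, rfl⟩
  · rintro (⟨a, h1, h2, rfl⟩ | ⟨a, h1, h2, rfl⟩)
    · exact Or.inl ⟨a, ⟨h1, h2⟩, rfl⟩
    · exact Or.inr ⟨a, ⟨h1, h2⟩, rfl⟩

theorem inl_mem_units {G : RotGraph V H} {u : Fin n → V} {v : V} :
    (Sum.inl v : V ⊕ H) ∈ units G u ↔ v ∈ G.verts ∧ ¬ IsHub u v := by
  simp [units]

theorem inr_mem_units {G : RotGraph V H} {u : Fin n → V} {h : H} :
    (Sum.inr h : V ⊕ H) ∈ units G u ↔ h ∈ G.darts ∧ IsHub u (G.base h) := by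
  simp [units]

theorem mem_bdx {G : RotGraph V H} {u : Fin n → V} {X : Finset (V ⊕ H)} {h : H} :
    h ∈ bdx G u X ↔ h ∈ G.darts ∧ inn G u X h ∧ ¬ inn G u X (G.opp h) := by
  simp [bdx]

theorem inn_union {G : RotGraph V H} {u : Fin n → V} {X Y : Finset (V ⊕ H)} {h : H} :
    inn G u (X ∪ Y) h ↔ inn G u X h ∨ inn G u Y h := by
  unfold inn
  simp only [Finset.mem_union]
  tauto

theorem inn_inter {G : RotGraph V H} {u : Fin n → V} {X Y : Finset (V ⊕ H)} {h : H} :
    inn G u (X ∩ Y) h ↔ inn G u X h ∧ inn G u Y h := by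
  unfold inn
  simp only [Finset.mem_inter]
  tauto

theorem inn_sdiff {G : RotGraph V H} {u : Fin n → V} {X Y : Finset (V ⊕ H)} {h : H} :
    inn G u (X \ Y) h ↔ inn G u X h ∧ ¬ inn G u Y h := by
  unfold inn
  simp only [Finset.mem_sdiff]
  tauto

theorem inn_mono {G : RotGraph V H} {u : Fin n → V} {X Y : Finset (V ⊕ H)} (hXY : X ⊆ Y) {h : H}
    (hh : inn G u X h) : inn G u Y h := by
  rcases hh with ⟨h1, h2⟩ | ⟨h1, h2⟩
  · exact Or.inl ⟨h1, hXY h2⟩
  · exact Or.inr ⟨h1, hXY h2⟩

theorem inn_units {G : RotGraph V H} {u : Fin n → V} {h : H} (hh : h ∈ G.darts) :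
    inn G u (units G u) h := by
  by_cases hb : IsHub u (G.base h)
  · exact Or.inl ⟨hb, inr_mem_units.2 ⟨hh, hb⟩⟩
  · exact Or.inr ⟨hb, inl_mem_units.2 ⟨G.base_mem h hh, hb⟩⟩

theorem inn_hub {G : RotGraph V H} {u : Fin n → V} {X : Finset (V ⊕ H)} {h : H}
    (hb : IsHub u (G.base h)) : inn G u X h ↔ Sum.inr h ∈ X := by
  unfold inn
  tauto

theorem inn_nonhub {G : RotGraph V H} {u : Fin n → V} {X : Finset (V ⊕ H)} {h : H}
    (hb : ¬ IsHub u (G.base h)) : inn G u X h ↔ Sum.inl (G.base h) ∈ X := by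
  unfold inn
  tauto

/-- Half-edges in disjoint sets of units are different. -/
theorem inn_disj {G : RotGraph V H} {u : Fin n → V} {X Y : Finset (V ⊕ H)} (hXY : Disjoint X Y)
    {h : H} (h1 : inn G u X h) (h2 : inn G u Y h) : False := by
  rcases h1 with ⟨h1, h3⟩ | ⟨h1, h3⟩ <;> rcases h2 with ⟨h2, h4⟩ | ⟨h2, h4⟩
  · exact Finset.disjoint_left.1 hXY h3 h4
  · exact h2 h1
  · exact h1 h2
  · exact Finset.disjoint_left.1 hXY h3 h4

theorem mem_lst {G : RotGraph V H} {u : Fin n → V} {X : Finset (V ⊕ H)} {v : V} {h : H} :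
    h ∈ lst G u X v ↔ h ∈ G.darts ∧ G.base h = v ∧ inn G u X h := by
  unfold lst
  rw [List.mem_filter, G.mem_rot]
  simp only [decide_eq_true_eq, and_assoc]

theorem some_mem_wd {G : RotGraph V H} {u : Fin n → V} {X : Finset (V ⊕ H)} {v : V} {h : H} :
    some h ∈ wd G u X v ↔ h ∈ G.darts ∧ G.base h = v ∧ inn G u X h := by
  unfold wd
  rw [List.mem_append, List.mem_map]
  constructor
  · rintro (h1 | ⟨a, h1, h2⟩)
    · split_ifs at h1 <;> simp at h1
    · cases h2
      exact mem_lst.1 h1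
  · intro h1
    exact Or.inr ⟨h, mem_lst.2 h1, rfl⟩

theorem none_mem_wd {G : RotGraph V H} {u : Fin n → V} {X : Finset (V ⊕ H)} {v : V} :
    none ∈ wd G u X v ↔ ¬ cpl G u X v := by
  unfold wd
  by_cases hc : cpl G u X v
  · simp [hc]
  · simp [hc]

/-- At a vertex of the piece which is not a hub all half-edges are in the piece. -/
theorem cpl_of_mem {G : RotGraph V H} {u : Fin n → V} {X : Finset (V ⊕ H)} {v : V}
    (hv : ¬ IsHub u v) (hX : Sum.inl v ∈ X) : cpl G u X v := by
  intro h hh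
  have h1 := ((G.mem_rot v h).1 hh).2
  exact Or.inr ⟨h1 ▸ hv, h1 ▸ hX⟩

theorem wd_of_cpl {G : RotGraph V H} {u : Fin n → V} {X : Finset (V ⊕ H)} {v : V}
    (hc : cpl G u X v) : wd G u X v = (G.rot v).map some := by
  unfold wd lst
  rw [if_pos hc, List.nil_append, List.filter_eq_self.2]
  intro a ha
  simpa using hc a ha

theorem wd_of_not_cpl {G : RotGraph V H} {u : Fin n → V} {X : Finset (V ⊕ H)} {v : V}
    (hc : ¬ cpl G u X v) : wd G u X v = none :: (lst G u X v).map some := by
  unfold wd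
  rw [if_neg hc, List.singleton_append]

end RotWqo.Arc
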