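import Pool.Agent.Lib.MP_cb4a0f_co.Arc.Refl

/-!
# MP_cb4a0f_co, arc carvings: the theorem from the parts
-/

open Classical

namespace RotWqo.Arc

universe u v w

namespace Main22

/-! ### Well-quasi-orders -/

theorem wqo_pi {Q : Type*} {q : Q → Q → Prop} [IsPreorder Q q] (hq : WellQuasiOrdered q) (n : ℕ) :
    WellQuasiOrdered (fun a b : Fin n → Q => ∀ i, q (a i) (b i)) := by
  induction n with
  | zero => exact fun f => ⟨0, 1, Nat.zero_lt_one, fun i => i.elim0⟩
  | succ n ih =>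
    intro f
    have : IsPreorder (Fin n → Q) (fun a b : Fin n → Q => ∀ i, q (a i) (b i)) :=
      { refl := fun a i => _root_.refl _
        trans := fun a b c h1 h2 i => _root_.trans (h1 i) (h2 i) }
    obtain ⟨a, b, hab, h1, h2⟩ := (hq.prod ih) (fun m => (f m 0, Fin.tail (f m)))
    exact ⟨a, b, hab, fun i => Fin.cases h1 (fun j => h2 j) i⟩

/-! ### Paths -/

theorem pathGe {W : ℕ → Type*} {T : ∀ i, Tree (W i)} (d : ∀ i, Finset (W i) → ℕ) {m : ℕ}
    {x y : Elt W T} (h : Desc Ch (fun x : Elt W T => d x.i x.t.set) m x y) :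
    ∃ i, ∃ b a : Tree (W i), ∃ hb ha, x = ⟨i, b, hb⟩ ∧ y = ⟨i, a, ha⟩ ∧
      PathGe (d i) m a b := by
  induction h with
  | refl x hx => exact ⟨x.i, x.t, x.t, x.h, x.h, rfl, rfl, .refl hx⟩
  | step x z y hx hxz _ ih =>
    obtain ⟨i, b, a, hb, ha, hz0, hy0, hp⟩ := ih
    obtain ⟨l, r, hlr, hz⟩ := hxz
    have hx' : m ≤ d x.i x.t.set := hx
    rcases hz with ⟨h, hz⟩ | ⟨h, hz⟩
    · rw [hz0] at hz
      cases hz
      refine ⟨x.i, x.t, a, x.h, ha, rfl, hy0, ?_⟩
      rw [hlr] at hx' ⊢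
      exact .left _ _ hx' hp
    · rw [hz0] at hz
      cases hz
      refine ⟨x.i, x.t, a, x.h, ha, rfl, hy0, ?_⟩
      rw [hlr] at hx' ⊢
      exact .right _ _ hx' hp

section

variable {V H V' H' : Type*} {n : ℕ}

theorem set_node (l r : Tree (V ⊕ H)) : (Tree.node l r).set = l.set ∪ r.set := by
  ext x
  rw [TL.mem_set, Finset.mem_union, TL.mem_set, TL.mem_set]
  simp [Tree.leaves]

theorem st_le (G : RotGraph V H) (u : Fin n → V) (X : Finset (V ⊕ H)) (i : Fin n) :
    st G u X i ≤ 2 := by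
  unfold st
  split_ifs <;> omega

theorem pot_le (G : RotGraph V H) (u : Fin n → V) (X : Finset (V ⊕ H)) : pot G u X ≤ 2 * n := by
  unfold pot
  calc ∑ i, st G u X i ≤ ∑ _i : Fin n, 2 := Finset.sum_le_sum fun i _ => st_le G u X i
    _ = 2 * n := by simp [mul_comm]

theorem st_two {G : RotGraph V H} {u : Fin n → V} {X : Finset (V ⊕ H)} {i : Fin n} :
    st G u X i = 2 ↔ cpl G u X (u i) := by
  unfold st
  constructor
  · intro h
    by_contra hc
    rw [if_neg hc] at h
    split_ifs at h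
    omega
  · intro h
    rw [if_pos h]

/-- Graphs without units. -/
theorem ped_empty [Nonempty V'] [Nonempty H'] (r : V → V' → Prop) (G : RotGraph V H)
    (u : Fin n → V) (G' : RotGraph V' H') (u' : Fin n → V') (hu : Function.Injective u)
    (h0 : units G u = ∅) (h0' : units G' u' = ∅) (hr : ∀ i, r (u i) (u' i)) :
    ∃ β f φ M, PED r G u (units G u) G' u' (units G' u') β f φ M := by
  have hd : ∀ h, h ∉ G.darts := by
    intro h hh
    by_cases hb : IsHub u (G.base h)
    · have : (Sum.inr h : V ⊕ H) ∈ units G u := inr_mem_units.2 ⟨hh, hb⟩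
      rw [h0] at this
      exact absurd this (Finset.notMem_empty _)
    · have : (Sum.inl (G.base h) : V ⊕ H) ∈ units G u := inl_mem_units.2 ⟨G.base_mem h hh, hb⟩
      rw [h0] at this
      exact absurd this (Finset.notMem_empty _)
  have hd' : ∀ h, h ∉ G'.darts := by
    intro h hh
    by_cases hb : IsHub u' (G'.base h)
    · have : (Sum.inr h : V' ⊕ H') ∈ units G' u' := inr_mem_units.2 ⟨hh, hb⟩
      rw [h0'] at this
      exact absurd this (Finset.notMem_empty _)
    · have : (Sum.inl (G'.base h) : V' ⊕ H') ∈ units G' u' :=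
        inl_mem_units.2 ⟨G'.base_mem h hh, hb⟩
      rw [h0'] at this
      exact absurd this (Finset.notMem_empty _)
  have hrot : ∀ v, G.rot v = [] := fun v =>
    List.eq_nil_iff_forall_not_mem.2 fun h hh => hd h ((G.mem_rot v h).1 hh).1
  have hrot' : ∀ v, G'.rot v = [] := fun v =>
    List.eq_nil_iff_forall_not_mem.2 fun h hh => hd' h ((G'.mem_rot v h).1 hh).1
  have hwd : ∀ v, wd G u ∅ v = [] := by
    intro v
    rw [wd_of_cpl (by intro h hh; rw [hrot] at hh; cases hh), hrot, List.map_nil]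
  have hwd' : ∀ v, wd G' u' ∅ v = [] := by
    intro v
    rw [wd_of_cpl (by intro h hh; rw [hrot'] at hh; cases hh), hrot', List.map_nil]
  have hf : ∃ f : V → V', ∀ i, f (u i) = u' i := by
    refine ⟨fun v => if h : ∃ i, u i = v then u' h.choose else Classical.arbitrary V', fun i => ?_⟩
    have h1 : ∃ j, u j = u i := ⟨i, rfl⟩
    show (if h : ∃ j, u j = u i then u' h.choose else Classical.arbitrary V') = u' i
    rw [dif_pos h1, hu h1.choose_spec]
  obtain ⟨f, hf⟩ := hf
  rw [h0, h0']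
  refine ⟨fun _ => Classical.arbitrary H', f, fun _ => Classical.arbitrary H',
    fun _ _ => False, ?_⟩
  refine
    { f_hub := hf
      f_mem := fun _ h => absurd h (Finset.notMem_empty _)
      f_rel := ?_
      f_inj := fun _ _ h => absurd h (Finset.notMem_empty _)
      M_symm := fun _ _ h => h
      M_fun := fun _ _ _ h => h.elim
      M_mem := fun _ _ h => h.elim
      M_base := fun _ _ h => h.elim
      M_ker := fun _ _ h => h.elim
      φ_mem := fun h h1 _ => absurd h1 (hd h)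
      φ_base := fun h h1 _ => absurd h1 (hd h)
      φ_inj := fun h h1 => absurd h1 (hd h)
      rot_eq := ?_
      nc := ?_
      run_in := fun h h1 => absurd h1 (hd h)
      run_out := fun h h1 => absurd (mem_bdx.1 h1).1 (hd h)
      β_bij := ?_ }
  · rintro v (⟨i, rfl⟩ | h)
    · rw [hf]
      exact hr i
    · exact absurd h (Finset.notMem_empty _)
  · intro v _
    rw [hwd, hwd']
    simp
  · intro x _
    rw [hwd']
    exact .done _ fun a ha => by simp at ha
  · have e1 : bdx G u ∅ = ∅ := by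
      rw [Finset.eq_empty_iff_forall_notMem]
      exact fun h hh => hd h (mem_bdx.1 hh).1
    have e2 : bdx G' u' ∅ = ∅ := by
      rw [Finset.eq_empty_iff_forall_notMem]
      exact fun h hh => hd' h (mem_bdx.1 hh).1
    rw [e1, e2]
    simp [Set.BijOn, Set.SurjOn]

end

/-! ### Leaves -/

/-- The vertex of a unit. -/
def vx {V H : Type*} (G : RotGraph V H) (x : V ⊕ H) : V := Sum.elim id G.base x

theorem leaf (hLV : StLeafV.{u, v}) (hLH : StLeafH.{u, v}) (k n : ℕ) {Q : Type w}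
    (q : Q → Q → Prop) [IsPreorder Q q] (hq : WellQuasiOrdered q) (V : ℕ → Type u)
    (H : ℕ → Type v) [∀ i, Nonempty (V i)] [∀ i, Nonempty (H i)] (G : ∀ i, RotGraph (V i) (H i))
    (lab : ∀ i, V i → Q) (u : ∀ i, Fin n → V i) (hu : ∀ i, Function.Injective (u i))
    (hk : ∀ i v, ¬ IsHub (u i) v → ((G i).rot v).length ≤ k)
    (x : ∀ i, V i ⊕ H i) (hx : ∀ i, x i ∈ units (G i) (u i)) :
    ∃ m l, m < l ∧ (∀ i, st (G m) (u m) {x m} i = st (G l) (u l) {x l} i) ∧
      ∃ β f φ M, PED (fun a b => q (lab m a) (lab l b)) (G m) (u m) {x m} (G l) (u l) {x l}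
        β f φ M := by
  let D := (Fin n → Fin 3) × Finset (Fin n) × Fin (k + 1) × Finset (Fin k × Fin k)
  have hD : WellQuasiOrdered (fun a b : D => a = b) := Finite.wellQuasiOrdered _
  have : IsPreorder (Fin n → Q) (fun a b : Fin n → Q => ∀ i, q (a i) (b i)) :=
    { refl := fun a i => _root_.refl _
      trans := fun a b c h1 h2 i => _root_.trans (h1 i) (h2 i) }
  have hP := (wqo_pi hq n).prod (hq.prod hD)
  obtain ⟨m, l, hml, h1, h2, h3⟩ := hP (fun i => (fun j => lab i (u i j),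
    lab i (vx (G i) (x i)),
    ((fun j => ⟨st (G i) (u i) {x i} j, Nat.lt_succ_of_le (st_le _ _ _ _)⟩,
      Finset.univ.filter (fun j => ∃ h, x i = Sum.inr h ∧ u i j = (G i).base h),
      ⟨min k ((G i).rot (vx (G i) (x i))).length, Nat.lt_succ_of_le (min_le_left _ _)⟩,
      pat k (G i) (vx (G i) (x i))) : D)))
  have h4 : ∀ i, st (G m) (u m) {x m} i = st (G l) (u l) {x l} i := fun i =>
    congrArg (fun p : D => ((p.1 i : Fin 3) : ℕ)) h3
  have h5 : Finset.univ.filter (fun j => ∃ h, x m = Sum.inr h ∧ u m j = (G m).base h) =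
      Finset.univ.filter (fun j => ∃ h, x l = Sum.inr h ∧ u l j = (G l).base h) :=
    congrArg (fun p : D => p.2.1) h3
  have h6 : min k ((G m).rot (vx (G m) (x m))).length =
      min k ((G l).rot (vx (G l) (x l))).length := congrArg (fun p : D => (p.2.2.1 : ℕ)) h3
  have h7 : pat k (G m) (vx (G m) (x m)) = pat k (G l) (vx (G l) (x l)) :=
    congrArg (fun p : D => p.2.2.2) h3
  have h1 : ∀ i, q (lab m (u m i)) (lab l (u l i)) := h1
  have h2 : q (lab m (vx (G m) (x m))) (lab l (vx (G l) (x l))) := h2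
  clear h3
  refine ⟨m, l, hml, h4, ?_⟩
  have hcpl : ∀ i, cpl (G m) (u m) {x m} (u m i) ↔ cpl (G l) (u l) {x l} (u l i) := by
    intro i
    rw [← st_two, ← st_two, h4]
  have hcase : ∀ i, (∃ v, x i = Sum.inl v ∧ v ∈ (G i).verts ∧ ¬ IsHub (u i) v) ∨
      ∃ h j, x i = Sum.inr h ∧ h ∈ (G i).darts ∧ u i j = (G i).base h := by
    intro i
    rcases mem_units.1 (hx i) with ⟨v, h8, h9, h10⟩ | ⟨h, h8, ⟨j, h9⟩, h10⟩
    · exact Or.inl ⟨v, h10, h8, h9⟩
    · exact Or.inr ⟨h, j, h10, h8, h9⟩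
  rcases hcase m with ⟨v, hv1, hv2, hv3⟩ | ⟨h, j, hh1, hh2, hh3⟩
  · rcases hcase l with ⟨v', hv1', hv2', hv3'⟩ | ⟨h', j', hh1', hh2', hh3'⟩
    · rw [hv1, hv1'] at h2 h6 h7 hcpl
      rw [hv1, hv1']
      have h8 := hk m v hv3
      have h9 := hk l v' hv3'
      have h6 : min k ((G m).rot v).length = min k ((G l).rot v').length := h6
      rw [min_eq_right h8, min_eq_right h9] at h6
      exact hLV n k (V m) (V l) (H m) (H l) _ (G m) (u m) (G l) (u l) v v' (hu m) (hu l) hv2 hv2'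
        hv3 hv3' h1 h2 hcpl h8 h6 h7
    · exfalso
      have h8 : j' ∈ Finset.univ.filter (fun j => ∃ h, x l = Sum.inr h ∧ u l j = (G l).base h) :=
        Finset.mem_filter.2 ⟨Finset.mem_univ _, h', hh1', hh3'⟩
      rw [← h5] at h8
      obtain ⟨-, h9, h10, -⟩ := Finset.mem_filter.1 h8
      rw [hv1] at h10
      cases h10
  · have h8 : j ∈ Finset.univ.filter (fun j => ∃ h, x m = Sum.inr h ∧ u m j = (G m).base h) :=
      Finset.mem_filter.2 ⟨Finset.mem_univ _, h, hh1, hh3⟩
    rw [h5] at h8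
    obtain ⟨-, h', h10, h11⟩ := Finset.mem_filter.1 h8
    have h12 : h' ∈ (G l).darts := by
      have h13 := hx l
      rw [h10] at h13
      exact (inr_mem_units.1 h13).1
    rw [hh1, h10] at hcpl
    rw [hh1, h10]
    exact hLH n (V m) (V l) (H m) (H l) _ (G m) (u m) (G l) (u l) j h h' (hu m) (hu l) hh2 h12
      hh3.symm h11.symm h1 hcpl

/-! ### The main argument -/

theorem core (hT : StTrans.{u, v}) (hLV : StLeafV.{u, v}) (hLH : StLeafH.{u, v})
    (hGl : StGlue.{u, v, w}) (hLk : StLink.{u, v}) (hLd : StLinked.{u, v})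
    (hF : StFinal.{u, v}) (k n : ℕ) {Q : Type w}
    (q : Q → Q → Prop) [IsPreorder Q q] (hq : WellQuasiOrdered q) (V : ℕ → Type u)
    (H : ℕ → Type v) [∀ i, Nonempty (V i)] [∀ i, Nonempty (H i)] (G : ∀ i, RotGraph (V i) (H i))
    (lab : ∀ i, V i → Q) (u : ∀ i, Fin n → V i) (hu : ∀ i, Function.Injective (u i))
    (hv : ∀ i j, u i j ∈ (G i).verts)
    (hk : ∀ i v, ¬ IsHub (u i) v → ((G i).rot v).length ≤ k)
    (ht : ∀ i, ∃ t, IsArcCarving k (G i) (u i) t) :
    ∃ i j, i < j ∧ Imm (fun v w => q (lab i v) (lab j w)) (G i) (G j) := by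
  have hT0 : ∀ i, ∃ t' : Tree (V i ⊕ H i), t'.leaves.Nodup ∧ t'.set = units (G i) (u i) ∧
      (∀ s, IsSub s t' → Cv (G i) (u i) s.set ∧ ecut (G i) (u i) s.set ≤ k * 2 ^ n) ∧
      ∀ b a m, IsSub b t' → PathGe (rho k (G i) (u i)) m a b → rho k (G i) (u i) b.set = m →
        rho k (G i) (u i) a.set = m →
        (∀ j, st (G i) (u i) a.set j = st (G i) (u i) b.set j) ∧
        ecut (G i) (u i) a.set = ecut (G i) (u i) b.set ∧
          ∀ X, a.set ⊆ X → X ⊆ b.set → Cv (G i) (u i) X →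
            ecut (G i) (u i) a.set ≤ ecut (G i) (u i) X := by
    intro i
    obtain ⟨t, h1⟩ := ht i
    exact hLd n k (V i) (H i) (G i) (u i) t (hu i) h1
  choose T hT1 hT2 hT3 hT4 using hT0
  have hsu : ∀ x : Elt (fun i => V i ⊕ H i) T, x.t.set ⊆ units (G x.i) (u x.i) := fun x =>
    hT2 x.i ▸ x.h.set_subset
  set le : Elt (fun i => V i ⊕ H i) T → Elt (fun i => V i ⊕ H i) T → Prop := fun x y =>
    (∀ j, st (G x.i) (u x.i) x.t.set j = st (G y.i) (u y.i) y.t.set j) ∧
    ∃ β f φ M, PED (fun v w => q (lab x.i v) (lab y.i w)) (G x.i) (u x.i) x.t.set (G y.i)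
      (u y.i) y.t.set β f φ M with hle
  have : IsPreorder (Elt (fun i => V i ⊕ H i) T) le :=
    { refl := fun x => ⟨fun _ => rfl, id, id, id, _,
        PED.refl (fun v w => q (lab x.i v) (lab x.i w)) (fun v => _root_.refl _) _ _ _⟩
      trans := by
        rintro x y z ⟨h1, β, f, φ, M, h2⟩ ⟨h3, β', f', φ', M', h4⟩
        obtain ⟨P, hP⟩ := hT n (V x.i) (V y.i) (V z.i) (H x.i) (H y.i) (H z.i)
          (fun v w => q (lab x.i v) (lab y.i w)) (fun v w => q (lab y.i v) (lab z.i w))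
          (fun v w => q (lab x.i v) (lab z.i w)) (fun a b c h h' => _root_.trans h h')
          (G x.i) (u x.i) x.t.set (G y.i) (u y.i) y.t.set (G z.i) (u z.i) z.t.set
          β f φ M β' f' φ' M' (hsu x) (hsu y) (hsu z) h2 h4
        exact ⟨fun j => (h1 j).trans (h3 j), _, _, _, P, hP⟩ }
  have main : (Set.univ : Set (Elt (fun i => V i ⊕ H i) T)).PartiallyWellOrderedOn le := by
    refine wqo_of_levels le (fun x => x.t.leaves.length)
      (fun x => rho k (G x.i) (u x.i) x.t.set) (k * 2 ^ n + (k * 2 ^ n + 1) * (2 * n)) Ch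
      ?_ ?_ ?_ ?_
    · rintro x y ⟨l, r, hlr, ⟨h, rfl⟩ | ⟨h, rfl⟩⟩
      · have := leaves_pos r
        simp only [hlr, Tree.leaves, List.length_append]
        omega
      · have := leaves_pos l
        simp only [hlr, Tree.leaves, List.length_append]
        omega
    · intro x
      exact Nat.add_le_add (hT3 x.i x.t x.h).2 (Nat.mul_le_mul_left _ (pot_le _ _ _))
    · intro m x y hx hy hd
      obtain ⟨i, b, a, hb, ha, rfl, rfl, hp⟩ := pathGe (fun i => rho k (G i) (u i)) hd
      obtain ⟨h1, h2, h3⟩ := hT4 i b a m hb hp hx hy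
      obtain ⟨β, M, h4⟩ := hLk n (V i) (H i) (fun v w => q (lab i v) (lab i w))
        (fun v => _root_.refl _) (G i) (u i) a.set b.set (hu i) hp.set_subset
        (hT2 i ▸ hb.set_subset) (hT3 i a ha).1 (hT3 i b hb).1 h1 h2 h3
      exact ⟨h1, β, id, id, M, h4⟩
    · intro X hC
      set C : Set (Elt (fun i => V i ⊕ H i) T) := {y | ∃ x ∈ X, Ch x y} with hCdef
      have h1 : {x | x ∈ X ∧ ∃ v, x.t = .leaf v}.PartiallyWellOrderedOn le := by
        rw [Set.partiallyWellOrderedOn_iff_exists_lt]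
        intro f hf
        choose v hv' using fun n => (hf n).2
        obtain ⟨a, b, hab, h2, h3⟩ := leaf hLV hLH k n q hq (fun m => V (f m).i)
          (fun m => H (f m).i) (fun m => G (f m).i) (fun m => lab (f m).i) (fun m => u (f m).i)
          (fun m => hu _) (fun m => hk _) v (fun m => by
            have h4 := hsu (f m)
            rw [hv' m, TL.set_leaf] at h4
            exact h4 (Finset.mem_singleton_self _))
        refine ⟨a, b, hab, ?_⟩
        show (∀ j, st (G (f a).i) (u (f a).i) (f a).t.set j =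
          st (G (f b).i) (u (f b).i) (f b).t.set j) ∧ _
        simp only [hv', TL.set_leaf]
        exact ⟨h2, h3⟩
      have h2 : {x | x ∈ X ∧ ∃ l r, x.t = .node l r}.PartiallyWellOrderedOn le := by
        rw [Set.partiallyWellOrderedOn_iff_exists_lt]
        intro f hf
        choose l r hlr using fun n => (hf n).2
        have hsub : ∀ n, IsSub (.node (l n) (r n)) (T (f n).i) := fun n => hlr n ▸ (f n).h
        have hl : ∀ n, IsSub (l n) (T (f n).i) := fun n =>
          IsSub.trans' (.left _ _ .refl) (hsub n)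
        have hr : ∀ n, IsSub (r n) (T (f n).i) := fun n =>
          IsSub.trans' (.right _ _ .refl) (hsub n)
        have hlC : ∀ n, (⟨(f n).i, l n, hl n⟩ : Elt (fun i => V i ⊕ H i) T) ∈ C := fun n =>
          ⟨f n, (hf n).1, l n, r n, hlr n, Or.inl ⟨hl n, rfl⟩⟩
        have hrC : ∀ n, (⟨(f n).i, r n, hr n⟩ : Elt (fun i => V i ⊕ H i) T) ∈ C := fun n =>
          ⟨f n, (hf n).1, l n, r n, hlr n, Or.inr ⟨hr n, rfl⟩⟩
        obtain ⟨g, hg⟩ := hC.exists_monotone_subseq hlC
        obtain ⟨g', hg'⟩ := hC.exists_monotone_subseq (fun n => hrC (g n))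
        obtain ⟨a, b, hab, h3, h4⟩ := hGl n Q q (fun m => V (f (g (g' m))).i)
          (fun m => H (f (g (g' m))).i) (fun m => G (f (g (g' m))).i)
          (fun m => u (f (g (g' m))).i)
          (fun m => lab (f (g (g' m))).i) (fun m => (l (g (g' m))).set)
          (fun m => (r (g (g' m))).set) (fun m => hu _)
          (fun m => hT2 _ ▸ (hl _).set_subset) (fun m => hT2 _ ▸ (hr _).set_subset)
          (fun m => disjoint_of_nodup ((hsub _).leaves_nodup (hT1 _)))
          (fun m => (hT3 _ _ (hl _)).1) (fun m => (hT3 _ _ (hr _)).1)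
          (fun m => (hg _ _ (g'.monotone (Nat.le_succ m))).2)
          (fun m => (hg' _ _ (Nat.le_succ m)).2)
        refine ⟨g (g' a), g (g' b), g.strictMono (g'.strictMono hab), ?_⟩
        show (∀ j, st (G (f (g (g' a))).i) (u (f (g (g' a))).i) (f (g (g' a))).t.set j =
          st (G (f (g (g' b))).i) (u (f (g (g' b))).i) (f (g (g' b))).t.set j) ∧ _
        simp only [hlr, set_node]
        exact ⟨h3, h4⟩
      refine (h1.union h2).mono fun x hx => ?_
      rcases ht : x.t with v | ⟨l, r⟩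
      · exact Or.inl ⟨hx, v, ht⟩
      · exact Or.inr ⟨hx, l, r, ht⟩
  obtain ⟨m, l, hml, -, β, f, φ, M, hβ⟩ := main.exists_lt
    (f := fun n => (⟨n, T n, .refl⟩ : Elt (fun i => V i ⊕ H i) T)) (fun n => Set.mem_univ _)
  refine ⟨m, l, hml, imm_of_PE _ _ _ β ?_⟩
  rw [hT2, hT2] at hβ
  exact hF n (V m) (V l) (H m) (H l) _ (G m) (u m) (G l) (u l) β f φ M (hu m) (hu l) (hv m) (hv l)
    hβ

end Main22

open Main22 in
/-- (J) -/
theorem stMain_22 (hT : StTrans.{u, v}) (hLV : StLeafV.{u, v}) (hLH : StLeafH.{u, v})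
    (hGl : StGlue.{u, v, w}) (hLk : StLink.{u, v}) (hLd : StLinked.{u, v})
    (hF : StFinal.{u, v}) : StMain.{u, v, w} := by
  intro k Q q _ hq V H _ _ G lab hG
  have h0 : ∀ i, ∃ (p : Fin (k + 1) × Bool) (u : Fin p.1 → V i), Function.Injective u ∧
      (∀ j, u j ∈ (G i).verts) ∧ (∀ v, ¬ IsHub u v → ((G i).rot v).length ≤ k) ∧
      (p.2 = true → units (G i) u = ∅) ∧ (p.2 = false → ∃ t, IsArcCarving k (G i) u t) := by
    intro i
    obtain ⟨n, u, h1, h2, h3, h4, h5⟩ := hG i
    rcases h5 with h5 | h5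
    · exact ⟨(⟨n, Nat.lt_succ_of_le h1⟩, true), u, h2, h3, h4, fun _ => h5,
        (fun h => by cases h)⟩
    · exact ⟨(⟨n, Nat.lt_succ_of_le h1⟩, false), u, h2, h3, h4,
        (fun h => by cases h), fun _ => h5⟩
  choose p u h1 h2 h3 h4 h5 using h0
  have hD : WellQuasiOrdered (fun a b : Fin (k + 1) × Bool => a = b) := Finite.wellQuasiOrdered _
  have : IsPreorder (Fin (k + 1) × Bool) (fun a b => a = b) :=
    { refl := fun a => rfl
      trans := fun a b c h h' => h.trans h' }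
  obtain ⟨g, hg⟩ := hD.exists_monotone_subseq p
  have hp : ∀ m, p (g m) = p (g 0) := fun m => (hg 0 m (Nat.zero_le m)).symm
  -- the hubs, with a constant number
  have h6 : ∀ m, ∃ u : Fin (p (g 0)).1 → V (g m), Function.Injective u ∧
      (∀ j, u j ∈ (G (g m)).verts) ∧ (∀ v, ¬ IsHub u v → ((G (g m)).rot v).length ≤ k) ∧
      ((p (g 0)).2 = true → units (G (g m)) u = ∅) ∧
      ((p (g 0)).2 = false → ∃ t, IsArcCarving k (G (g m)) u t) := by
    intro m
    rw [← hp m]
    exact ⟨u (g m), h1 _, h2 _, h3 _, h4 _, h5 _⟩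
  choose u' g1 g2 g3 g4 g5 using h6
  rcases hb : (p (g 0)).2 with _ | _
  · obtain ⟨i, j, hij, h⟩ := core hT hLV hLH hGl hLk hLd hF k (p (g 0)).1 q hq
      (fun m => V (g m)) (fun m => H (g m)) (fun m => G (g m)) (fun m => lab (g m)) u' g1 g2 g3
      (fun m => g5 m hb)
    exact ⟨g i, g j, g.strictMono hij, h⟩
  · obtain ⟨i, j, hij, h⟩ := (wqo_pi hq (p (g 0)).1) (fun m => fun i => lab (g m) (u' m i))
    obtain ⟨β, f, φ, M, h7⟩ := ped_empty (fun v w => q (lab (g i) v) (lab (g j) w)) (G (g i))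
      (u' i) (G (g j)) (u' j) (g1 i) (g4 i hb) (g4 j hb) h
    exact ⟨g i, g j, g.strictMono hij, imm_of_PE _ _ _ β (hF _ _ _ _ _ _ _ _ _ _ β f φ M (g1 i)
      (g1 j) (g2 i) (g2 j) h7)⟩

end RotWqo.Arc
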