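import Pool.Agent.Lib.MP_cb4a0f_co.Arc.Stmts

/-!
# MP_cb4a0f_co, arc carvings: reflexivity
-/

open Classical

namespace RotWqo.Arc

variable {V H : Type*} {n : ℕ}

/-- Reflexivity. -/
theorem PED.refl (r : V → V → Prop) (hr : ∀ v, r v v) (G : RotGraph V H) (u : Fin n → V)
    (X : Finset (V ⊕ H)) : PED r G u X G u X id id id (fun _ _ => False) := by
  have hK : ∀ a, Kx G u X (id : H → H) a ↔ a ∈ G.darts ∧ inn G u X a := by
    intro a
    constructor
    · rintro ⟨h, h1, h2, rfl⟩
      exact ⟨h1, h2⟩
    · rintro ⟨h1, h2⟩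
      exact ⟨a, h1, h2, rfl⟩
  refine
    { f_hub := fun _ => rfl
      f_mem := fun _ h => h
      f_rel := fun v _ => hr v
      f_inj := fun _ _ _ _ h => h
      M_symm := fun _ _ h => h
      M_fun := fun _ _ _ h => h.elim
      M_mem := fun _ _ h => h.elim
      M_base := fun _ _ h => h.elim
      M_ker := fun _ _ h => h.elim
      φ_mem := fun h h1 h2 => ⟨h1, h2⟩
      φ_base := fun _ _ _ => rfl
      φ_inj := fun _ _ _ _ _ _ h => h
      rot_eq := ?_
      nc := ?_
      run_in := fun h _ _ _ => ⟨h, .refl _, rfl⟩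
      run_out := fun h _ => .refl _
      β_bij := Set.bijOn_id _ }
  · intro v _
    have h1 : (wd G u X v).map (Option.map id) = wd G u X v := by
      rw [Option.map_id, List.map_id]
    rw [h1, id, List.filter_eq_self.2]
    intro a ha
    rw [decide_eq_true_eq]
    cases a with
    | none => trivial
    | some a =>
      obtain ⟨h2, -, h3⟩ := some_mem_wd.1 ha
      exact (hK a).2 ⟨h2, h3⟩
  · intro x _
    refine .done _ ?_
    rintro a _ b ⟨_, _, _, _, h⟩
    exact h

end RotWqo.Arc
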