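import Pool.Agent.Lib.MP_cb4a0f_co.Arc.Defs

/-!
# MP_cb4a0f_co, arc carvings: statements of the modules
-/

open Classical

namespace RotWqo.Arc

universe u v w

/-- (A) Linear and cyclic noncrossing words. -/
def StNC : Prop := ∀ (H : Type v) (M : H → H → Prop), (∀ a b, M a b → M b a) →
  (∀ l : List H, NC (liftO M) (none :: l.map some) ↔ NCL M l) ∧
  (∀ l : List H, NCL M l → NC (liftO M) (l.map some)) ∧
  (∀ l l' : List H, NCL M l → NCL M l' → NCL M (l ++ l')) ∧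
  (∀ l : List H, NC M l → (∀ a ∈ l, ∃ b, M a b) → NCL M l) ∧
  (∀ (M' : H → H → Prop) (l : List H), NCL M' l → (∀ a b, M' a b → M a b) →
    (∀ a ∈ l, ∀ b, M a b → ∃ c, M' a c) → NCL M l)

/-- (B) Transitivity. -/
def StTrans : Prop := ∀ (n : ℕ) (V V' V'' : Type u) (H H' H'' : Type v)
  (r₁ : V → V' → Prop) (r₂ : V' → V'' → Prop) (r : V → V'' → Prop),
  (∀ a b c, r₁ a b → r₂ b c → r a c) →
  ∀ (G : RotGraph V H) (u : Fin n → V) (X : Finset (V ⊕ H))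
    (G' : RotGraph V' H') (u' : Fin n → V') (X' : Finset (V' ⊕ H'))
    (G'' : RotGraph V'' H'') (u'' : Fin n → V'') (X'' : Finset (V'' ⊕ H''))
    (β : H → H') (f : V → V') (φ : H → H') (M : H' → H' → Prop)
    (β' : H' → H'') (f' : V' → V'') (φ' : H' → H'') (M' : H'' → H'' → Prop),
    X ⊆ units G u → X' ⊆ units G' u' → X'' ⊆ units G'' u'' →
    PED r₁ G u X G' u' X' β f φ M → PED r₂ G' u' X' G'' u'' X'' β' f' φ' M' →
    ∃ P, PED r G u X G'' u'' X'' (β' ∘ β) (f' ∘ f) (φ' ∘ φ) P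

/-- (C) Gluing two disjoint pieces. -/
def StUnion : Prop := ∀ (n : ℕ) (V V' : Type u) (H H' : Type v) (r : V → V' → Prop)
  (G : RotGraph V H) (u : Fin n → V) (X₁ X₂ : Finset (V ⊕ H))
  (G' : RotGraph V' H') (u' : Fin n → V') (X₁' X₂' : Finset (V' ⊕ H')) (β₁ β₂ : H → H'),
  Function.Injective u → Function.Injective u' →
  X₁ ⊆ units G u → X₂ ⊆ units G u → X₁' ⊆ units G' u' → X₂' ⊆ units G' u' →
  Disjoint X₁ X₂ → Disjoint X₁' X₂' →
  (∃ f φ M, PED r G u X₁ G' u' X₁' β₁ f φ M) → (∃ f φ M, PED r G u X₂ G' u' X₂' β₂ f φ M) →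
  (∀ h ∈ bdx G u X₁, inn G u X₂ (G.opp h) → G'.opp (β₁ h) = β₂ (G.opp h)) →
  (∀ h ∈ bdx G u X₁, ¬ inn G u X₂ (G.opp h) → ¬ inn G' u' X₂' (G'.opp (β₁ h))) →
  (∀ h ∈ bdx G u X₂, ¬ inn G u X₁ (G.opp h) → ¬ inn G' u' X₁' (G'.opp (β₂ h))) →
  (∀ i, (catl G u X₁ X₂ (u i) ∧ catl G' u' X₁' X₂' (u' i)) ∨
    (catl G u X₂ X₁ (u i) ∧ catl G' u' X₂' X₁' (u' i))) →
  (∀ i, cpl G u (X₁ ∪ X₂) (u i) ↔ cpl G' u' (X₁' ∪ X₂') (u' i)) →
  ∃ f φ M, PED r G u (X₁ ∪ X₂) G' u' (X₁' ∪ X₂')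
    (fun h => if inn G u X₁ h then β₁ h else β₂ h) f φ M

/-- (D1) Pieces with one unit, which is a vertex of bounded degree. -/
def StLeafV : Prop := ∀ (n k : ℕ) (V V' : Type u) (H H' : Type v) [Nonempty H'] [Nonempty V']
  (r : V → V' → Prop)
  (G : RotGraph V H) (u : Fin n → V) (G' : RotGraph V' H') (u' : Fin n → V') (v : V) (v' : V'),
  Function.Injective u → Function.Injective u' → v ∈ G.verts → v' ∈ G'.verts →
  ¬ IsHub u v → ¬ IsHub u' v' → (∀ i, r (u i) (u' i)) → r v v' →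
  (∀ i, cpl G u {Sum.inl v} (u i) ↔ cpl G' u' {Sum.inl v'} (u' i)) →
  (G.rot v).length ≤ k → (G.rot v).length = (G'.rot v').length → pat k G v = pat k G' v' →
  ∃ β f φ M, PED r G u {Sum.inl v} G' u' {Sum.inl v'} β f φ M

/-- (D2) Pieces with one unit, which is a half-edge at a hub. -/
def StLeafH : Prop := ∀ (n : ℕ) (V V' : Type u) (H H' : Type v) [Nonempty V']
  (r : V → V' → Prop)
  (G : RotGraph V H) (u : Fin n → V) (G' : RotGraph V' H') (u' : Fin n → V') (j : Fin n)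
  (h : H) (h' : H'),
  Function.Injective u → Function.Injective u' → h ∈ G.darts → h' ∈ G'.darts →
  G.base h = u j → G'.base h' = u' j → (∀ i, r (u i) (u' i)) →
  (∀ i, cpl G u {Sum.inr h} (u i) ↔ cpl G' u' {Sum.inr h'} (u' i)) →
  ∃ β f φ M, PED r G u {Sum.inr h} G' u' {Sum.inr h'} β f φ M

/-- (E) Gluing along a sequence. -/
def StGlue : Prop := ∀ (n : ℕ) (Q : Type w) (q : Q → Q → Prop) [IsPreorder Q q]
  (V : ℕ → Type u) (H : ℕ → Type v) (G : ∀ i, RotGraph (V i) (H i)) (u : ∀ i, Fin n → V i)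
  (lab : ∀ i, V i → Q) (L R : ∀ i, Finset (V i ⊕ H i)),
  (∀ i, Function.Injective (u i)) → (∀ i, L i ⊆ units (G i) (u i)) →
  (∀ i, R i ⊆ units (G i) (u i)) → (∀ i, Disjoint (L i) (R i)) →
  (∀ i, Cv (G i) (u i) (L i)) → (∀ i, Cv (G i) (u i) (R i)) →
  (∀ m, ∃ β f φ M, PED (fun a b => q (lab m a) (lab (m + 1) b)) (G m) (u m) (L m) (G (m + 1))
    (u (m + 1)) (L (m + 1)) β f φ M) →
  (∀ m, ∃ β f φ M, PED (fun a b => q (lab m a) (lab (m + 1) b)) (G m) (u m) (R m) (G (m + 1))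
    (u (m + 1)) (R (m + 1)) β f φ M) →
  ∃ m l, m < l ∧ (∀ i, st (G m) (u m) (L m ∪ R m) i = st (G l) (u l) (L l ∪ R l) i) ∧
    ∃ β f φ M, PED (fun a b => q (lab m a) (lab l b)) (G m) (u m) (L m ∪ R m) (G l) (u l)
      (L l ∪ R l) β f φ M

/-- (F) Linked pieces. -/
def StLink : Prop := ∀ (n : ℕ) (V : Type u) (H : Type v) (r : V → V → Prop), (∀ v, r v v) →
  ∀ (G : RotGraph V H) (u : Fin n → V) (A B : Finset (V ⊕ H)), Function.Injective u →
    A ⊆ B → B ⊆ units G u → Cv G u A → Cv G u B → (∀ i, st G u A i = st G u B i) →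
    ecut G u A = ecut G u B →
    (∀ X, A ⊆ X → X ⊆ B → Cv G u X → ecut G u A ≤ ecut G u X) →
    ∃ β M, PED r G u A G u B β id id M

/-- (G) Linked trees, abstract version: `d` is submodular where needed, `F A B` is the family of
the admissible sets between `A` and `B`, the nodes stay good. -/
def StAbs : Prop := ∀ (V : Type u) (d : Finset V → ℕ) (Good : Finset V → Prop)
  (F : Finset V → Finset V → Finset V → Prop) (K : ℕ),
  (∀ A B X, F A B X → A ⊆ X ∧ X ⊆ B) → (∀ S, Good S → d S ≤ K) →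
  (∀ A B X, Good A → Good B → A.Nonempty → A ⊆ B → d A = d B → F A B X → d X < d A →
    (∀ Y, F A B Y → d X ≤ d Y) →
    Good X ∧
    (∀ S, Good S → A ⊆ S → S ⊆ B → F A B (S ∩ X) ∧ F A B (S ∪ X) ∧
      d (S ∩ X) + d (S ∪ X) ≤ d S + d X ∧ Good (S ∩ X) ∧ Good (S ∪ X)) ∧
    (∀ S, Good S → S ⊆ B → Disjoint S A → (S ∩ X).Nonempty → (S \ X).Nonempty →
      Good (S ∩ X) ∧ Good (S \ X) ∧
      ((F A B (S ∪ X) ∧ d (S ∩ X) + d (S ∪ X) ≤ d S + d X) ∨ d (S ∩ X) < d S) ∧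
      ((F A B (X \ S) ∧ d (S \ X) + d (X \ S) ≤ d S + d X) ∨ d (S \ X) < d S))) →
  ∀ t : Tree V, t.leaves.Nodup → (∀ s, IsSub s t → Good s.set) →
    ∃ t' : Tree V, t'.leaves.Nodup ∧ t'.set = t.set ∧ (∀ s, IsSub s t' → Good s.set) ∧
      ∀ b a m, IsSub b t' → PathGe d m a b → d b.set = m → d a.set = m →
        ∀ X, F a.set b.set X → m ≤ d X

/-- The value of a node. -/
noncomputable def rho {V : Type u} {H : Type v} {n : ℕ} (k : ℕ) (G : RotGraph V H)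
    (u : Fin n → V) (X : Finset (V ⊕ H)) : ℕ :=
  ecut G u X + (k * 2 ^ n + 1) * pot G u X

/-- (H) Linked arc carvings. -/
def StLinked : Prop := ∀ (n k : ℕ) (V : Type u) (H : Type v) (G : RotGraph V H) (u : Fin n → V)
  (t : Tree (V ⊕ H)), Function.Injective u → IsArcCarving k G u t →
  ∃ t' : Tree (V ⊕ H), t'.leaves.Nodup ∧ t'.set = units G u ∧
    (∀ s, IsSub s t' → Cv G u s.set ∧ ecut G u s.set ≤ k * 2 ^ n) ∧
    ∀ b a m, IsSub b t' → PathGe (rho k G u) m a b → rho k G u b.set = m →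
      rho k G u a.set = m →
      (∀ i, st G u a.set i = st G u b.set i) ∧ ecut G u a.set = ecut G u b.set ∧
        ∀ X, a.set ⊆ X → X ⊆ b.set → Cv G u X → ecut G u a.set ≤ ecut G u X

/-- (I) An embedding of the whole piece is an embedding. -/
def StFinal : Prop := ∀ (n : ℕ) (V V' : Type u) (H H' : Type v) [Nonempty H']
  (r : V → V' → Prop) (G : RotGraph V H) (u : Fin n → V) (G' : RotGraph V' H')
  (u' : Fin n → V') (β : H → H') (f : V → V') (φ : H → H') (M : H' → H' → Prop),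
  Function.Injective u → Function.Injective u' → (∀ i, u i ∈ G.verts) → (∀ i, u' i ∈ G'.verts) →
  PED r G u (units G u) G' u' (units G' u') β f φ M → PE r G G.verts G' G'.verts β

/-- (J) The theorem. -/
def StMain : Prop := ∀ (k : ℕ) (Q : Type w) (q : Q → Q → Prop) [IsPreorder Q q],
  WellQuasiOrdered q → ∀ (V : ℕ → Type u) (H : ℕ → Type v) [∀ i, Nonempty (V i)]
    [∀ i, Nonempty (H i)] (G : ∀ i, RotGraph (V i) (H i)) (lab : ∀ i, V i → Q),
    (∀ i, ArcWidthLE k (G i)) →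
    ∃ i j, i < j ∧ Imm (fun v w => q (lab i v) (lab j w)) (G i) (G j)

end RotWqo.Arc
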